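import Mathlib

namespace Pool.Agent.KMinDom

open Finset

set_option linter.unusedSectionVars false

/-- `X` is a dominating set of `G`: every vertex outside `X` has a neighbour in `X`. -/
def IsDominating {V : Type} (G : SimpleGraph V) (X : Finset V) : Prop :=
  ∀ v, v ∉ X → ∃ x ∈ X, G.Adj v x

/-- `X` is a `k`-minimal dominating set of `G`: it is dominating and for every `1 ≤ ℓ ≤ k`, every
`ℓ`-element `U ⊆ X` and every `(ℓ-1)`-element set `R` of vertices, `(X \ U) ∪ R` is not
dominating. -/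
def IsKMinimal {V : Type} [DecidableEq V] (k : ℕ) (G : SimpleGraph V) (X : Finset V) : Prop :=
  IsDominating G X ∧
    ∀ ℓ : ℕ, 1 ≤ ℓ → ℓ ≤ k → ∀ U : Finset V, U ⊆ X → U.card = ℓ →
      ∀ R : Finset V, R.card = ℓ - 1 → ¬ IsDominating G ((X \ U) ∪ R)

/-- `Γ_k(G)`: the largest size of a `k`-minimal dominating set of `G`. -/
noncomputable def bigGamma {V : Type} [DecidableEq V] (k : ℕ) (G : SimpleGraph V) : ℕ :=
  sSup {m : ℕ | ∃ X : Finset V, IsKMinimal k G X ∧ X.card = m}

/-- `g(n,k)`: the maximum of `Γ_k(G) * Γ_k(Gᶜ)` over all graphs on `n` vertices. -/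
noncomputable def g (n k : ℕ) : ℕ :=
  sSup {m : ℕ | ∃ G : SimpleGraph (Fin n), bigGamma k G * bigGamma k Gᶜ = m}

/-! ### basic API -/

section basic

variable {V : Type} [Fintype V] [DecidableEq V]

lemma bddAbove_gamma (k : ℕ) (G : SimpleGraph V) :
    BddAbove {m : ℕ | ∃ X : Finset V, IsKMinimal k G X ∧ X.card = m} := by
  refine ⟨Fintype.card V, ?_⟩
  rintro m ⟨X, _, rfl⟩
  exact Finset.card_le_univ X

lemma le_bigGamma {k : ℕ} {G : SimpleGraph V} {X : Finset V} (h : IsKMinimal k G X) :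
    X.card ≤ bigGamma k G :=
  le_csSup (bddAbove_gamma k G) ⟨X, h, rfl⟩

lemma exists_dominating_min (G : SimpleGraph V) :
    ∃ X : Finset V, IsDominating G X ∧ ∀ Y : Finset V, IsDominating G Y → X.card ≤ Y.card := by
  classical
  have hne : (Finset.univ.filter (fun X : Finset V => IsDominating G X)).Nonempty := by
    refine ⟨Finset.univ, ?_⟩
    simp only [mem_filter, mem_univ, true_and]
    intro v hv
    exact absurd (mem_univ v) hv
  obtain ⟨X, hX, hmin⟩ := Finset.exists_min_image _ Finset.card hne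
  refine ⟨X, (mem_filter.mp hX).2, fun Y hY => hmin Y ?_⟩
  simp only [mem_filter, mem_univ, true_and]
  exact hY

lemma isKMinimal_of_min {k : ℕ} {G : SimpleGraph V} {X : Finset V} (h : IsDominating G X)
    (hmin : ∀ Y : Finset V, IsDominating G Y → X.card ≤ Y.card) : IsKMinimal k G X := by
  refine ⟨h, ?_⟩
  intro l hl _ U hU hUc R hR hdom
  have h1 := hmin _ hdom
  have h2 := Finset.card_union_le (X \ U) R
  have h3 := Finset.card_sdiff_of_subset hU
  have h4 := Finset.card_le_card hU
  omega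

lemma exists_kMinimal (k : ℕ) (G : SimpleGraph V) : ∃ X : Finset V, IsKMinimal k G X := by
  obtain ⟨X, hX, hmin⟩ := exists_dominating_min G
  exact ⟨X, isKMinimal_of_min hX hmin⟩

lemma exists_bigGamma (k : ℕ) (G : SimpleGraph V) :
    ∃ X : Finset V, IsKMinimal k G X ∧ X.card = bigGamma k G := by
  have hne : {m : ℕ | ∃ X : Finset V, IsKMinimal k G X ∧ X.card = m}.Nonempty := by
    obtain ⟨X, hX⟩ := exists_kMinimal k G
    exact ⟨X.card, X, hX, rfl⟩
  exact Nat.sSup_mem hne (bddAbove_gamma k G)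

lemma bigGamma_le_card (k : ℕ) (G : SimpleGraph V) : bigGamma k G ≤ Fintype.card V := by
  obtain ⟨X, _, h⟩ := exists_bigGamma k G
  rw [← h]
  exact Finset.card_le_univ X

lemma one_le_bigGamma [Nonempty V] (k : ℕ) (G : SimpleGraph V) : 1 ≤ bigGamma k G := by
  obtain ⟨X, hX, h⟩ := exists_bigGamma k G
  rw [← h, Nat.one_le_iff_ne_zero, Finset.card_ne_zero]
  by_contra hne
  rw [Finset.not_nonempty_iff_eq_empty] at hne
  obtain ⟨v⟩ := ‹Nonempty V›
  obtain ⟨x, hx, _⟩ := hX.1 v (by rw [hne]; exact Finset.notMem_empty v)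
  rw [hne] at hx
  exact Finset.notMem_empty x hx

end basic

lemma bddAbove_g (n k : ℕ) :
    BddAbove {m : ℕ | ∃ G : SimpleGraph (Fin n), bigGamma k G * bigGamma k Gᶜ = m} := by
  refine ⟨n * n, ?_⟩
  rintro m ⟨G, rfl⟩
  have h1 := bigGamma_le_card k G
  have h2 := bigGamma_le_card k Gᶜ
  rw [Fintype.card_fin] at h1 h2
  exact Nat.mul_le_mul h1 h2

lemma le_g {n k : ℕ} (G : SimpleGraph (Fin n)) : bigGamma k G * bigGamma k Gᶜ ≤ g n k :=
  le_csSup (bddAbove_g n k) ⟨G, rfl⟩

lemma exists_g (n k : ℕ) : ∃ G : SimpleGraph (Fin n), bigGamma k G * bigGamma k Gᶜ = g n k := by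
  have hne : {m : ℕ | ∃ G : SimpleGraph (Fin n), bigGamma k G * bigGamma k Gᶜ = m}.Nonempty :=
    ⟨_, ⊥, rfl⟩
  exact Nat.sSup_mem hne (bddAbove_g n k)

/-- Working form of `g`: it is attained by sets `X`, `Y`. -/
lemma exists_sets_g (n k : ℕ) : ∃ (G : SimpleGraph (Fin n)) (X Y : Finset (Fin n)),
    IsKMinimal k G X ∧ IsKMinimal k Gᶜ Y ∧ X.card * Y.card = g n k := by
  obtain ⟨G, hG⟩ := exists_g n k
  obtain ⟨X, hX, hX'⟩ := exists_bigGamma k G
  obtain ⟨Y, hY, hY'⟩ := exists_bigGamma k Gᶜ
  exact ⟨G, X, Y, hX, hY, by rw [hX', hY', hG]⟩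

lemma card_mul_card_le_g {n k : ℕ} {G : SimpleGraph (Fin n)} {X Y : Finset (Fin n)}
    (hX : IsKMinimal k G X) (hY : IsKMinimal k Gᶜ Y) : X.card * Y.card ≤ g n k :=
  (Nat.mul_le_mul (le_bigGamma hX) (le_bigGamma hY)).trans (le_g G)

lemma one_le_g {n : ℕ} (k : ℕ) (hn : 1 ≤ n) : 1 ≤ g n k := by
  have : Nonempty (Fin n) := ⟨⟨0, hn⟩⟩
  refine le_trans ?_ (le_g (k := k) (⊥ : SimpleGraph (Fin n)))
  have h1 := one_le_bigGamma k (⊥ : SimpleGraph (Fin n))
  have h2 := one_le_bigGamma k (⊥ : SimpleGraph (Fin n))ᶜ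
  exact Nat.mul_le_mul h1 h2

/-! ### private neighbourhoods -/

section priv

variable {V : Type} [Fintype V] [DecidableEq V]

open Classical in
/-- the elements of `X` dominating `v` -/
noncomputable def supp (G : SimpleGraph V) (X : Finset V) (v : V) : Finset V :=
  X.filter (fun x => x = v ∨ G.Adj v x)

open Classical in
/-- the private neighbourhood of `x` (including possibly `x` itself) -/
noncomputable def priv (G : SimpleGraph V) (X : Finset V) (x : V) : Finset V :=
  Finset.univ.filter (fun v => supp G X v = {x})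

/-- `v` is dominated by `R` (closed neighbourhoods) -/
def Dom (G : SimpleGraph V) (R : Finset V) (v : V) : Prop := ∃ r ∈ R, r = v ∨ G.Adj v r

open Classical in
/-- the set of `x ∈ X` whose private neighbourhood is dominated by `R`. -/
noncomputable def dset (G : SimpleGraph V) (X R : Finset V) : Finset V :=
  X.filter (fun x => ∀ v ∈ priv G X x, Dom G R v)

lemma mem_supp {G : SimpleGraph V} {X : Finset V} {v x : V} :
    x ∈ supp G X v ↔ x ∈ X ∧ (x = v ∨ G.Adj v x) := by
  simp [supp]

lemma mem_priv {G : SimpleGraph V} {X : Finset V} {v x : V} :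
    v ∈ priv G X x ↔ supp G X v = {x} := by
  simp [priv]

lemma mem_dset {G : SimpleGraph V} {X R : Finset V} {x : V} :
    x ∈ dset G X R ↔ x ∈ X ∧ ∀ v ∈ priv G X x, Dom G R v := by
  simp [dset]

lemma dominating_iff {G : SimpleGraph V} {X : Finset V} :
    IsDominating G X ↔ ∀ v, Dom G X v := by
  constructor
  · intro h v
    by_cases hv : v ∈ X
    · exact ⟨v, hv, Or.inl rfl⟩
    · obtain ⟨x, hx, hadj⟩ := h v hv
      exact ⟨x, hx, Or.inr hadj⟩
  · intro h v hv
    obtain ⟨r, hr, h1 | h1⟩ := h v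
    · exact absurd (h1 ▸ hr) hv
    · exact ⟨r, hr, h1⟩

lemma supp_nonempty {G : SimpleGraph V} {X : Finset V} (h : IsDominating G X) (v : V) :
    (supp G X v).Nonempty := by
  obtain ⟨r, hr, h1⟩ := dominating_iff.mp h v
  exact ⟨r, mem_supp.mpr ⟨hr, h1⟩⟩

lemma priv_disjoint {G : SimpleGraph V} {X : Finset V} {x x' : V} (h : x ≠ x') :
    Disjoint (priv G X x) (priv G X x') := by
  rw [Finset.disjoint_left]
  intro v h1 h2
  rw [mem_priv] at h1 h2
  rw [h1] at h2
  exact h (Finset.singleton_injective h2)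

/-- The exchange property: for `R` with fewer than `k` elements, each subset `U` of `dset R` with
`|R| + 1` elements contains the support of some vertex, and this support has at least two
elements. -/
lemma exists_supp_subset {k : ℕ} {G : SimpleGraph V} {X R U : Finset V} (h : IsKMinimal k G X)
    (hR : R.card + 1 ≤ k) (hU : U ⊆ dset G X R) (hUc : U.card = R.card + 1) :
    ∃ v, supp G X v ⊆ U ∧ 2 ≤ (supp G X v).card := by
  have hUX : U ⊆ X := fun x hx => (mem_dset.mp (hU hx)).1
  have hnd := h.2 (R.card + 1) (by omega) hR U hUX hUc R (by omega)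
  rw [dominating_iff] at hnd
  push Not at hnd
  obtain ⟨v, hv⟩ := hnd
  have hsub : supp G X v ⊆ U := by
    intro x hx
    rw [mem_supp] at hx
    by_contra hxU
    exact hv ⟨x, by simp [hx.1, hxU], hx.2⟩
  refine ⟨v, hsub, ?_⟩
  have hne := supp_nonempty h.1 v
  have h1 : 1 ≤ (supp G X v).card := Finset.card_pos.mpr hne
  by_contra hcon
  have h2 : (supp G X v).card = 1 := by omega
  obtain ⟨x, hx⟩ := Finset.card_eq_one.mp h2
  have hxU : x ∈ U := hsub (by rw [hx]; exact Finset.mem_singleton_self x)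
  have h3 := (mem_dset.mp (hU hxU)).2 v (mem_priv.mpr hx)
  obtain ⟨r, hr, hr'⟩ := h3
  exact hv ⟨r, by simp [hr], hr'⟩

/-- double counting: if every `(j+1)`-subset of `D` contains a set `S v` with at least two
elements, then `|D| (|D| - 1) ≤ |V| (j+1) j`. -/
lemma card_bound_of_hits {α : Type} [DecidableEq α] (S : V → Finset α) (D : Finset α) (j : ℕ)
    (hV : 1 ≤ Fintype.card V)
    (h : ∀ U ⊆ D, U.card = j + 1 → ∃ v, S v ⊆ U ∧ 2 ≤ (S v).card) :
    D.card * (D.card - 1) ≤ Fintype.card V * ((j + 1) * j) := by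
  classical
  by_cases hd : D.card ≤ j
  · calc D.card * (D.card - 1) ≤ j * j := Nat.mul_le_mul hd (by omega)
      _ ≤ (j + 1) * j := Nat.mul_le_mul_right j (by omega)
      _ = 1 * ((j + 1) * j) := by ring
      _ ≤ _ := Nat.mul_le_mul_right _ hV
  · push Not at hd
    -- j ≥ 1
    have hj : 1 ≤ j := by
      by_contra hj0
      have hj1 : j = 0 := by omega
      obtain ⟨U, hU, hUc⟩ := Finset.exists_subset_card_eq (s := D) (n := j + 1) (by omega)
      obtain ⟨v, hv, hv2⟩ := h U hU hUc
      have := Finset.card_le_card hv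
      omega
    have hcover : Finset.powersetCard (j + 1) D ⊆ (Finset.univ.filter (fun v : V =>
        2 ≤ (S v).card ∧ S v ⊆ D)).biUnion
        (fun v => (Finset.powersetCard (j + 1) D).filter (fun U => S v ⊆ U)) := by
      intro U hU
      rw [Finset.mem_powersetCard] at hU
      obtain ⟨v, hv, hv2⟩ := h U hU.1 hU.2
      rw [Finset.mem_biUnion]
      refine ⟨v, by simp [hv2, hv.trans hU.1], ?_⟩
      rw [Finset.mem_filter, Finset.mem_powersetCard]
      exact ⟨hU, hv⟩
    have hone : ∀ v ∈ (Finset.univ.filter (fun v : V => 2 ≤ (S v).card ∧ S v ⊆ D)),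
        ((Finset.powersetCard (j + 1) D).filter (fun U => S v ⊆ U)).card ≤
          (D.card - 2).choose (j - 1) := by
      intro v hv
      rw [Finset.mem_filter] at hv
      obtain ⟨_, hv2, hvD⟩ := hv
      obtain ⟨T, hT, hTc⟩ := Finset.exists_subset_card_eq hv2
      have hTD : T ⊆ D := hT.trans hvD
      have h1 := Finset.card_le_card_of_injOn
        (s := (Finset.powersetCard (j + 1) D).filter (fun U => S v ⊆ U))
        (t := Finset.powersetCard (j - 1) (D \ T)) (fun U => U \ T) ?_ ?_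
      · rw [Finset.card_powersetCard, Finset.card_sdiff_of_subset hTD, hTc] at h1
        exact h1
      · intro U hU
        rw [Finset.mem_coe, Finset.mem_filter, Finset.mem_powersetCard] at hU
        rw [Finset.mem_coe, Finset.mem_powersetCard]
        refine ⟨Finset.sdiff_subset_sdiff hU.1.1 (le_refl _), ?_⟩
        have hTU : T ⊆ U := hT.trans hU.2
        rw [Finset.card_sdiff_of_subset hTU, hU.1.2, hTc]
        omega
      · intro U hU U' hU' heq
        rw [Finset.mem_coe, Finset.mem_filter, Finset.mem_powersetCard] at hU hU'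
        have hTU : T ⊆ U := hT.trans hU.2
        have hTU' : T ⊆ U' := hT.trans hU'.2
        simp only at heq
        rw [← Finset.sdiff_union_of_subset hTU, ← Finset.sdiff_union_of_subset hTU', heq]
    have h2 := Finset.card_le_card hcover
    have h3 := Finset.card_biUnion_le_card_mul _ _ _ hone
    rw [Finset.card_powersetCard] at h2
    have h4 : (Finset.univ.filter (fun v : V => 2 ≤ (S v).card ∧ S v ⊆ D)).card ≤
        Fintype.card V := Finset.card_le_univ _
    have h5 : D.card.choose (j + 1) ≤ Fintype.card V * (D.card - 2).choose (j - 1) :=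
      (h2.trans h3).trans (Nat.mul_le_mul_right _ h4)
    -- C(d, j+1) (j+1) j = d (d-1) C(d-2, j-1)
    obtain ⟨d, hd'⟩ : ∃ d, D.card = d + 2 := ⟨D.card - 2, by omega⟩
    obtain ⟨i, hi⟩ : ∃ i, j = i + 1 := ⟨j - 1, by omega⟩
    rw [hd'] at h5 hd ⊢
    subst hi
    simp only [Nat.add_sub_cancel] at h5 ⊢
    have e1 : (d + 2).choose (i + 1 + 1) * (i + 1 + 1) = (d + 2) * (d + 1).choose (i + 1) := by
      have := Nat.add_one_mul_choose_eq (d + 1) (i + 1)
      linarith
    have e2 : (d + 1).choose (i + 1) * (i + 1) = (d + 1) * d.choose i := by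
      have := Nat.add_one_mul_choose_eq d i
      linarith
    have hpos : 0 < d.choose i := Nat.choose_pos (by omega)
    have h6 : (d + 2) * (d + 1) * d.choose i ≤
        Fintype.card V * ((i + 1 + 1) * (i + 1)) * d.choose i := by
      calc (d + 2) * (d + 1) * d.choose i = (d + 2) * ((d + 1) * d.choose i) := by ring
        _ = (d + 2) * ((d + 1).choose (i + 1) * (i + 1)) := by rw [e2]
        _ = ((d + 2) * (d + 1).choose (i + 1)) * (i + 1) := by ring
        _ = (d + 2).choose (i + 1 + 1) * (i + 1 + 1) * (i + 1) := by rw [e1]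
        _ = (d + 2).choose (i + 1 + 1) * ((i + 1 + 1) * (i + 1)) := by ring
        _ ≤ (Fintype.card V * d.choose i) * ((i + 1 + 1) * (i + 1)) :=
            Nat.mul_le_mul_right _ h5
        _ = _ := by ring
    have h7 := Nat.le_of_mul_le_mul_right h6 hpos
    have e3 : d + 2 - 1 = d + 1 := by omega
    rw [e3]
    exact h7

lemma dset_card_bound {k : ℕ} {G : SimpleGraph V} {X R : Finset V} (h : IsKMinimal k G X)
    (hR : R.card + 1 ≤ k) (hV : 1 ≤ Fintype.card V) :
    (dset G X R).card * ((dset G X R).card - 1) ≤ Fintype.card V * (k * k) := by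
  have h1 := card_bound_of_hits (supp G X) (dset G X R) R.card hV
    (fun U hU hUc => exists_supp_subset h hR hU hUc)
  refine h1.trans (Nat.mul_le_mul_left _ ?_)
  exact Nat.mul_le_mul hR (by omega)

/-- Real form of the bound. -/
lemma dset_card_le {k : ℕ} {G : SimpleGraph V} {X R : Finset V} (h : IsKMinimal k G X)
    (hR : R.card + 1 ≤ k) (hV : 1 ≤ Fintype.card V) :
    ((dset G X R).card : ℝ) ≤ k * Real.sqrt (Fintype.card V) + 1 := by
  have h1 := dset_card_bound h hR hV
  set d := (dset G X R).card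
  rcases Nat.eq_zero_or_pos d with hd | hd
  · rw [hd]
    have := Real.sqrt_nonneg (Fintype.card V : ℝ)
    push_cast
    positivity
  · have h2 : (((d - 1 : ℕ)) : ℝ) ^ 2 ≤ (k * Real.sqrt (Fintype.card V)) ^ 2 := by
      rw [mul_pow, Real.sq_sqrt (by positivity)]
      have h3 : (d - 1) * (d - 1) ≤ Fintype.card V * (k * k) :=
        (Nat.mul_le_mul_right _ (by omega)).trans h1
      have h4 : (((d - 1) * (d - 1) : ℕ) : ℝ) ≤ ((Fintype.card V * (k * k) : ℕ) : ℝ) := by
        exact_mod_cast h3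
      push_cast at h4 ⊢
      nlinarith
    have h5 : ((d - 1 : ℕ) : ℝ) ≤ k * Real.sqrt (Fintype.card V) :=
      abs_le_of_sq_le_sq' h2 (by positivity) |>.2
    have h6 : (d : ℝ) = ((d - 1 : ℕ) : ℝ) + 1 := by
      have : d = (d - 1) + 1 := by omega
      exact_mod_cast this
    rw [h6]
    linarith

end priv

end Pool.Agent.KMinDom
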