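import Mathlib
import Pool.Agent.KMinDom.Basic

namespace Pool.Agent.KMinDom

open Finset

set_option linter.unusedSectionVars false

/-! ### transfer to a larger vertex set -/

section transfer

variable {V W : Type} [Fintype V] [DecidableEq V] [Fintype W] [DecidableEq W]

lemma transfer (k : ℕ) (G : SimpleGraph W) (G' : SimpleGraph V) (π : V → W) (ι : W → V)
    (hπι : ∀ w, π (ι w) = w) (w0 : W) (hfib : ∀ v, v = ι (π v) ∨ π v = w0)
    (h1 : ∀ u v, G'.Adj u v → π u = π v ∨ G.Adj (π u) (π v))
    (h2 : ∀ u v, u ≠ v → G.Adj (π u) (π v) → G'.Adj u v)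
    (X : Finset W) (hw0 : w0 ∉ X) (hX : IsKMinimal k G X) :
    IsKMinimal k G' (X.image ι) := by
  have hinj : ∀ x ∈ X.image ι, ∀ y ∈ X.image ι, π x = π y → x = y := by
    intro x hx y hy hxy
    rw [mem_image] at hx hy
    obtain ⟨a, _, rfl⟩ := hx
    obtain ⟨b, _, rfl⟩ := hy
    rw [hπι, hπι] at hxy
    rw [hxy]
  constructor
  · intro v hv
    have hvX : π v ∉ X := by
      intro hmem
      rcases hfib v with h | h
      · exact hv (mem_image.mpr ⟨π v, hmem, h.symm⟩)
      · rw [h] at hmem
        exact hw0 hmem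
    obtain ⟨x, hx, hadj⟩ := hX.1 (π v) hvX
    refine ⟨ι x, mem_image_of_mem ι hx, h2 _ _ ?_ ?_⟩
    · rintro rfl
      exact hv (mem_image_of_mem ι hx)
    · rw [hπι]
      exact hadj
  · intro l hl1 hlk U hU hUc R hRc hdom
    have hUX : U.image π ⊆ X := by
      intro w hw
      rw [mem_image] at hw
      obtain ⟨u, hu, rfl⟩ := hw
      obtain ⟨x, hx, rfl⟩ := mem_image.mp (hU hu)
      rw [hπι]
      exact hx
    have hUcard : (U.image π).card = l := by
      rw [card_image_of_injOn, hUc]
      intro x hx y hy hxy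
      exact hinj x (hU hx) y (hU hy) hxy
    have hRcard : (R.image π).card ≤ l - 1 := by
      rw [← hRc]
      exact card_image_le
    have hlW : l - 1 ≤ (Finset.univ : Finset W).card := by
      have h3 := Finset.card_le_univ (U.image π)
      rw [Finset.card_univ]
      omega
    obtain ⟨R2, hR2, _, hR2c⟩ := Finset.exists_subsuperset_card_eq
      (Finset.subset_univ (R.image π)) hRcard hlW
    refine hX.2 l hl1 hlk (U.image π) hUX hUcard R2 hR2c ?_
    rw [dominating_iff] at hdom ⊢
    intro w
    obtain ⟨z, hz, hzd⟩ := hdom (ι w)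
    refine ⟨π z, ?_, ?_⟩
    · rw [mem_union] at hz ⊢
      rcases hz with hz | hz
      · left
        rw [mem_sdiff] at hz ⊢
        constructor
        · obtain ⟨x, hx, rfl⟩ := mem_image.mp hz.1
          rw [hπι]
          exact hx
        · intro hmem
          obtain ⟨u, hu, huz⟩ := mem_image.mp hmem
          have := hinj u (hU hu) z hz.1 huz
          rw [this] at hu
          exact hz.2 hu
      · right
        exact hR2 (mem_image_of_mem π hz)
    · rcases hzd with h3 | h3
      · left
        rw [h3, hπι]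
      · rcases h1 _ _ h3 with h4 | h4
        · left
          rw [hπι] at h4
          exact h4.symm
        · right
          rw [hπι] at h4
          exact h4

/-- Transfer of a pair `(X, Y)` from a graph on `W` to a graph on `Fin n`. -/
lemma transfer_pair (k n : ℕ) (G : SimpleGraph W) (X Y : Finset W) (w0 : W) (hX0 : w0 ∉ X)
    (hY0 : w0 ∉ Y) (hX : IsKMinimal k G X) (hY : IsKMinimal k Gᶜ Y) (hn : Fintype.card W ≤ n) :
    X.card * Y.card ≤ g n k := by
  classical
  have hemb : Nonempty (W ↪ Fin n) := by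
    rw [Function.Embedding.nonempty_iff_card_le, Fintype.card_fin]
    exact hn
  obtain ⟨ι⟩ := hemb
  let π : Fin n → W := fun v => if h : ∃ w, ι w = v then h.choose else w0
  have hπι : ∀ w, π (ι w) = w := by
    intro w
    have h : ∃ w', ι w' = ι w := ⟨w, rfl⟩
    simp only [π, dif_pos h]
    exact ι.injective h.choose_spec
  have hfib : ∀ v, v = ι (π v) ∨ π v = w0 := by
    intro v
    by_cases h : ∃ w, ι w = v
    · left
      simp only [π, dif_pos h]
      exact h.choose_spec.symm
    · right
      simp only [π, dif_neg h]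
  have h1 := transfer k G (G.comap π) π ι hπι w0 hfib (fun u v h => Or.inr h)
    (fun u v _ h => h) X hX0 hX
  have h2 := transfer k Gᶜ (G.comap π)ᶜ π ι hπι w0 hfib (fun u v h => by
      rw [SimpleGraph.compl_adj] at h
      by_cases he : π u = π v
      · exact Or.inl he
      · right
        rw [SimpleGraph.compl_adj]
        exact ⟨he, h.2⟩) (fun u v hne h => by
      rw [SimpleGraph.compl_adj] at h ⊢
      exact ⟨hne, h.2⟩) Y hY0 hY
  have h3 := card_mul_card_le_g h1 h2
  rwa [card_image_of_injective _ ι.injective, card_image_of_injective _ ι.injective] at h3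

end transfer

/-! ### the construction -/

section construction

variable {N m : ℕ} (β : Fin m → Fin m → Bool) (z : Fin m)

/-- the matrix used between blocks with the same index -/
def diagB (c d : Fin m) : Bool :=
  if c = z then (if d = z then !(β z z) else true) else false

/-- star relation inside a block -/
def star (c c' : Fin m) : Prop := (c = z ∧ c' ≠ z) ∨ (c ≠ z ∧ c' = z)

lemma star_symm {c c' : Fin m} (h : star z c c') : star z c' c := by
  rcases h with ⟨h1, h2⟩ | ⟨h1, h2⟩
  · exact Or.inr ⟨h2, h1⟩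
  · exact Or.inl ⟨h2, h1⟩

/-- adjacency relation (up to irreflexivity) -/
def rel : ((Fin N × Fin m) ⊕ (Fin N × Fin m)) → ((Fin N × Fin m) ⊕ (Fin N × Fin m)) → Prop
  | Sum.inl (i, c), Sum.inl (i', c') => i = i' ∧ star z c c'
  | Sum.inr (i, c), Sum.inr (i', c') => ¬ (i = i' ∧ star z c c')
  | Sum.inl (i, c), Sum.inr (j, d) => (if i = j then diagB β z c d else β c d) = true
  | Sum.inr (j, d), Sum.inl (i, c) => (if i = j then diagB β z c d else β c d) = true

lemma rel_symm {u v : (Fin N × Fin m) ⊕ (Fin N × Fin m)} (h : rel β z u v) : rel β z v u := by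
  rcases u with ⟨i, c⟩ | ⟨i, c⟩ <;> rcases v with ⟨i', c'⟩ | ⟨i', c'⟩
  · exact ⟨h.1.symm, star_symm z h.2⟩
  · exact h
  · exact h
  · intro h'
    exact h ⟨h'.1.symm, star_symm z h'.2⟩

/-- the graph of the construction -/
def blowup (N : ℕ) : SimpleGraph ((Fin N × Fin m) ⊕ (Fin N × Fin m)) where
  Adj u v := u ≠ v ∧ rel β z u v
  symm := ⟨fun _ _ h => ⟨h.1.symm, rel_symm β z h.2⟩⟩
  loopless := ⟨fun _ h => h.1 rfl⟩

/-- index of a vertex -/
def idx : ((Fin N × Fin m) ⊕ (Fin N × Fin m)) → Fin N
  | Sum.inl (i, _) => i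
  | Sum.inr (i, _) => i

/-- class of a vertex -/
def cls : ((Fin N × Fin m) ⊕ (Fin N × Fin m)) → Fin m
  | Sum.inl (_, c) => c
  | Sum.inr (_, c) => c

/-- the set `X` -/
def setX (N : ℕ) : Finset ((Fin N × Fin m) ⊕ (Fin N × Fin m)) :=
  Finset.univ.image (fun i : Fin N => Sum.inl (i, z))

/-- the set `Y` -/
def setY (N : ℕ) : Finset ((Fin N × Fin m) ⊕ (Fin N × Fin m)) :=
  Finset.univ.image (fun i : Fin N => Sum.inr (i, z))

lemma card_setX (N : ℕ) : (setX z N).card = N := by
  unfold setX
  rw [card_image_of_injective, Finset.card_univ, Fintype.card_fin]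
  intro i j h
  simpa using h

lemma card_setY (N : ℕ) : (setY z N).card = N := by
  unfold setY
  rw [card_image_of_injective, Finset.card_univ, Fintype.card_fin]
  intro i j h
  simpa using h

lemma mem_setX {v : (Fin N × Fin m) ⊕ (Fin N × Fin m)} :
    v ∈ setX z N ↔ ∃ i, Sum.inl (i, z) = v := by
  simp [setX]

lemma mem_setY {v : (Fin N × Fin m) ⊕ (Fin N × Fin m)} :
    v ∈ setY z N ↔ ∃ i, Sum.inr (i, z) = v := by
  simp [setY]

/-- choice of an untouched index -/
lemma exists_free_index (S U R : Finset ((Fin N × Fin m) ⊕ (Fin N × Fin m)))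
    (hS : ∀ u ∈ S, ∀ v ∈ S, idx u = idx v → u = v) (hU : U ⊆ S) (h : R.card < U.card) :
    ∃ u ∈ U, ∀ r ∈ R, idx r ≠ idx u := by
  have h1 : (U.image idx).card = U.card := by
    apply card_image_of_injOn
    intro x hx y hy hxy
    exact hS x (hU hx) y (hU hy) hxy
  have h2 : (R.image idx).card ≤ R.card := card_image_le
  have h3 : ¬ (U.image idx ⊆ R.image idx) := by
    intro hsub
    have := card_le_card hsub
    omega
  rw [Finset.not_subset] at h3
  obtain ⟨i, hi, hi'⟩ := h3
  obtain ⟨u, hu, rfl⟩ := mem_image.mp hi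
  refine ⟨u, hu, fun r hr heq => hi' ?_⟩
  rw [← heq]
  exact mem_image_of_mem idx hr

lemma X_kMinimal (k : ℕ) (hN : 2 ≤ N)
    (hβ : ∀ C : Finset (Fin m), C.card + 1 ≤ k → ∃ c, ∀ d ∈ C, β c d = false) :
    IsKMinimal k (blowup β z N) (setX z N) := by
  have hother : ∀ j : Fin N, ∃ i : Fin N, i ≠ j := by
    intro j
    have : Nontrivial (Fin N) := Fin.nontrivial_iff_two_le.mpr hN
    exact exists_ne j
  constructor
  · rw [dominating_iff]
    rintro (⟨i, c⟩ | ⟨j, d⟩)
    · by_cases hc : c = z
      · exact ⟨Sum.inl (i, c), (mem_setX z).mpr ⟨i, by rw [hc]⟩, Or.inl rfl⟩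
      · refine ⟨Sum.inl (i, z), (mem_setX z).mpr ⟨i, rfl⟩, Or.inr ⟨?_, ?_⟩⟩
        · intro h
          simp only [Sum.inl.injEq, Prod.mk.injEq] at h
          exact hc h.2
        · exact ⟨rfl, Or.inr ⟨hc, rfl⟩⟩
    · by_cases hb : β z d = true
      · obtain ⟨i, hi⟩ := hother j
        refine ⟨Sum.inl (i, z), (mem_setX z).mpr ⟨i, rfl⟩, Or.inr ⟨by simp, ?_⟩⟩
        show (if i = j then diagB β z z d else β z d) = true
        rw [if_neg hi]
        exact hb
      · refine ⟨Sum.inl (j, z), (mem_setX z).mpr ⟨j, rfl⟩, Or.inr ⟨by simp, ?_⟩⟩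
        show (if j = j then diagB β z z d else β z d) = true
        rw [if_pos rfl, diagB, if_pos rfl]
        by_cases hd : d = z
        · rw [if_pos hd]
          rw [hd] at hb
          simpa using hb
        · rw [if_neg hd]
  · intro l hl1 hlk U hU hUc R hRc hdom
    have hinj : ∀ u ∈ setX z N, ∀ v ∈ setX z N, idx u = idx v → u = v := by
      intro u hu v hv huv
      obtain ⟨i, rfl⟩ := (mem_setX z).mp hu
      obtain ⟨j, rfl⟩ := (mem_setX z).mp hv
      have : i = j := huv
      rw [this]
    obtain ⟨u, hu, hfree⟩ := exists_free_index (setX z N) U R hinj hU (by omega)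
    obtain ⟨i, rfl⟩ := (mem_setX z).mp (hU hu)
    rw [dominating_iff] at hdom
    obtain ⟨c, hc⟩ := hβ (R.image cls) (by
      have : (R.image cls).card ≤ R.card := card_image_le
      omega)
    obtain ⟨r, hr, hrd⟩ := hdom (Sum.inl (i, c))
    rw [mem_union] at hr
    rcases hr with hr | hr
    · rw [mem_sdiff] at hr
      obtain ⟨i', rfl⟩ := (mem_setX z).mp hr.1
      have hii : i' = i := by
        rcases hrd with h | h
        · simp only [Sum.inl.injEq, Prod.mk.injEq] at h
          exact h.1
        · exact h.2.1.symm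
      rw [hii] at hr
      exact hr.2 hu
    · have hri := hfree r hr
      rcases r with ⟨i', c'⟩ | ⟨j, d⟩
      · have hii : i' = i := by
          rcases hrd with h | h
          · simp only [Sum.inl.injEq, Prod.mk.injEq] at h
            exact h.1
          · exact h.2.1.symm
        exact hri hii
      · rcases hrd with h | h
        · exact absurd h (by simp)
        · have h1 : (if i = j then diagB β z c d else β c d) = true := h.2
          have hij : i ≠ j := fun h' => hri h'.symm
          rw [if_neg hij] at h1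
          have h2 := hc d (mem_image.mpr ⟨Sum.inr (j, d), hr, rfl⟩)
          rw [h2] at h1
          exact absurd h1 (by simp)

lemma Y_kMinimal (k : ℕ) (hN : 2 ≤ N)
    (hβ : ∀ R : Finset (Fin m), R.card + 1 ≤ k → ∃ d, ∀ c ∈ R, β c d = true) :
    IsKMinimal k (blowup β z N)ᶜ (setY z N) := by
  have hother : ∀ j : Fin N, ∃ i : Fin N, i ≠ j := by
    intro j
    have : Nontrivial (Fin N) := Fin.nontrivial_iff_two_le.mpr hN
    exact exists_ne j
  constructor
  · rw [dominating_iff]
    rintro (⟨i, c⟩ | ⟨j, d⟩)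
    · by_cases hb : β c z = true
      · refine ⟨Sum.inr (i, z), (mem_setY z).mpr ⟨i, rfl⟩, Or.inr ?_⟩
        rw [SimpleGraph.compl_adj]
        refine ⟨by simp, fun h => ?_⟩
        have h1 : (if i = i then diagB β z c z else β c z) = true := h.2
        rw [if_pos rfl, diagB] at h1
        by_cases hc : c = z
        · rw [if_pos hc, if_pos rfl] at h1
          rw [hc] at hb
          rw [hb] at h1
          exact absurd h1 (by simp)
        · rw [if_neg hc] at h1
          exact absurd h1 (by simp)
      · obtain ⟨j, hj⟩ := hother i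
        refine ⟨Sum.inr (j, z), (mem_setY z).mpr ⟨j, rfl⟩, Or.inr ?_⟩
        rw [SimpleGraph.compl_adj]
        refine ⟨by simp, fun h => ?_⟩
        have h1 : (if i = j then diagB β z c z else β c z) = true := h.2
        rw [if_neg (Ne.symm hj)] at h1
        exact hb h1
    · by_cases hd : d = z
      · exact ⟨Sum.inr (j, d), (mem_setY z).mpr ⟨j, by rw [hd]⟩, Or.inl rfl⟩
      · refine ⟨Sum.inr (j, z), (mem_setY z).mpr ⟨j, rfl⟩, Or.inr ?_⟩
        rw [SimpleGraph.compl_adj]
        constructor
        · intro h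
          simp only [Sum.inr.injEq, Prod.mk.injEq] at h
          exact hd h.2
        · intro h
          exact h.2 ⟨rfl, Or.inr ⟨hd, rfl⟩⟩
  · intro l hl1 hlk U hU hUc R hRc hdom
    have hinj : ∀ u ∈ setY z N, ∀ v ∈ setY z N, idx u = idx v → u = v := by
      intro u hu v hv huv
      obtain ⟨i, rfl⟩ := (mem_setY z).mp hu
      obtain ⟨j, rfl⟩ := (mem_setY z).mp hv
      have : i = j := huv
      rw [this]
    obtain ⟨u, hu, hfree⟩ := exists_free_index (setY z N) U R hinj hU (by omega)
    obtain ⟨j, rfl⟩ := (mem_setY z).mp (hU hu)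
    rw [dominating_iff] at hdom
    obtain ⟨d, hd⟩ := hβ (R.image cls) (by
      have : (R.image cls).card ≤ R.card := card_image_le
      omega)
    obtain ⟨r, hr, hrd⟩ := hdom (Sum.inr (j, d))
    rw [mem_union] at hr
    have hcol : ∀ (j' : Fin N) (d' : Fin m),
        (Sum.inr (j', d') = (Sum.inr (j, d) : (Fin N × Fin m) ⊕ (Fin N × Fin m)) ∨
          (blowup β z N)ᶜ.Adj (Sum.inr (j, d)) (Sum.inr (j', d'))) → j' = j := by
      intro j' d' h
      rcases h with h | h
      · simp only [Sum.inr.injEq, Prod.mk.injEq] at h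
        exact h.1
      · rw [SimpleGraph.compl_adj] at h
        by_contra hne
        apply h.2
        exact ⟨h.1, fun h' => hne h'.1.symm⟩
    rcases hr with hr | hr
    · rw [mem_sdiff] at hr
      obtain ⟨j', rfl⟩ := (mem_setY z).mp hr.1
      rw [hcol j' z hrd] at hr
      exact hr.2 hu
    · have hri := hfree r hr
      rcases r with ⟨i, c⟩ | ⟨j', d'⟩
      · rcases hrd with h | h
        · exact absurd h (by simp)
        · rw [SimpleGraph.compl_adj] at h
          apply h.2
          refine ⟨by simp, ?_⟩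
          show (if i = j then diagB β z c d else β c d) = true
          have hri' : i ≠ j := hri
          rw [if_neg hri']
          exact hd c (mem_image.mpr ⟨Sum.inl (i, c), hr, rfl⟩)
      · exact hri (hcol j' d' hrd)

/-- Lower bound from a matrix. -/
lemma lower_of_matrix (k : ℕ) (hm : 2 ≤ m)
    (h1 : ∀ C : Finset (Fin m), C.card + 1 ≤ k → ∃ c, ∀ d ∈ C, β c d = false)
    (h2 : ∀ R : Finset (Fin m), R.card + 1 ≤ k → ∃ d, ∀ c ∈ R, β c d = true) (n : ℕ) :
    (n / (2 * m)) ^ 2 ≤ g n k := by
  rcases Nat.lt_or_ge (n / (2 * m)) 2 with hN | hN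
  · rcases Nat.eq_zero_or_pos (n / (2 * m)) with h | h
    · rw [h]
      simp
    · have h3 : n / (2 * m) = 1 := by omega
      rw [h3, one_pow]
      apply one_le_g
      by_contra hn
      have : n = 0 := by omega
      rw [this] at h
      simp at h
  · set N := n / (2 * m) with hNdef
    let z : Fin m := ⟨0, by omega⟩
    let z' : Fin m := ⟨1, by omega⟩
    have hzz : z' ≠ z := by
      intro h
      simp [z, z'] at h
    let i0 : Fin N := ⟨0, by omega⟩
    have hX := X_kMinimal (N := N) β z k hN h1
    have hY := Y_kMinimal (N := N) β z k hN h2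
    have h3 := transfer_pair k n (blowup β z N) (setX z N) (setY z N) (Sum.inl (i0, z'))
      (by
        rw [mem_setX]
        rintro ⟨i, hi⟩
        simp only [Sum.inl.injEq, Prod.mk.injEq] at hi
        exact hzz hi.2.symm)
      (by
        rw [mem_setY]
        rintro ⟨i, hi⟩
        simp at hi) hX hY (by
        simp only [Fintype.card_sum, Fintype.card_prod, Fintype.card_fin]
        have h4 : 2 * m * (n / (2 * m)) ≤ n := Nat.mul_div_le n (2 * m)
        have h5 : N * m + N * m = 2 * m * N := by ring
        rw [h5]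
        exact h4)
    rw [card_setX, card_setY] at h3
    rw [pow_two]
    exact h3

end construction

end Pool.Agent.KMinDom
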