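import Mathlib

namespace Pool.Agent.KMinDom

open Finset

lemma card_zero_on (m : ℕ) (C : Finset (Fin m)) :
    (Finset.univ.filter (fun f : Fin m → Bool => ∀ d ∈ C, f d = false)).card =
      2 ^ (m - C.card) := by
  classical
  have h : (Finset.univ.filter (fun f : Fin m → Bool => ∀ d ∈ C, f d = false)) =
      Fintype.piFinset (fun d => if d ∈ C then ({false} : Finset Bool) else Finset.univ) := by
    ext f
    simp only [mem_filter, mem_univ, true_and, Fintype.mem_piFinset]
    constructor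
    · intro h d
      by_cases hd : d ∈ C
      · rw [if_pos hd, mem_singleton]
        exact h d hd
      · rw [if_neg hd]
        exact mem_univ _
    · intro h d hd
      have := h d
      rw [if_pos hd, mem_singleton] at this
      exact this
  rw [h, Fintype.card_piFinset]
  have h1 : ∀ d : Fin m, (if d ∈ C then ({false} : Finset Bool) else Finset.univ).card =
      if d ∈ C then 1 else 2 := by
    intro d
    by_cases hd : d ∈ C
    · simp [hd]
    · simp [hd]
  rw [Finset.prod_congr rfl (fun d _ => h1 d), Finset.prod_ite, Finset.prod_const_one, one_mul,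
    Finset.prod_const]
  congr 1
  have h2 : (Finset.univ.filter (fun d : Fin m => d ∉ C)).card = m - C.card := by
    have := Finset.card_compl C
    rw [Fintype.card_fin] at this
    rw [← this]
    congr 1
    ext d
    simp
  exact h2

/-- matrices without a zero row on `C` -/
def badCol (m : ℕ) (C : Finset (Fin m)) : Finset (Fin m → Fin m → Bool) :=
  Finset.univ.filter (fun β => ∀ c, ∃ d ∈ C, β c d = true)

/-- matrices without a one column on `R` -/
def badRow (m : ℕ) (R : Finset (Fin m)) : Finset (Fin m → Fin m → Bool) :=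
  Finset.univ.filter (fun β => ∀ d, ∃ c ∈ R, β c d = false)

lemma card_badCol (m : ℕ) (C : Finset (Fin m)) :
    (badCol m C).card = (2 ^ m - 2 ^ (m - C.card)) ^ m := by
  classical
  have h : badCol m C = Fintype.piFinset (fun _ : Fin m =>
      (Finset.univ.filter (fun f : Fin m → Bool => ∀ d ∈ C, f d = false))ᶜ) := by
    ext β
    simp only [badCol, mem_filter, mem_univ, true_and, Fintype.mem_piFinset, mem_compl]
    constructor
    · intro h c hc
      obtain ⟨d, hd, hd'⟩ := h c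
      rw [hc d hd] at hd'
      exact absurd hd' (by simp)
    · intro h c
      by_contra hcon
      push Not at hcon
      apply h c
      intro d hd
      exact Bool.eq_false_iff.mpr (hcon d hd)
  rw [h, Fintype.card_piFinset, Finset.prod_const, Finset.card_univ, Fintype.card_fin,
    Finset.card_compl, card_zero_on]
  simp

lemma card_badRow (m : ℕ) (R : Finset (Fin m)) :
    (badRow m R).card ≤ (2 ^ m - 2 ^ (m - R.card)) ^ m := by
  classical
  rw [← card_badCol]
  apply Finset.card_le_card_of_injOn (fun β => fun d c => !(β c d))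
  · intro β hβ
    simp only [badRow, badCol, coe_filter, mem_univ, true_and, Set.mem_ofPred_eq] at hβ ⊢
    intro d
    obtain ⟨c, hc, hc'⟩ := hβ d
    exact ⟨c, hc, by simp [hc']⟩
  · intro β _ β' _ h
    funext c d
    have := congrFun (congrFun h d) c
    simpa using this

/-- numerical inequality behind the counting -/
lemma numeric (k : ℕ) (hk : 1 ≤ k) :
    2 * (Nat.choose (k ^ 2 * 2 ^ k) (k - 1)) *
      (2 ^ (k ^ 2 * 2 ^ k) - 2 ^ (k ^ 2 * 2 ^ k - (k - 1))) ^ (k ^ 2 * 2 ^ k) <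
      (2 ^ (k ^ 2 * 2 ^ k)) ^ (k ^ 2 * 2 ^ k) := by
  set m := k ^ 2 * 2 ^ k with hm
  set j := k - 1 with hj
  have hkj : k = j + 1 := by omega
  have hjm : j ≤ m := by
    have h1 : k < 2 ^ k := Nat.lt_two_pow_self
    have h2 : 1 ≤ k ^ 2 := Nat.one_le_pow _ _ hk
    calc j ≤ 2 ^ k := by omega
      _ = 1 * 2 ^ k := by ring
      _ ≤ m := Nat.mul_le_mul_right _ h2
  -- 2^m - 2^(m-j) = 2^(m-j) (2^j - 1)
  have e1 : (2 : ℕ) ^ m = 2 ^ (m - j) * 2 ^ j := by
    rw [← pow_add]
    congr 1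
    omega
  have e2 : (2 : ℕ) ^ m - 2 ^ (m - j) = 2 ^ (m - j) * (2 ^ j - 1) := by
    rw [e1, Nat.mul_sub, mul_one]
  -- (2^j - 1)^(2^j) * 2 ≤ (2^j)^(2^j)
  have e3 : (2 ^ j - 1) ^ (2 ^ j) * 2 ≤ (2 ^ j) ^ (2 ^ j) := by
    set M := 2 ^ j with hM
    have hMpos : 1 ≤ M := Nat.one_le_two_pow
    obtain ⟨P, hP⟩ : ∃ P, M = P + 1 := ⟨M - 1, by omega⟩
    rw [hP, Nat.add_sub_cancel]
    -- P^(P+1) * 2 ≤ (P+1)^(P+1)
    have h1 : P ^ (P + 1) + (P + 1) * P ^ P ≤ (P + 1) ^ (P + 1) := by
      have h2 := add_pow (P : ℕ) 1 (P + 1)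
      rw [h2]
      have h3 : ({P, P + 1} : Finset ℕ) ⊆ Finset.range (P + 1 + 1) := by
        intro x hx
        simp only [mem_insert, mem_singleton] at hx
        simp only [mem_range]
        omega
      refine le_trans ?_ (Finset.sum_le_sum_of_subset h3)
      rw [Finset.sum_pair (by omega)]
      simp only [one_pow, mul_one, Nat.choose_self, Nat.choose_succ_self_right]
      apply le_of_eq
      push_cast
      ring
    have h4 : P ^ (P + 1) ≤ (P + 1) * P ^ P := by
      rw [pow_succ, mul_comm]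
      exact Nat.mul_le_mul_right _ (by omega)
    omega
  -- m = 2 k^2 * 2^j
  have e4 : m = 2 ^ j * (2 * k ^ 2) := by
    rw [hm, hkj]
    rw [pow_succ 2 j]
    ring
  have e5 : (2 ^ j - 1) ^ m * 2 ^ (2 * k ^ 2) ≤ (2 ^ j) ^ m := by
    calc (2 ^ j - 1) ^ m * 2 ^ (2 * k ^ 2)
        = ((2 ^ j - 1) ^ (2 ^ j) * 2) ^ (2 * k ^ 2) := by
          rw [mul_pow, ← pow_mul, ← e4]
      _ ≤ ((2 ^ j) ^ (2 ^ j)) ^ (2 * k ^ 2) := Nat.pow_le_pow_left e3 _
      _ = (2 ^ j) ^ m := by rw [← pow_mul, ← e4]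
  -- 2 * C(m, j) < 2^(2k^2)
  have hk2 : k ^ 2 ≤ 2 ^ (k + 1) := by
    have h5 : ∀ t : ℕ, t ^ 2 ≤ 2 ^ (t + 1) := by
      intro t
      induction t using Nat.strong_induction_on with
      | _ t ih =>
        rcases Nat.lt_or_ge t 4 with ht | ht
        · interval_cases t <;> norm_num
        · have h6 := ih (t - 1) (by omega)
          obtain ⟨u, rfl⟩ : ∃ u, t = u + 1 := ⟨t - 1, by omega⟩
          simp only [Nat.add_sub_cancel] at h6
          have h7 : (u + 1) ^ 2 ≤ 2 * u ^ 2 := by nlinarith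
          calc (u + 1) ^ 2 ≤ 2 * u ^ 2 := h7
            _ ≤ 2 * 2 ^ (u + 1) := Nat.mul_le_mul_left _ h6
            _ = 2 ^ (u + 1 + 1) := by rw [pow_succ 2 (u + 1)]; ring
    exact h5 k
  have hmle : m ≤ 2 ^ (2 * k + 1) := by
    calc m = k ^ 2 * 2 ^ k := hm
      _ ≤ 2 ^ (k + 1) * 2 ^ k := Nat.mul_le_mul_right _ hk2
      _ = 2 ^ (2 * k + 1) := by rw [← pow_add]; congr 1; omega
  have e6 : 2 * Nat.choose m j < 2 ^ (2 * k ^ 2) := by
    have h8 : Nat.choose m j ≤ m ^ j := Nat.choose_le_pow m j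
    have h9 : m ^ j ≤ 2 ^ ((2 * k + 1) * j) := by
      rw [pow_mul]
      exact Nat.pow_le_pow_left hmle j
    have h10 : 2 * Nat.choose m j ≤ 2 ^ ((2 * k + 1) * j + 1) := by
      rw [pow_succ]
      omega
    refine lt_of_le_of_lt h10 (Nat.pow_lt_pow_right (by norm_num) ?_)
    rw [hkj]
    nlinarith
  have hpos : 0 < (2 ^ j) ^ m := by positivity
  rw [e2, mul_pow]
  have e7 : (2 ^ m) ^ m = (2 ^ (m - j)) ^ m * (2 ^ j) ^ m := by
    rw [← mul_pow, ← e1]
  rw [e7]
  have hpos2 : 0 < (2 ^ (m - j)) ^ m := by positivity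
  have e8 : 2 * Nat.choose m j * (2 ^ j - 1) ^ m < (2 ^ j) ^ m := by
    rcases Nat.eq_zero_or_pos ((2 ^ j - 1) ^ m) with h0 | h0
    · rw [h0, mul_zero]
      exact hpos
    · calc 2 * Nat.choose m j * (2 ^ j - 1) ^ m < 2 ^ (2 * k ^ 2) * (2 ^ j - 1) ^ m :=
          Nat.mul_lt_mul_of_pos_right e6 h0
        _ = (2 ^ j - 1) ^ m * 2 ^ (2 * k ^ 2) := by ring
        _ ≤ (2 ^ j) ^ m := e5
  calc 2 * Nat.choose m j * ((2 ^ (m - j)) ^ m * (2 ^ j - 1) ^ m)
      = (2 ^ (m - j)) ^ m * (2 * Nat.choose m j * (2 ^ j - 1) ^ m) := by ring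
    _ < (2 ^ (m - j)) ^ m * (2 ^ j) ^ m := Nat.mul_lt_mul_of_pos_left e8 hpos2

/-- Existence of the matrix. -/
lemma exists_matrix (k : ℕ) (hk : 1 ≤ k) :
    ∃ β : Fin (k ^ 2 * 2 ^ k) → Fin (k ^ 2 * 2 ^ k) → Bool,
      (∀ C : Finset (Fin (k ^ 2 * 2 ^ k)), C.card + 1 ≤ k → ∃ c, ∀ d ∈ C, β c d = false) ∧
      (∀ R : Finset (Fin (k ^ 2 * 2 ^ k)), R.card + 1 ≤ k → ∃ d, ∀ c ∈ R, β c d = true) := by
  classical
  set m := k ^ 2 * 2 ^ k with hm
  have hjm : k - 1 ≤ m := by
    have h1 : k < 2 ^ k := Nat.lt_two_pow_self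
    have h2 : 1 ≤ k ^ 2 := Nat.one_le_pow _ _ hk
    calc k - 1 ≤ 2 ^ k := by omega
      _ = 1 * 2 ^ k := by ring
      _ ≤ m := Nat.mul_le_mul_right _ h2
  let 𝒞 := Finset.powersetCard (k - 1) (Finset.univ : Finset (Fin m))
  let Bad := 𝒞.biUnion (fun C => badCol m C) ∪ 𝒞.biUnion (fun C => badRow m C)
  have hcard : Bad.card < Fintype.card (Fin m → Fin m → Bool) := by
    have h1 : (𝒞.biUnion (fun C => badCol m C)).card ≤
        𝒞.card * (2 ^ m - 2 ^ (m - (k - 1))) ^ m := by
      apply Finset.card_biUnion_le_card_mul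
      intro C hC
      rw [card_badCol, (mem_powersetCard.mp hC).2]
    have h2 : (𝒞.biUnion (fun C => badRow m C)).card ≤
        𝒞.card * (2 ^ m - 2 ^ (m - (k - 1))) ^ m := by
      apply Finset.card_biUnion_le_card_mul
      intro C hC
      have := card_badRow m C
      rw [(mem_powersetCard.mp hC).2] at this
      exact this
    have h3 : 𝒞.card = Nat.choose m (k - 1) := by
      simp [𝒞]
    have h4 := Finset.card_union_le (𝒞.biUnion (fun C => badCol m C))
      (𝒞.biUnion (fun C => badRow m C))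
    have h5 := numeric k hk
    rw [← hm] at h5
    have h6 : Fintype.card (Fin m → Fin m → Bool) = (2 ^ m) ^ m := by simp
    rw [h6]
    rw [h3] at h1 h2
    calc Bad.card ≤ _ := h4
      _ ≤ Nat.choose m (k - 1) * (2 ^ m - 2 ^ (m - (k - 1))) ^ m +
          Nat.choose m (k - 1) * (2 ^ m - 2 ^ (m - (k - 1))) ^ m := Nat.add_le_add h1 h2
      _ = 2 * Nat.choose m (k - 1) * (2 ^ m - 2 ^ (m - (k - 1))) ^ m := by ring
      _ < _ := h5
  have hex : ∃ β : Fin m → Fin m → Bool, β ∉ Bad := by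
    by_contra hcon
    push Not at hcon
    have : Finset.univ ⊆ Bad := fun β _ => hcon β
    have := Finset.card_le_card this
    rw [Finset.card_univ] at this
    omega
  obtain ⟨β, hβ⟩ := hex
  simp only [Bad, mem_union, mem_biUnion, not_or, not_exists, not_and] at hβ
  refine ⟨β, ?_, ?_⟩
  · intro C hC
    obtain ⟨C', hCC', _, hC'⟩ := Finset.exists_subsuperset_card_eq (Finset.subset_univ C)
      (show C.card ≤ k - 1 by omega) (by rw [Finset.card_univ, Fintype.card_fin]; exact hjm)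
    have h1 := hβ.1 C' (by simp [𝒞, hC'])
    simp only [badCol, mem_filter, mem_univ, true_and] at h1
    push Not at h1
    obtain ⟨c, hc⟩ := h1
    exact ⟨c, fun d hd => Bool.eq_false_iff.mpr (hc d (hCC' hd))⟩
  · intro R hR
    obtain ⟨R', hRR', _, hR'⟩ := Finset.exists_subsuperset_card_eq (Finset.subset_univ R)
      (show R.card ≤ k - 1 by omega) (by rw [Finset.card_univ, Fintype.card_fin]; exact hjm)
    have h1 := hβ.2 R' (by simp [𝒞, hR'])
    simp only [badRow, mem_filter, mem_univ, true_and] at h1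
    push Not at h1
    obtain ⟨d, hd⟩ := h1
    refine ⟨d, fun c hc => ?_⟩
    have := hd c (hRR' hc)
    simpa using this

end Pool.Agent.KMinDom
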