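import Mathlib

namespace Pool.Agent.KMinDom

open Finset

/-- `Pi i j`: any at most `i` columns have a common zero row, any at most `j` rows have a common
one column. -/
def PiProp {α β : Type} (A : α → β → Prop) (S : Finset α) (T : Finset β) (i j : ℕ) : Prop :=
  (∀ C ⊆ T, C.card ≤ i → ∃ p ∈ S, ∀ q ∈ C, ¬ A p q) ∧
  (∀ R ⊆ S, R.card ≤ j → ∃ q ∈ T, ∀ p ∈ R, A p q)

open Classical in
/-- `PiK i j K`: any at most `i` columns have at least `K` common zero rows, any at most `j` rows
have at least `K` common one columns. -/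
def PiK {α β : Type} (A : α → β → Prop) (S : Finset α) (T : Finset β) (i j K : ℕ) : Prop :=
  (∀ C ⊆ T, C.card ≤ i → K ≤ (S.filter (fun p => ∀ q ∈ C, ¬ A p q)).card) ∧
  (∀ R ⊆ S, R.card ≤ j → K ≤ (T.filter (fun q => ∀ p ∈ R, A p q)).card)

lemma PiK.left_pos {α β : Type} {A : α → β → Prop} {S : Finset α} {T : Finset β} {i j K : ℕ}
    (h : PiK A S T i j K) : K ≤ S.card := by
  classical
  exact (h.1 ∅ (Finset.empty_subset _) (by simp)).trans (Finset.card_filter_le _ _)

lemma PiK.right_pos {α β : Type} {A : α → β → Prop} {S : Finset α} {T : Finset β} {i j K : ℕ}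
    (h : PiK A S T i j K) : K ≤ T.card := by
  classical
  exact (h.2 ∅ (Finset.empty_subset _) (by simp)).trans (Finset.card_filter_le _ _)

/-- boosting: one level of the property is traded for multiplicity -/
lemma PiProp.boost {α β : Type} {A : α → β → Prop} {S : Finset α} {T : Finset β} {m : ℕ}
    (h : PiProp A S T (m + 1) (m + 1)) : PiK A S T m m (m + 2) := by
  classical
  constructor
  · intro C hC hCc
    by_contra hcon
    push Not at hcon
    obtain ⟨q0, hq0, hq0'⟩ := h.2 (S.filter (fun p => ∀ q ∈ C, ¬ A p q))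
      (Finset.filter_subset _ _) (by omega)
    obtain ⟨p, hp, hp'⟩ := h.1 (insert q0 C) (Finset.insert_subset hq0 hC)
      ((Finset.card_insert_le _ _).trans (by omega))
    refine hp' q0 (Finset.mem_insert_self _ _) (hq0' p ?_)
    rw [Finset.mem_filter]
    exact ⟨hp, fun q hq => hp' q (Finset.mem_insert_of_mem hq)⟩
  · intro R hR hRc
    by_contra hcon
    push Not at hcon
    obtain ⟨p0, hp0, hp0'⟩ := h.1 (T.filter (fun q => ∀ p ∈ R, A p q))
      (Finset.filter_subset _ _) (by omega)
    obtain ⟨q, hq, hq'⟩ := h.2 (insert p0 R) (Finset.insert_subset hp0 hR)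
      ((Finset.card_insert_le _ _).trans (by omega))
    refine hp0' q ?_ (hq' p0 (Finset.mem_insert_self _ _))
    rw [Finset.mem_filter]
    exact ⟨hq, fun p hp => hq' p (Finset.mem_insert_of_mem hp)⟩

open Classical in
lemma rect_lemma {α β : Type} (A : α → β → Prop) (a b : ℝ) (ha : 0 ≤ a) (hb : 0 ≤ b)
    (hab : a + b = 1) (K : ℕ) (hK : 1 ≤ K) :
    ∀ (N i j : ℕ), i + j = N → ∀ (S : Finset α) (T : Finset β),
    PiK A S T i j K → (K : ℝ) ≤ (S.card : ℝ) * a ^ i ∨ (K : ℝ) ≤ (T.card : ℝ) * b ^ j := by
  intro N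
  induction N with
  | zero =>
    intro i j hij S T h
    left
    have hi : i = 0 := by omega
    subst hi
    have := h.left_pos
    rw [pow_zero, mul_one]
    exact_mod_cast this
  | succ N ih =>
    intro i j hij S T h
    have hS := h.left_pos
    have hT := h.right_pos
    have hS' : (K : ℝ) ≤ S.card := by exact_mod_cast hS
    have hT' : (K : ℝ) ≤ T.card := by exact_mod_cast hT
    have hK' : (1 : ℝ) ≤ K := by exact_mod_cast hK
    rcases Nat.eq_zero_or_pos i with hi | hi
    · left
      rw [hi, pow_zero, mul_one]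
      exact hS'
    rcases Nat.eq_zero_or_pos j with hj | hj
    · right
      rw [hj, pow_zero, mul_one]
      exact hT'
    by_contra hcon
    push Not at hcon
    obtain ⟨hc1, hc2⟩ := hcon
    have h1 : ∀ q ∈ T, (K : ℝ) ≤ ((S.filter (fun p => ¬ A p q)).card : ℝ) * a ^ (i - 1) := by
      intro q hq
      have hP : PiK A (S.filter (fun p => ¬ A p q)) T (i - 1) j K := by
        constructor
        · intro C hC hCc
          refine (h.1 (insert q C) (Finset.insert_subset hq hC)
            ((Finset.card_insert_le _ _).trans (by omega))).trans (Finset.card_le_card ?_)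
          intro p hp
          rw [Finset.mem_filter] at hp
          rw [Finset.mem_filter, Finset.mem_filter]
          exact ⟨⟨hp.1, hp.2 q (Finset.mem_insert_self _ _)⟩,
            fun z hz => hp.2 z (Finset.mem_insert_of_mem hz)⟩
        · intro R hR hRc
          exact h.2 R (hR.trans (Finset.filter_subset _ _)) hRc
      rcases ih (i - 1) j (by omega) (S.filter (fun p => ¬ A p q)) T hP with h' | h'
      · exact h'
      · exact absurd h' (not_le.mpr hc2)
    have h2 : ∀ p ∈ S, (K : ℝ) ≤ ((T.filter (fun q => A p q)).card : ℝ) * b ^ (j - 1) := by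
      intro p hp
      have hP : PiK A S (T.filter (fun q => A p q)) i (j - 1) K := by
        constructor
        · intro C hC hCc
          exact h.1 C (hC.trans (Finset.filter_subset _ _)) hCc
        · intro R hR hRc
          refine (h.2 (insert p R) (Finset.insert_subset hp hR)
            ((Finset.card_insert_le _ _).trans (by omega))).trans (Finset.card_le_card ?_)
          intro q hq
          rw [Finset.mem_filter] at hq
          rw [Finset.mem_filter, Finset.mem_filter]
          exact ⟨⟨hq.1, hq.2 p (Finset.mem_insert_self _ _)⟩,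
            fun z hz => hq.2 z (Finset.mem_insert_of_mem hz)⟩
      rcases ih i (j - 1) (by omega) S (T.filter (fun q => A p q)) hP with h' | h'
      · exact absurd h' (not_le.mpr hc1)
      · exact h'
    set u : ℝ := ∑ q ∈ T, ((S.filter (fun p => ¬ A p q)).card : ℝ) with hu
    set w : ℝ := ∑ p ∈ S, ((T.filter (fun q => A p q)).card : ℝ) with hw
    have huw : u + w = S.card * T.card := by
      have e1 : w = ∑ q ∈ T, ((S.filter (fun p => A p q)).card : ℝ) := by
        rw [hw]
        simp only [Finset.card_filter]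
        push_cast
        rw [Finset.sum_comm]
      rw [e1, hu, ← Finset.sum_add_distrib]
      have e2 : ∀ q ∈ T, ((S.filter (fun p => ¬ A p q)).card : ℝ) +
          ((S.filter (fun p => A p q)).card : ℝ) = S.card := by
        intro q _
        have := Finset.card_filter_add_card_filter_not (s := S) (fun p => A p q)
        have h' : ((S.filter (fun p => A p q)).card : ℝ) +
          ((S.filter (fun p => ¬ A p q)).card : ℝ) = S.card := by exact_mod_cast this
        linarith
      rw [Finset.sum_congr rfl e2, Finset.sum_const, nsmul_eq_mul]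
      ring
    have hu1 : (T.card : ℝ) * K ≤ u * a ^ (i - 1) := by
      rw [hu, Finset.sum_mul]
      calc (T.card : ℝ) * K = ∑ q ∈ T, (K : ℝ) := by simp
        _ ≤ _ := Finset.sum_le_sum h1
    have hw1 : (S.card : ℝ) * K ≤ w * b ^ (j - 1) := by
      rw [hw, Finset.sum_mul]
      calc (S.card : ℝ) * K = ∑ p ∈ S, (K : ℝ) := by simp
        _ ≤ _ := Finset.sum_le_sum h2
    have hTK : (0 : ℝ) < T.card * K := by
      have : (0 : ℝ) < T.card := by linarith
      positivity
    have hSK : (0 : ℝ) < S.card * K := by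
      have : (0 : ℝ) < S.card := by linarith
      positivity
    have hupos : 0 < u := by
      by_contra hneg
      push Not at hneg
      have : u * a ^ (i - 1) ≤ 0 := mul_nonpos_of_nonpos_of_nonneg hneg (by positivity)
      linarith
    have hwpos : 0 < w := by
      by_contra hneg
      push Not at hneg
      have : w * b ^ (j - 1) ≤ 0 := mul_nonpos_of_nonpos_of_nonneg hneg (by positivity)
      linarith
    have ea : a ^ i = a * a ^ (i - 1) := by
      rw [← pow_succ']
      congr 1
      omega
    have eb : b ^ j = b * b ^ (j - 1) := by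
      rw [← pow_succ']
      congr 1
      omega
    -- u > s t a  and w > s t b, at least weakly
    have hua : (S.card : ℝ) * T.card * a * K ≤ u * (S.card * a ^ i) := by
      rw [ea]
      have := mul_le_mul_of_nonneg_left hu1 (show (0 : ℝ) ≤ S.card * a by positivity)
      nlinarith
    have hwb : (S.card : ℝ) * T.card * b * K ≤ w * (T.card * b ^ j) := by
      rw [eb]
      have := mul_le_mul_of_nonneg_left hw1 (show (0 : ℝ) ≤ T.card * b by positivity)
      nlinarith
    have hu2 : u * (S.card * a ^ i) < u * K := mul_lt_mul_of_pos_left hc1 hupos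
    have hw2 : w * (T.card * b ^ j) < w * K := mul_lt_mul_of_pos_left hc2 hwpos
    have h3 : (S.card : ℝ) * T.card * a * K + S.card * T.card * b * K =
        S.card * T.card * K := by
      have : (S.card : ℝ) * T.card * a * K + S.card * T.card * b * K =
        S.card * T.card * K * (a + b) := by ring
      rw [this, hab, mul_one]
    have h4 : u * K + w * K = S.card * T.card * K := by rw [← add_mul, huw]
    linarith

/-- A rectangle with property `PiK m m K` has at least `K ^ 2 * 4 ^ m` cells. -/
lemma four_pow_mul_le {α β : Type} {A : α → β → Prop} {S : Finset α} {T : Finset β} {m K : ℕ}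
    (hK : 1 ≤ K) (h : PiK A S T m m K) : K ^ 2 * 4 ^ m ≤ S.card * T.card := by
  rcases Nat.eq_zero_or_pos m with hm | hm
  · subst hm
    have h1 := h.left_pos
    have h2 := h.right_pos
    have := Nat.mul_le_mul h1 h2
    rw [pow_zero, mul_one, sq]
    exact this
  by_contra hcon
  push Not at hcon
  have hK' : (1 : ℝ) ≤ K := by exact_mod_cast hK
  have hs : (K : ℝ) ≤ S.card := by exact_mod_cast h.left_pos
  have ht : (K : ℝ) ≤ T.card := by exact_mod_cast h.right_pos
  set σ : ℝ := (S.card : ℝ) ^ ((m : ℝ)⁻¹) with hσ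
  set τ : ℝ := (T.card : ℝ) ^ ((m : ℝ)⁻¹) with hτ
  have hσm : σ ^ m = S.card := Real.rpow_inv_natCast_pow (by positivity) (by omega)
  have hτm : τ ^ m = T.card := Real.rpow_inv_natCast_pow (by positivity) (by omega)
  have hσ0 : 0 < σ := Real.rpow_pos_of_pos (by linarith) _
  have hτ0 : 0 < τ := Real.rpow_pos_of_pos (by linarith) _
  have hsum : 0 < σ + τ := by positivity
  -- (στ/(σ+τ))^m < K
  have hsm : (σ * τ / (σ + τ)) ^ m < K := by
    have h1 : ((σ * τ / (σ + τ)) ^ m) ^ 2 < (K : ℝ) ^ 2 := by
      have e1 : ((σ * τ / (σ + τ)) ^ m) ^ 2 = ((σ * τ / (σ + τ)) ^ 2) ^ m := by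
        rw [← pow_mul, ← pow_mul, mul_comm m 2]
      have e2 : (σ * τ / (σ + τ)) ^ 2 ≤ σ * τ / 4 := by
        rw [div_pow, div_le_div_iff₀ (by positivity) (by norm_num)]
        nlinarith [mul_nonneg (mul_nonneg hσ0.le hτ0.le) (sq_nonneg (σ - τ))]
      have e3 : ((σ * τ / (σ + τ)) ^ 2) ^ m ≤ (σ * τ / 4) ^ m :=
        pow_le_pow_left₀ (by positivity) e2 m
      have e4 : (σ * τ / 4) ^ m = S.card * T.card / 4 ^ m := by
        rw [div_pow, mul_pow, hσm, hτm]
      have e5 : (S.card : ℝ) * T.card / 4 ^ m < (K : ℝ) ^ 2 := by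
        rw [div_lt_iff₀ (by positivity)]
        exact_mod_cast hcon
      rw [e1]
      linarith
    exact lt_of_pow_lt_pow_left₀ 2 (by positivity) h1
  have key := rect_lemma A (τ / (σ + τ)) (σ / (σ + τ)) (by positivity) (by positivity)
    (by field_simp; ring) K hK (m + m) m m rfl S T h
  have e1 : (S.card : ℝ) * (τ / (σ + τ)) ^ m = (σ * τ / (σ + τ)) ^ m := by
    rw [← hσm, ← mul_pow]
    congr 1
    ring
  have e2 : (T.card : ℝ) * (σ / (σ + τ)) ^ m = (σ * τ / (σ + τ)) ^ m := by
    rw [← hτm, ← mul_pow]
    congr 1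
    ring
  rw [e1, e2] at key
  rcases key with h' | h' <;> linarith

/-- Two-sided form: a rectangle with property `Pi (k-1) (k-1)` has at least `k ^ 2 * 4 ^ (k-2)`
cells. -/
lemma four_pow_le {α β : Type} {A : α → β → Prop} {S : Finset α} {T : Finset β} {k : ℕ}
    (hk : 2 ≤ k) (h : PiProp A S T (k - 1) (k - 1)) :
    k ^ 2 * 4 ^ (k - 2) ≤ S.card * T.card := by
  obtain ⟨m, rfl⟩ : ∃ m, k = m + 2 := ⟨k - 2, by omega⟩
  have e1 : m + 2 - 1 = m + 1 := by omega
  have e2 : m + 2 - 2 = m := by omega
  rw [e1] at h
  rw [e2]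
  exact four_pow_mul_le (by omega) h.boost

end Pool.Agent.KMinDom
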