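import Mathlib
import Pool.Agent.KMinDom.Basic
import Pool.Agent.KMinDom.Rect

namespace Pool.Agent.KMinDom

open Finset

set_option linter.unusedSectionVars false

section upper

variable {V : Type} [Fintype V] [DecidableEq V]

lemma priv_nonempty {k : ℕ} (hk : 1 ≤ k) {G : SimpleGraph V} {X : Finset V}
    (h : IsKMinimal k G X) {x : V} (hx : x ∈ X) : (priv G X x).Nonempty := by
  have hnd := h.2 1 le_rfl hk {x} (by simpa using hx) (by simp) ∅ (by simp)
  rw [dominating_iff] at hnd
  push Not at hnd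
  obtain ⟨v, hv⟩ := hnd
  refine ⟨v, mem_priv.mpr ?_⟩
  have hsub : supp G X v ⊆ {x} := by
    intro z hz
    rw [mem_supp] at hz
    by_contra hzx
    exact hv ⟨z, by simp [hz.1, Finset.mem_singleton.not.mp hzx], hz.2⟩
  rcases Finset.subset_singleton_iff.mp hsub with h1 | h1
  · exact absurd h1 (Finset.nonempty_iff_ne_empty.mp (supp_nonempty h.1 v))
  · exact h1

lemma sum_priv_le (G : SimpleGraph V) (X : Finset V) :
    ∑ x ∈ X, (priv G X x).card ≤ Fintype.card V := by
  rw [← Finset.card_biUnion (fun x _ x' _ hne => priv_disjoint hne)]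
  exact Finset.card_le_univ _

open Classical in
/-- pairs whose rectangle is spoilt by a small set of columns -/
noncomputable def bad (k K : ℕ) (G : SimpleGraph V) (X Y : Finset V) (Q : V → Finset V) :
    Finset (V × V) :=
  (X ×ˢ Y).filter (fun z => (Q z.2).card < K ∧ ∃ R ⊆ Q z.2, R.card + 1 ≤ k ∧ z.1 ∈ dset G X R)

lemma bad_card {k K : ℕ} {G : SimpleGraph V} {X Y : Finset V} (h : IsKMinimal k G X)
    (hV : 1 ≤ Fintype.card V) (Q : V → Finset V) :
    ((bad k K G X Y Q).card : ℝ) ≤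
      Fintype.card V * 2 ^ K * (k * Real.sqrt (Fintype.card V) + 1) := by
  classical
  have hsub : bad k K G X Y Q ⊆ (Y.filter (fun y => (Q y).card < K)).biUnion (fun y =>
      ((Q y).powerset.filter (fun R => R.card + 1 ≤ k)).biUnion (fun R =>
        (dset G X R).image (fun x => (x, y)))) := by
    intro z hz
    simp only [bad, mem_filter, mem_product] at hz
    obtain ⟨⟨hz1, hz2⟩, hzK, R, hR, hRk, hzR⟩ := hz
    simp only [mem_biUnion, mem_filter, mem_powerset, mem_image]
    exact ⟨z.2, ⟨hz2, hzK⟩, R, ⟨hR, hRk⟩, z.1, hzR, rfl⟩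
  have h1 : ((bad k K G X Y Q).card : ℝ) ≤ ∑ y ∈ Y.filter (fun y => (Q y).card < K),
      ∑ R ∈ (Q y).powerset.filter (fun R => R.card + 1 ≤ k), ((dset G X R).card : ℝ) := by
    have := Finset.card_le_card hsub
    have h2 : ((Y.filter (fun y => (Q y).card < K)).biUnion (fun y =>
      ((Q y).powerset.filter (fun R => R.card + 1 ≤ k)).biUnion (fun R =>
        (dset G X R).image (fun x => (x, y))))).card ≤ ∑ y ∈ Y.filter (fun y => (Q y).card < K),
      ∑ R ∈ (Q y).powerset.filter (fun R => R.card + 1 ≤ k), (dset G X R).card := by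
      refine Finset.card_biUnion_le.trans (Finset.sum_le_sum fun y _ => ?_)
      refine Finset.card_biUnion_le.trans (Finset.sum_le_sum fun R _ => ?_)
      exact Finset.card_image_le
    exact_mod_cast this.trans h2
  have hδ : (0 : ℝ) ≤ k * Real.sqrt (Fintype.card V) + 1 := by positivity
  refine h1.trans ?_
  calc ∑ y ∈ Y.filter (fun y => (Q y).card < K),
      ∑ R ∈ (Q y).powerset.filter (fun R => R.card + 1 ≤ k), ((dset G X R).card : ℝ)
      ≤ ∑ y ∈ Y.filter (fun y => (Q y).card < K),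
        (2 : ℝ) ^ K * (k * Real.sqrt (Fintype.card V) + 1) := by
        refine Finset.sum_le_sum fun y hy => ?_
        calc ∑ R ∈ (Q y).powerset.filter (fun R => R.card + 1 ≤ k), ((dset G X R).card : ℝ)
            ≤ ∑ R ∈ (Q y).powerset.filter (fun R => R.card + 1 ≤ k),
              (k * Real.sqrt (Fintype.card V) + 1) := by
              refine Finset.sum_le_sum fun R hR => ?_
              exact dset_card_le h (mem_filter.mp hR).2 hV
          _ = ((Q y).powerset.filter (fun R => R.card + 1 ≤ k)).card *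
              (k * Real.sqrt (Fintype.card V) + 1) := by
              rw [Finset.sum_const, nsmul_eq_mul]
          _ ≤ (2 : ℝ) ^ K * (k * Real.sqrt (Fintype.card V) + 1) := by
              refine mul_le_mul_of_nonneg_right ?_ hδ
              have h3 : ((Q y).powerset.filter (fun R => R.card + 1 ≤ k)).card ≤ 2 ^ K := by
                refine (Finset.card_filter_le _ _).trans ?_
                rw [Finset.card_powerset]
                exact Nat.pow_le_pow_right (by norm_num) (mem_filter.mp hy).2.le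
              exact_mod_cast h3
    _ = (Y.filter (fun y => (Q y).card < K)).card *
        ((2 : ℝ) ^ K * (k * Real.sqrt (Fintype.card V) + 1)) := by
        rw [Finset.sum_const, nsmul_eq_mul]
    _ ≤ Fintype.card V * ((2 : ℝ) ^ K * (k * Real.sqrt (Fintype.card V) + 1)) := by
        refine mul_le_mul_of_nonneg_right ?_ (by positivity)
        exact_mod_cast Finset.card_le_univ _
    _ = _ := by ring

/-- The general upper bound in terms of sets. -/
lemma upper_sets {k : ℕ} (hk2 : 2 ≤ k) {G : SimpleGraph V} {X Y : Finset V}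
    (hX : IsKMinimal k G X) (hY : IsKMinimal k Gᶜ Y) :
    (X.card : ℝ) * Y.card ≤ (Fintype.card V : ℝ) ^ 2 / (k ^ 2 * 4 ^ (k - 2)) +
      2 ^ (k ^ 2 * 4 ^ (k - 2) + 1) * (k + 1) *
        (Fintype.card V * Real.sqrt (Fintype.card V)) := by
  classical
  have hk : 1 ≤ k := by omega
  rcases Nat.eq_zero_or_pos (Fintype.card V) with hV | hV
  · have h1 : X.card = 0 := by
      have := Finset.card_le_univ X
      omega
    rw [h1]
    push_cast
    rw [zero_mul]
    positivity
  set n := Fintype.card V with hn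
  set K := k ^ 2 * 4 ^ (k - 2) with hK
  let P : V → Finset V := priv G X
  let Q : V → Finset V := priv Gᶜ Y
  let B1 := bad k K G X Y Q
  let B2' := bad k K Gᶜ Y X P
  let B2 : Finset (V × V) := B2'.image Prod.swap
  have hgood : ∀ z ∈ (X ×ˢ Y) \ (B1 ∪ B2), K ≤ (P z.1).card * (Q z.2).card := by
    intro z hz
    rw [mem_sdiff, mem_union, mem_product] at hz
    obtain ⟨⟨hz1, hz2⟩, hzB⟩ := hz
    push Not at hzB
    have hP1 : 1 ≤ (P z.1).card := Finset.card_pos.mpr (priv_nonempty hk hX hz1)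
    have hQ1 : 1 ≤ (Q z.2).card := Finset.card_pos.mpr (priv_nonempty hk hY hz2)
    by_cases hPK : K ≤ (P z.1).card
    · exact hPK.trans (Nat.le_mul_of_pos_right _ hQ1)
    by_cases hQK : K ≤ (Q z.2).card
    · exact hQK.trans (Nat.le_mul_of_pos_left _ hP1)
    push Not at hPK hQK
    have hb1 : ∀ R ⊆ Q z.2, R.card + 1 ≤ k → z.1 ∉ dset G X R := by
      intro R hR hRk hmem
      apply hzB.1
      simp only [B1, bad, mem_filter, mem_product]
      exact ⟨⟨hz1, hz2⟩, hQK, R, hR, hRk, hmem⟩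
    have hb2 : ∀ R ⊆ P z.1, R.card + 1 ≤ k → z.2 ∉ dset Gᶜ Y R := by
      intro R hR hRk hmem
      apply hzB.2
      simp only [B2, mem_image]
      refine ⟨(z.2, z.1), ?_, rfl⟩
      simp only [B2', bad, mem_filter, mem_product]
      exact ⟨⟨hz2, hz1⟩, hPK, R, hR, hRk, hmem⟩
    apply four_pow_le hk2 (A := fun p q => G.Adj p q)
    constructor
    · intro C hC hCc
      have h1 := hb1 C hC (by omega)
      rw [mem_dset] at h1
      push Not at h1
      obtain ⟨v, hv, hvd⟩ := h1 hz1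
      refine ⟨v, hv, fun q hq hadj => hvd ⟨q, hq, Or.inr hadj⟩⟩
    · intro R hR hRc
      have h1 := hb2 R hR (by omega)
      rw [mem_dset] at h1
      push Not at h1
      obtain ⟨v, hv, hvd⟩ := h1 hz2
      refine ⟨v, hv, fun p hp => ?_⟩
      by_contra hadj
      apply hvd
      by_cases hpv : p = v
      · exact ⟨p, hp, Or.inl hpv⟩
      · refine ⟨p, hp, Or.inr ?_⟩
        rw [SimpleGraph.compl_adj]
        exact ⟨Ne.symm hpv, fun h => hadj h.symm⟩
  have hsumN : ∑ z ∈ (X ×ˢ Y) \ (B1 ∪ B2), (P z.1).card * (Q z.2).card ≤ n * n := by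
    calc ∑ z ∈ (X ×ˢ Y) \ (B1 ∪ B2), (P z.1).card * (Q z.2).card
        ≤ ∑ z ∈ X ×ˢ Y, (P z.1).card * (Q z.2).card :=
          Finset.sum_le_sum_of_subset Finset.sdiff_subset
      _ = (∑ x ∈ X, (P x).card) * (∑ y ∈ Y, (Q y).card) := by
          rw [Finset.sum_product, Finset.sum_mul_sum]
      _ ≤ n * n := Nat.mul_le_mul (sum_priv_le G X) (sum_priv_le Gᶜ Y)
  have hlow : ((X ×ˢ Y) \ (B1 ∪ B2)).card * K ≤ n * n :=
    (Finset.card_nsmul_le_sum _ _ K hgood).trans hsumN
  have hcard : X.card * Y.card ≤ ((X ×ˢ Y) \ (B1 ∪ B2)).card + (B1.card + B2'.card) := by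
    have h1 := Finset.le_card_sdiff (B1 ∪ B2) (X ×ˢ Y)
    rw [Finset.card_product] at h1
    have h2 := Finset.card_union_le B1 B2
    have h3 : B2.card ≤ B2'.card := Finset.card_image_le
    omega
  have hkR : (0 : ℝ) < k := by exact_mod_cast (by omega : 0 < k)
  have hKpos : (0 : ℝ) < k ^ 2 * 4 ^ (k - 2) := by positivity
  have e1 : (((X ×ˢ Y) \ (B1 ∪ B2)).card : ℝ) ≤ (n : ℝ) ^ 2 / (k ^ 2 * 4 ^ (k - 2)) := by
    rw [le_div_iff₀ hKpos]
    have h4 : ((((X ×ˢ Y) \ (B1 ∪ B2)).card * K : ℕ) : ℝ) ≤ ((n * n : ℕ) : ℝ) := by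
      exact_mod_cast hlow
    rw [hK] at h4
    push_cast at h4
    nlinarith
  have e2 := bad_card (K := K) (Y := Y) hX hV Q
  have e3 := bad_card (K := K) (Y := X) hY hV P
  have e4 : (X.card : ℝ) * Y.card ≤ (((X ×ˢ Y) \ (B1 ∪ B2)).card : ℝ) +
      ((B1.card : ℝ) + (B2'.card : ℝ)) := by exact_mod_cast hcard
  have hn1 : (1 : ℝ) ≤ Real.sqrt n := by
    rw [Real.one_le_sqrt]
    exact_mod_cast hV
  have e5 : (n : ℝ) * 2 ^ K * (k * Real.sqrt n + 1) ≤
      2 ^ K * (k + 1) * (n * Real.sqrt n) := by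
    have h5 : (k : ℝ) * Real.sqrt n + 1 ≤ (k + 1) * Real.sqrt n := by linarith
    calc (n : ℝ) * 2 ^ K * (k * Real.sqrt n + 1) ≤ n * 2 ^ K * ((k + 1) * Real.sqrt n) :=
          mul_le_mul_of_nonneg_left h5 (by positivity)
      _ = _ := by ring
  have e6 : (2 : ℝ) ^ (K + 1) * (k + 1) * (n * Real.sqrt n) =
      2 ^ K * (k + 1) * (n * Real.sqrt n) + 2 ^ K * (k + 1) * (n * Real.sqrt n) := by
    rw [pow_succ]
    ring
  rw [← hn] at e2 e3
  rw [e6]
  have e2' : (B1.card : ℝ) ≤ (n : ℝ) * 2 ^ K * (k * Real.sqrt n + 1) := e2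
  have e3' : (B2'.card : ℝ) ≤ (n : ℝ) * 2 ^ K * (k * Real.sqrt n + 1) := e3
  linarith

end upper

end Pool.Agent.KMinDom
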