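import Mathlib
import Pool.Agent.KMinDom.Basic
import Pool.Agent.KMinDom.Upper

namespace Pool.Agent.KMinDom

open Finset

set_option linter.unusedSectionVars false

section two

variable {V : Type} [Fintype V] [DecidableEq V]

/-- vertices dominated by exactly one element of `X` -/
noncomputable def privAll (G : SimpleGraph V) (X : Finset V) : Finset V :=
  X.biUnion (fun x => priv G X x)

lemma mem_privAll {G : SimpleGraph V} {X : Finset V} {v : V} :
    v ∈ privAll G X ↔ ∃ x ∈ X, v ∈ priv G X x := by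
  simp [privAll]

lemma priv_subset_privAll {G : SimpleGraph V} {X : Finset V} {x v : V} (h : v ∈ priv G X x) :
    v ∈ privAll G X := by
  rw [mem_privAll]
  refine ⟨x, ?_, h⟩
  rw [mem_priv] at h
  have : x ∈ supp G X v := by rw [h]; exact mem_singleton_self x
  exact (mem_supp.mp this).1

lemma self_mem_supp {G : SimpleGraph V} {X : Finset V} {x : V} (h : x ∈ X) :
    x ∈ supp G X x := mem_supp.mpr ⟨h, Or.inl rfl⟩

lemma eq_of_mem_priv {G : SimpleGraph V} {X : Finset V} {x v z : V} (h : v ∈ priv G X x)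
    (hz : z ∈ X) (h' : z = v ∨ G.Adj v z) : z = x := by
  rw [mem_priv] at h
  have : z ∈ supp G X v := mem_supp.mpr ⟨hz, h'⟩
  rw [h] at this
  exact mem_singleton.mp this

/-- counting with two families of disjoint sets -/
lemma weights (A B : Finset V) (F H : V → Finset V)
    (hF : ∀ x ∈ A, ∀ x' ∈ A, x ≠ x' → Disjoint (F x) (F x'))
    (hH : ∀ y ∈ B, ∀ y' ∈ B, y ≠ y' → Disjoint (H y) (H y'))
    (hFH : ∀ x ∈ A, ∀ y ∈ B, Disjoint (F x) (H y))
    (S : Finset (V × V)) (hS : S ⊆ A ×ˢ B)
    (h2 : ∀ z ∈ S, 2 ≤ (F z.1).card) (h2' : ∀ z ∈ S, 2 ≤ (H z.2).card) :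
    16 * S.card ≤ Fintype.card V ^ 2 := by
  have h1 : S.card * 4 ≤ ∑ z ∈ S, (F z.1).card * (H z.2).card := by
    have := Finset.card_nsmul_le_sum S (fun z => (F z.1).card * (H z.2).card) 4
      (fun z hz => Nat.mul_le_mul (h2 z hz) (h2' z hz))
    simpa using this
  have h3 : ∑ z ∈ S, (F z.1).card * (H z.2).card ≤
      (∑ x ∈ A, (F x).card) * (∑ y ∈ B, (H y).card) := by
    rw [Finset.sum_mul_sum, ← Finset.sum_product']
    exact Finset.sum_le_sum_of_subset hS
  have h4 : (∑ x ∈ A, (F x).card) + (∑ y ∈ B, (H y).card) ≤ Fintype.card V := by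
    rw [← Finset.card_biUnion hF, ← Finset.card_biUnion hH, ← Finset.card_union_of_disjoint]
    · exact Finset.card_le_univ _
    · rw [Finset.disjoint_biUnion_left]
      intro x hx
      rw [Finset.disjoint_biUnion_right]
      intro y hy
      exact hFH x hx y hy
  set s := ∑ x ∈ A, (F x).card
  set t := ∑ y ∈ B, (H y).card
  have h5 : 4 * (s * t) ≤ (s + t) ^ 2 := by
    have := four_mul_le_pow_two_add s t
    linarith
  have h6 : (s + t) ^ 2 ≤ Fintype.card V ^ 2 := Nat.pow_le_pow_left h4 2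
  nlinarith

/-- the exceptional pairs, `k = 2` -/
def IsBad (G : SimpleGraph V) (X Y : Finset V) (x y : V) : Prop :=
  (∃ q ∈ priv Gᶜ Y y, x ∈ dset G X {q}) ∨ (∃ p ∈ priv G X x, y ∈ dset Gᶜ Y {p}) ∨
  x ∈ dset G X {y} ∨ y ∈ dset Gᶜ Y {x} ∨ (∃ v, v ∈ priv G X x ∧ v ∈ priv Gᶜ Y y) ∨
  x ∈ priv Gᶜ Y y ∨ x = y

open Classical in
/-- the set of exceptional pairs -/
noncomputable def badTwo (G : SimpleGraph V) (X Y : Finset V) : Finset (V × V) :=
  (X ×ˢ Y).filter (fun z => IsBad G X Y z.1 z.2)

lemma badTwo_card {G : SimpleGraph V} {X Y : Finset V} (δ : ℝ)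
    (hD : ∀ v, ((dset G X {v}).card : ℝ) ≤ δ) (hE : ∀ v, ((dset Gᶜ Y {v}).card : ℝ) ≤ δ) :
    ((badTwo G X Y).card : ℝ) ≤ 4 * Fintype.card V * δ + 3 * Fintype.card V := by
  classical
  -- choose the owner of a private vertex
  let ox : V → V := fun v => if h : ∃ x, v ∈ priv G X x then h.choose else v
  let oy : V → V := fun v => if h : ∃ y, v ∈ priv Gᶜ Y y then h.choose else v
  have hox : ∀ v x, v ∈ priv G X x → ox v = x := by
    intro v x hv
    have h : ∃ x, v ∈ priv G X x := ⟨x, hv⟩
    have h1 := h.choose_spec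
    simp only [ox, dif_pos h]
    rw [mem_priv] at h1 hv
    rw [h1] at hv
    exact singleton_injective hv
  have hoy : ∀ v y, v ∈ priv Gᶜ Y y → oy v = y := by
    intro v y hv
    have h : ∃ y, v ∈ priv Gᶜ Y y := ⟨y, hv⟩
    have h1 := h.choose_spec
    simp only [oy, dif_pos h]
    rw [mem_priv] at h1 hv
    rw [h1] at hv
    exact singleton_injective hv
  let S1 : Finset (V × V) := univ.biUnion (fun v : V => (dset G X {v}).image (fun x => (x, oy v)))
  let S2 : Finset (V × V) := univ.biUnion (fun v : V => (dset Gᶜ Y {v}).image (fun y => (ox v, y)))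
  let S3 : Finset (V × V) := univ.biUnion (fun v : V => (dset G X {v}).image (fun x => (x, v)))
  let S4 : Finset (V × V) := univ.biUnion (fun v : V => (dset Gᶜ Y {v}).image (fun y => (v, y)))
  let S5 : Finset (V × V) := univ.image (fun v : V => (ox v, oy v))
  let S6 : Finset (V × V) := univ.image (fun v : V => (v, oy v))
  let S7 : Finset (V × V) := univ.image (fun v : V => (v, v))
  have hsub : badTwo G X Y ⊆ S1 ∪ (S2 ∪ (S3 ∪ (S4 ∪ (S5 ∪ (S6 ∪ S7))))) := by
    rintro ⟨x, y⟩ hz
    simp only [badTwo, mem_filter] at hz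
    rcases hz.2 with ⟨q, hq, hx⟩ | ⟨p, hp, hy⟩ | hx | hy | ⟨v, hv, hv'⟩ | hx | hxy
    · refine mem_union_left _ ?_
      simp only [S1, mem_biUnion, mem_univ, true_and, mem_image]
      exact ⟨q, x, hx, by rw [hoy q y hq]⟩
    · refine mem_union_right _ (mem_union_left _ ?_)
      simp only [S2, mem_biUnion, mem_univ, true_and, mem_image]
      exact ⟨p, y, hy, by rw [hox p x hp]⟩
    · refine mem_union_right _ (mem_union_right _ (mem_union_left _ ?_))
      simp only [S3, mem_biUnion, mem_univ, true_and, mem_image]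
      exact ⟨y, x, hx, rfl⟩
    · refine mem_union_right _ (mem_union_right _ (mem_union_right _ (mem_union_left _ ?_)))
      simp only [S4, mem_biUnion, mem_univ, true_and, mem_image]
      exact ⟨x, y, hy, rfl⟩
    · refine mem_union_right _ (mem_union_right _ (mem_union_right _ (mem_union_right _
        (mem_union_left _ ?_))))
      simp only [S5, mem_univ, true_and, mem_image]
      exact ⟨v, by rw [hox v x hv, hoy v y hv']⟩
    · refine mem_union_right _ (mem_union_right _ (mem_union_right _ (mem_union_right _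
        (mem_union_right _ (mem_union_left _ ?_)))))
      simp only [S6, mem_univ, true_and, mem_image]
      exact ⟨x, by rw [hoy x y hx]⟩
    · refine mem_union_right _ (mem_union_right _ (mem_union_right _ (mem_union_right _
        (mem_union_right _ (mem_union_right _ ?_)))))
      simp only [S7, mem_univ, true_and, mem_image]
      exact ⟨x, by rw [hxy]⟩
  have hbig : ∀ (D : V → Finset V) (f : V → V → V × V), (∀ v, ((D v).card : ℝ) ≤ δ) →
      (((univ : Finset V).biUnion (fun v => (D v).image (f v))).card : ℝ) ≤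
        Fintype.card V * δ := by
    intro D f hDv
    have h1 : ((univ : Finset V).biUnion (fun v => (D v).image (f v))).card ≤
        ∑ v : V, (D v).card :=
      card_biUnion_le.trans (sum_le_sum fun v _ => card_image_le)
    calc (((univ : Finset V).biUnion (fun v => (D v).image (f v))).card : ℝ)
        ≤ ∑ v : V, ((D v).card : ℝ) := by exact_mod_cast h1
      _ ≤ ∑ v : V, δ := sum_le_sum fun v _ => hDv v
      _ = Fintype.card V * δ := by rw [sum_const, nsmul_eq_mul, card_univ]
  have hsmall : ∀ f : V → V × V, (((univ : Finset V).image f).card : ℝ) ≤ Fintype.card V := by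
    intro f
    have : ((univ : Finset V).image f).card ≤ Fintype.card V := by
      rw [← Finset.card_univ]
      exact card_image_le
    exact_mod_cast this
  have c1 : (S1.card : ℝ) ≤ Fintype.card V * δ := hbig _ (fun v x => (x, oy v)) hD
  have c2 : (S2.card : ℝ) ≤ Fintype.card V * δ := hbig _ (fun v y => (ox v, y)) hE
  have c3 : (S3.card : ℝ) ≤ Fintype.card V * δ := hbig _ (fun v x => (x, v)) hD
  have c4 : (S4.card : ℝ) ≤ Fintype.card V * δ := hbig _ (fun v y => (v, y)) hE
  have c5 : (S5.card : ℝ) ≤ Fintype.card V := hsmall _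
  have c6 : (S6.card : ℝ) ≤ Fintype.card V := hsmall _
  have c7 : (S7.card : ℝ) ≤ Fintype.card V := hsmall _
  have htot : (badTwo G X Y).card ≤ S1.card + (S2.card + (S3.card + (S4.card + (S5.card +
      (S6.card + S7.card))))) := by
    refine (card_le_card hsub).trans ((card_union_le _ _).trans (Nat.add_le_add_left ?_ _))
    refine (card_union_le _ _).trans (Nat.add_le_add_left ?_ _)
    refine (card_union_le _ _).trans (Nat.add_le_add_left ?_ _)
    refine (card_union_le _ _).trans (Nat.add_le_add_left ?_ _)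
    refine (card_union_le _ _).trans (Nat.add_le_add_left ?_ _)
    exact card_union_le _ _
  have htot' : ((badTwo G X Y).card : ℝ) ≤ S1.card + (S2.card + (S3.card + (S4.card + (S5.card +
      ((S6.card : ℝ) + S7.card))))) := by exact_mod_cast htot
  linarith

/-! #### local facts about good pairs -/

section local_facts

variable {G : SimpleGraph V} {X Y : Finset V}

/-- a private vertex of `x` outside the closed neighbourhood of `r` -/
lemma exists_row {x r : V} (hx : x ∈ X) (h : x ∉ dset G X {r}) :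
    ∃ p ∈ priv G X x, p ≠ r ∧ ¬ G.Adj p r := by
  rw [mem_dset] at h
  push Not at h
  obtain ⟨v, hv, hvd⟩ := h hx
  refine ⟨v, hv, ?_, ?_⟩
  · rintro rfl
    exact hvd ⟨v, mem_singleton_self _, Or.inl rfl⟩
  · intro hadj
    exact hvd ⟨r, mem_singleton_self _, Or.inr hadj⟩

/-- a co-private vertex of `y` adjacent to `r` -/
lemma exists_col {y r : V} (hy : y ∈ Y) (h : y ∉ dset Gᶜ Y {r}) :
    ∃ q ∈ priv Gᶜ Y y, G.Adj q r := by
  obtain ⟨q, hq, hne, hadj⟩ := exists_row hy h
  refine ⟨q, hq, ?_⟩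
  rw [SimpleGraph.compl_adj] at hadj
  push Not at hadj
  exact hadj hne

/-- facts from goodness, collected -/
structure Good (G : SimpleGraph V) (X Y : Finset V) (x y : V) : Prop where
  hx : x ∈ X
  hy : y ∈ Y
  g1 : ∀ q ∈ priv Gᶜ Y y, x ∉ dset G X {q}
  g2 : ∀ p ∈ priv G X x, y ∉ dset Gᶜ Y {p}
  g3 : x ∉ dset G X {y}
  g4 : y ∉ dset Gᶜ Y {x}
  g5 : ∀ v, v ∈ priv G X x → v ∉ priv Gᶜ Y y
  g6 : x ∉ priv Gᶜ Y y
  g7 : x ≠ y

lemma good_of_not_bad {x y : V} (hx : x ∈ X) (hy : y ∈ Y) (h : (x, y) ∉ badTwo G X Y) :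
    Good G X Y x y := by
  classical
  simp only [badTwo, mem_filter, mem_product, not_and] at h
  have h' := h ⟨hx, hy⟩
  unfold IsBad at h'
  push Not at h'
  exact ⟨hx, hy, h'.1, h'.2.1, h'.2.2.1, h'.2.2.2.1, h'.2.2.2.2.1, h'.2.2.2.2.2.1,
    h'.2.2.2.2.2.2⟩

/-- a neighbour in `X` of a private vertex of `x` is `x` -/
lemma notMem_X_of_adj {x p q : V} (hp : p ∈ priv G X x) (hqp : G.Adj q p) (hqx : q ≠ x) :
    q ∉ X := fun hq => hqx (eq_of_mem_priv hp hq (Or.inr hqp.symm))

/-- a vertex of `P_x`, nonadjacent and different from `y ∉ X`, lies outside `privAll Gᶜ Y`. -/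
lemma row_notMem_privAll {x y p : V} (hy : y ∈ Y) (hp : p ∈ priv G X x)
    (h5 : ∀ v, v ∈ priv G X x → v ∉ priv Gᶜ Y y) (hne : p ≠ y) (hadj : ¬ G.Adj p y) :
    p ∉ privAll Gᶜ Y := by
  rw [mem_privAll]
  rintro ⟨y', hy', hp'⟩
  have : y = y' := by
    apply eq_of_mem_priv hp' hy
    right
    rw [SimpleGraph.compl_adj]
    exact ⟨hne, hadj⟩
  rw [← this] at hp'
  exact h5 p hp hp'

/-- in all cases some vertex of `P_x` is neither equal nor adjacent to `y` -/
lemma exists_row_y {x y : V} (hg : Good G X Y x y) :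
    ∃ p ∈ priv G X x, p ≠ y ∧ ¬ G.Adj p y := exists_row hg.hx hg.g3

lemma exists_A {x y : V} (hg : Good G X Y x y) :
    ∃ p ∈ priv G X x, p ∉ privAll Gᶜ Y ∧ p ≠ y ∧ ¬ G.Adj p y := by
  obtain ⟨p, hp, hne, hadj⟩ := exists_row_y hg
  exact ⟨p, hp, row_notMem_privAll hg.hy hp hg.g5 hne hadj, hne, hadj⟩

/-- `|P_x| ≥ 2` for good pairs -/
lemma two_le_priv {x y : V} (hg : Good G X Y x y) : 2 ≤ (priv G X x).card := by
  obtain ⟨p, hp, _, _⟩ := exists_row_y hg
  obtain ⟨q, hq, hqp⟩ := exists_col hg.hy (hg.g2 p hp)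
  obtain ⟨p', hp', hne', hadj'⟩ := exists_row hg.hx (hg.g1 q hq)
  have : p ≠ p' := by
    rintro rfl
    exact hadj' hqp.symm
  exact Finset.one_lt_card.mpr ⟨p, hp, p', hp', this⟩

/-- Case I, columns -/
lemma caseI_col {x y : V} (hg : Good G X Y x y) :
    2 ≤ ((insert y (priv Gᶜ Y y)) \ X).card := by
  obtain ⟨p, hp, hpne, hpadj⟩ := exists_row_y hg
  obtain ⟨q, hq, hqp⟩ := exists_col hg.hy (hg.g2 p hp)
  have hqx : q ≠ x := by
    rintro rfl
    exact hg.g6 hq
  have hqX := notMem_X_of_adj hp hqp hqx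
  by_cases hyX : y ∈ X
  · obtain ⟨p', hp', hne', hadj'⟩ := exists_row hg.hx (hg.g1 q hq)
    obtain ⟨q', hq', hqp'⟩ := exists_col hg.hy (hg.g2 p' hp')
    have hqx' : q' ≠ x := by
      rintro rfl
      exact hg.g6 hq'
    have hqX' := notMem_X_of_adj hp' hqp' hqx'
    refine Finset.one_lt_card.mpr ⟨q, ?_, q', ?_, ?_⟩
    · exact mem_sdiff.mpr ⟨mem_insert_of_mem hq, hqX⟩
    · exact mem_sdiff.mpr ⟨mem_insert_of_mem hq', hqX'⟩
    · rintro rfl
      exact hadj' hqp'.symm
  · refine Finset.one_lt_card.mpr ⟨y, ?_, q, ?_, ?_⟩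
    · exact mem_sdiff.mpr ⟨mem_insert_self _ _, hyX⟩
    · exact mem_sdiff.mpr ⟨mem_insert_of_mem hq, hqX⟩
    · rintro rfl
      exact hpadj hqp.symm

/-- Case I, rows -/
lemma caseI_row {x y : V} (hg : Good G X Y x y)
    (hx1 : priv G X x \ privAll Gᶜ Y ≠ {x}) :
    2 ≤ (insert x (priv G X x \ privAll Gᶜ Y)).card := by
  obtain ⟨p, hp, hpQ, _, _⟩ := exists_A hg
  have hpA : p ∈ priv G X x \ privAll Gᶜ Y := mem_sdiff.mpr ⟨hp, hpQ⟩
  by_cases hpx : p = x
  · -- there is another element
    have : ∃ p' ∈ priv G X x \ privAll Gᶜ Y, p' ≠ x := by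
      by_contra hcon
      push Not at hcon
      apply hx1
      apply Finset.eq_singleton_iff_unique_mem.mpr
      exact ⟨hpx ▸ hpA, hcon⟩
    obtain ⟨p', hp', hne⟩ := this
    exact Finset.one_lt_card.mpr ⟨x, mem_insert_self _ _, p', mem_insert_of_mem hp', hne.symm⟩
  · exact Finset.one_lt_card.mpr ⟨x, mem_insert_self _ _, p, mem_insert_of_mem hpA, Ne.symm hpx⟩

/-- Case II, columns: the conditions on the pair `(x', y)` -/
lemma caseII_col {x y : V} (hx : x ∈ X) (hy : y ∈ Y)
    (h3 : x ∉ dset G X {y}) (h4 : y ∉ dset Gᶜ Y {x})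
    (h5 : ∀ v, v ∈ priv G X x → v ∉ priv Gᶜ Y y)
    (hx1 : priv G X x \ privAll Gᶜ Y = {x}) :
    2 ≤ (insert y (priv Gᶜ Y y \ (privAll G X ∪ X))).card := by
  have hxP : x ∈ priv G X x := by
    have : x ∈ priv G X x \ privAll Gᶜ Y := by rw [hx1]; exact mem_singleton_self x
    exact (mem_sdiff.mp this).1
  obtain ⟨q, hq, hqx⟩ := exists_col hy h4
  have hqX : q ∉ X := notMem_X_of_adj hxP hqx hqx.ne
  have hqP : q ∉ privAll G X := by
    rw [mem_privAll]
    rintro ⟨x'', hx'', hq''⟩
    have : x = x'' := eq_of_mem_priv hq'' hx (Or.inr hqx)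
    rw [← this] at hq''
    exact h5 q hq'' hq
  obtain ⟨p, hp, hpne, hpadj⟩ := exists_row hx h3
  have hpA : p ∈ priv G X x \ privAll Gᶜ Y :=
    mem_sdiff.mpr ⟨hp, row_notMem_privAll hy hp h5 hpne hpadj⟩
  rw [hx1, mem_singleton] at hpA
  rw [hpA] at hpadj
  refine Finset.one_lt_card.mpr ⟨y, mem_insert_self _ _, q, mem_insert_of_mem ?_, ?_⟩
  · rw [mem_sdiff, mem_union]
    exact ⟨hq, fun h => h.elim hqP hqX⟩
  · rintro rfl
    exact hpadj hqx.symm

end local_facts

/-! #### disjointness -/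

lemma disj_insert_priv (G : SimpleGraph V) (X : Finset V) {x x' : V} (hx : x ∈ X) (hx' : x' ∈ X)
    (hne : x ≠ x') : Disjoint (insert x (priv G X x)) (insert x' (priv G X x')) := by
  rw [Finset.disjoint_left]
  intro v h1 h2
  rw [mem_insert] at h1 h2
  rcases h1 with rfl | h1
  · rcases h2 with h2 | h2
    · exact hne h2
    · exact hne (eq_of_mem_priv h2 hx (Or.inl rfl))
  · rcases h2 with rfl | h2
    · exact hne (eq_of_mem_priv h1 hx' (Or.inl rfl)).symm
    · exact (Finset.disjoint_left.mp (priv_disjoint hne)) h1 h2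

/-! #### the main lemma -/

lemma main_two {G : SimpleGraph V} {X Y : Finset V} (hX : IsKMinimal 2 G X)
    (hY : IsKMinimal 2 Gᶜ Y) (hV : 1 ≤ Fintype.card V)
    (hz : ((Y ∩ privAll G X).card : ℝ) ≤ 2 * Real.sqrt (Fintype.card V)) :
    (X.card : ℝ) * Y.card ≤ (Fintype.card V : ℝ) ^ 2 / 16 +
      24 * (Fintype.card V * Real.sqrt (Fintype.card V)) := by
  classical
  set n := Fintype.card V with hn
  set r := Real.sqrt (n : ℝ) with hr
  have hr1 : (1 : ℝ) ≤ r := by
    rw [hr, Real.one_le_sqrt]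
    exact_mod_cast hV
  have hr2 : r * r = n := Real.mul_self_sqrt (by positivity)
  have hD : ∀ v, ((dset G X {v}).card : ℝ) ≤ 3 * r := by
    intro v
    have := dset_card_le (R := {v}) hX (by simp) hV
    rw [← hn, ← hr] at this
    push_cast at this
    linarith
  have hE : ∀ v, ((dset Gᶜ Y {v}).card : ℝ) ≤ 3 * r := by
    intro v
    have := dset_card_le (R := {v}) hY (by simp) hV
    rw [← hn, ← hr] at this
    push_cast at this
    linarith
  have hbad := badTwo_card (3 * r) hD hE
  rw [← hn] at hbad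
  have hXn : (X.card : ℝ) ≤ n := by exact_mod_cast Finset.card_le_univ X
  have hYn : (Y.card : ℝ) ≤ n := by exact_mod_cast Finset.card_le_univ Y
  have hn0 : (0 : ℝ) ≤ n := by positivity
  have hX0 : (0 : ℝ) ≤ X.card := by positivity
  have hY0 : (0 : ℝ) ≤ Y.card := by positivity
  let X1 : Finset V := X.filter (fun x => priv G X x \ privAll Gᶜ Y = {x})
  by_cases hcase : (X1.card : ℝ) ≤ 6 * r
  · -- Case I
    have hw := weights X (Y \ privAll G X) (fun x => insert x (priv G X x \ privAll Gᶜ Y))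
      (fun y => (insert y (priv Gᶜ Y y)) \ X) ?_ ?_ ?_
      (((X \ X1) ×ˢ (Y \ privAll G X)) \ badTwo G X Y) ?_ ?_ ?_
    · rw [← hn] at hw
      have hw' : (16 : ℝ) * ((((X \ X1) ×ˢ (Y \ privAll G X)) \ badTwo G X Y).card : ℝ) ≤
          (n : ℝ) ^ 2 := by exact_mod_cast hw
      have hcov : X.card * Y.card ≤ (((X \ X1) ×ˢ (Y \ privAll G X)) \ badTwo G X Y).card +
          (badTwo G X Y).card + X1.card * Y.card + X.card * (Y ∩ privAll G X).card := by
        have hsub : X ×ˢ Y ⊆ (((((X \ X1) ×ˢ (Y \ privAll G X)) \ badTwo G X Y) ∪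
            badTwo G X Y) ∪ X1 ×ˢ Y) ∪ X ×ˢ (Y ∩ privAll G X) := by
          rintro ⟨x, y⟩ hxy
          rw [mem_product] at hxy
          simp only [mem_union, mem_sdiff, mem_product, mem_inter]
          by_cases h1 : (x, y) ∈ badTwo G X Y
          · exact Or.inl (Or.inl (Or.inr h1))
          by_cases h2 : x ∈ X1
          · exact Or.inl (Or.inr ⟨h2, hxy.2⟩)
          by_cases h3 : y ∈ privAll G X
          · exact Or.inr ⟨hxy.1, hxy.2, h3⟩
          exact Or.inl (Or.inl (Or.inl ⟨⟨⟨hxy.1, h2⟩, ⟨hxy.2, h3⟩⟩, h1⟩))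
        have h4 := Finset.card_le_card hsub
        rw [Finset.card_product] at h4
        refine h4.trans ?_
        refine (Finset.card_union_le _ _).trans ?_
        rw [Finset.card_product X]
        refine Nat.add_le_add_right ?_ _
        refine (Finset.card_union_le _ _).trans ?_
        rw [Finset.card_product X1]
        refine Nat.add_le_add_right ?_ _
        exact Finset.card_union_le _ _
      have hcov' : (X.card : ℝ) * Y.card ≤
          ((((X \ X1) ×ˢ (Y \ privAll G X)) \ badTwo G X Y).card : ℝ) +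
          (badTwo G X Y).card + X1.card * Y.card + X.card * (Y ∩ privAll G X).card := by
        exact_mod_cast hcov
      have e1 : (X1.card : ℝ) * Y.card ≤ 6 * r * n :=
        mul_le_mul hcase hYn hY0 (by positivity)
      have e2 : (X.card : ℝ) * (Y ∩ privAll G X).card ≤ n * (2 * r) :=
        mul_le_mul hXn hz (by positivity) hn0
      nlinarith
    · intro x hx x' hx' hne
      refine Finset.disjoint_of_subset_left ?_ (Finset.disjoint_of_subset_right ?_
        (disj_insert_priv G X hx hx' hne))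
      · exact insert_subset_insert _ sdiff_subset
      · exact insert_subset_insert _ sdiff_subset
    · intro y hy y' hy' hne
      rw [mem_sdiff] at hy hy'
      refine Finset.disjoint_of_subset_left sdiff_subset (Finset.disjoint_of_subset_right
        sdiff_subset (disj_insert_priv Gᶜ Y hy.1 hy'.1 hne))
    · intro x hx y hy
      rw [mem_sdiff] at hy
      rw [Finset.disjoint_left]
      intro v hv hv'
      rw [mem_sdiff, mem_insert] at hv'
      rw [mem_insert, mem_sdiff] at hv
      rcases hv with rfl | ⟨hv1, hv2⟩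
      · exact hv'.2 hx
      · rcases hv'.1 with rfl | h3
        · exact hy.2 (priv_subset_privAll hv1)
        · exact hv2 (priv_subset_privAll h3)
    · refine sdiff_subset.trans ?_
      exact product_subset_product_left sdiff_subset
    · rintro ⟨x, y⟩ hxy
      rw [mem_sdiff, mem_product, mem_sdiff, mem_sdiff] at hxy
      obtain ⟨⟨⟨hx, hx1⟩, hy, hy1⟩, hb⟩ := hxy
      apply caseI_row (good_of_not_bad hx hy hb)
      intro heq
      exact hx1 (mem_filter.mpr ⟨hx, heq⟩)
    · rintro ⟨x, y⟩ hxy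
      rw [mem_sdiff, mem_product, mem_sdiff, mem_sdiff] at hxy
      obtain ⟨⟨⟨hx, hx1⟩, hy, hy1⟩, hb⟩ := hxy
      exact caseI_col (good_of_not_bad hx hy hb)
  · -- Case II
    push Not at hcase
    let Yb : Finset V := Y.filter (fun y => ∀ x' ∈ X1, x' ∈ dset G X {y} ∨ y ∈ dset Gᶜ Y {x'} ∨
      ∃ v, v ∈ priv G X x' ∧ v ∈ priv Gᶜ Y y)
    have hYb : (Yb.card : ℝ) ≤ 7 * r := by
      -- owners
      let ox : V → V := fun v => if h : ∃ x, v ∈ priv G X x then h.choose else v
      let oy : V → V := fun v => if h : ∃ y, v ∈ priv Gᶜ Y y then h.choose else v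
      have hox : ∀ v x, v ∈ priv G X x → ox v = x := by
        intro v x hv
        have h : ∃ x, v ∈ priv G X x := ⟨x, hv⟩
        have h1 := h.choose_spec
        simp only [ox, dif_pos h]
        rw [mem_priv] at h1 hv
        rw [h1] at hv
        exact singleton_injective hv
      have hoy : ∀ v y, v ∈ priv Gᶜ Y y → oy v = y := by
        intro v y hv
        have h : ∃ y, v ∈ priv Gᶜ Y y := ⟨y, hv⟩
        have h1 := h.choose_spec
        simp only [oy, dif_pos h]
        rw [mem_priv] at h1 hv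
        rw [h1] at hv
        exact singleton_injective hv
      let T1 : Finset (V × V) := Yb.biUnion (fun y => (dset G X {y}).image (fun x => (x, y)))
      let T2 : Finset (V × V) := X1.biUnion (fun x => (dset Gᶜ Y {x}).image (fun y => (x, y)))
      let T3 : Finset (V × V) := univ.image (fun v : V => (ox v, oy v))
      have hsub : X1 ×ˢ Yb ⊆ T1 ∪ T2 ∪ T3 := by
        rintro ⟨x, y⟩ hxy
        rw [mem_product] at hxy
        simp only [T1, T2, T3, mem_union, mem_biUnion, mem_image, mem_univ, true_and]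
        rcases (mem_filter.mp hxy.2).2 x hxy.1 with h | h | ⟨v, hv, hv'⟩
        · exact Or.inl (Or.inl ⟨y, hxy.2, x, h, rfl⟩)
        · exact Or.inl (Or.inr ⟨x, hxy.1, y, h, rfl⟩)
        · exact Or.inr ⟨v, by rw [hox v x hv, hoy v y hv']⟩
      have h1 := Finset.card_le_card hsub
      rw [Finset.card_product] at h1
      have h2 : ((T1 ∪ T2 ∪ T3).card : ℝ) ≤ T1.card + T2.card + T3.card := by
        have := (Finset.card_union_le (T1 ∪ T2) T3).trans
          (Nat.add_le_add_right (Finset.card_union_le T1 T2) _)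
        exact_mod_cast this
      have hT1 : (T1.card : ℝ) ≤ Yb.card * (3 * r) := by
        have : T1.card ≤ ∑ y ∈ Yb, (dset G X {y}).card :=
          card_biUnion_le.trans (sum_le_sum fun v _ => card_image_le)
        calc (T1.card : ℝ) ≤ ∑ y ∈ Yb, ((dset G X {y}).card : ℝ) := by exact_mod_cast this
          _ ≤ ∑ y ∈ Yb, 3 * r := sum_le_sum fun v _ => hD v
          _ = Yb.card * (3 * r) := by rw [sum_const, nsmul_eq_mul]
      have hT2 : (T2.card : ℝ) ≤ X1.card * (3 * r) := by
        have : T2.card ≤ ∑ x ∈ X1, (dset Gᶜ Y {x}).card :=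
          card_biUnion_le.trans (sum_le_sum fun v _ => card_image_le)
        calc (T2.card : ℝ) ≤ ∑ x ∈ X1, ((dset Gᶜ Y {x}).card : ℝ) := by exact_mod_cast this
          _ ≤ ∑ x ∈ X1, 3 * r := sum_le_sum fun v _ => hE v
          _ = X1.card * (3 * r) := by rw [sum_const, nsmul_eq_mul]
      have hT3 : (T3.card : ℝ) ≤ n := by
        have : T3.card ≤ Fintype.card V := by
          rw [← Finset.card_univ]
          exact card_image_le
        exact_mod_cast this
      have h3 : (X1.card : ℝ) * Yb.card ≤ Yb.card * (3 * r) + X1.card * (3 * r) + n := by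
        have : (X1.card : ℝ) * Yb.card ≤ ((T1 ∪ T2 ∪ T3).card : ℝ) := by exact_mod_cast h1
        linarith
      set a := (X1.card : ℝ)
      set b := (Yb.card : ℝ)
      by_contra hcon
      push Not at hcon
      -- a > 6 r, b > 7 r : a b ≤ 3 r b + 3 r a + r²
      nlinarith [mul_pos (sub_pos.mpr hcase) (sub_pos.mpr hcon)]
    have hw := weights X (Y \ privAll G X) (fun x => priv G X x)
      (fun y => insert y (priv Gᶜ Y y \ (privAll G X ∪ X))) ?_ ?_ ?_
      ((X ×ˢ ((Y \ privAll G X) \ Yb)) \ badTwo G X Y) ?_ ?_ ?_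
    · rw [← hn] at hw
      have hw' : (16 : ℝ) * (((X ×ˢ ((Y \ privAll G X) \ Yb)) \ badTwo G X Y).card : ℝ) ≤
          (n : ℝ) ^ 2 := by exact_mod_cast hw
      have hcov : X.card * Y.card ≤ ((X ×ˢ ((Y \ privAll G X) \ Yb)) \ badTwo G X Y).card +
          (badTwo G X Y).card + X.card * Yb.card + X.card * (Y ∩ privAll G X).card := by
        have hsub : X ×ˢ Y ⊆ ((((X ×ˢ ((Y \ privAll G X) \ Yb)) \ badTwo G X Y) ∪
            badTwo G X Y) ∪ X ×ˢ Yb) ∪ X ×ˢ (Y ∩ privAll G X) := by
          rintro ⟨x, y⟩ hxy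
          rw [mem_product] at hxy
          simp only [mem_union, mem_sdiff, mem_product, mem_inter]
          by_cases h1 : (x, y) ∈ badTwo G X Y
          · exact Or.inl (Or.inl (Or.inr h1))
          by_cases h2 : y ∈ Yb
          · exact Or.inl (Or.inr ⟨hxy.1, h2⟩)
          by_cases h3 : y ∈ privAll G X
          · exact Or.inr ⟨hxy.1, hxy.2, h3⟩
          exact Or.inl (Or.inl (Or.inl ⟨⟨hxy.1, ⟨hxy.2, h3⟩, h2⟩, h1⟩))
        have h4 := Finset.card_le_card hsub
        rw [Finset.card_product] at h4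
        refine h4.trans ?_
        refine (Finset.card_union_le _ _).trans ?_
        rw [Finset.card_product X (Y ∩ privAll G X)]
        refine Nat.add_le_add_right ?_ _
        refine (Finset.card_union_le _ _).trans ?_
        rw [Finset.card_product X Yb]
        refine Nat.add_le_add_right ?_ _
        exact Finset.card_union_le _ _
      have hcov' : (X.card : ℝ) * Y.card ≤
          (((X ×ˢ ((Y \ privAll G X) \ Yb)) \ badTwo G X Y).card : ℝ) +
          (badTwo G X Y).card + X.card * Yb.card + X.card * (Y ∩ privAll G X).card := by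
        exact_mod_cast hcov
      have e1 : (X.card : ℝ) * Yb.card ≤ n * (7 * r) :=
        mul_le_mul hXn hYb (by positivity) hn0
      have e2 : (X.card : ℝ) * (Y ∩ privAll G X).card ≤ n * (2 * r) :=
        mul_le_mul hXn hz (by positivity) hn0
      nlinarith
    · intro x hx x' hx' hne
      exact priv_disjoint hne
    · intro y hy y' hy' hne
      rw [mem_sdiff] at hy hy'
      refine Finset.disjoint_of_subset_left ?_ (Finset.disjoint_of_subset_right ?_
        (disj_insert_priv Gᶜ Y hy.1 hy'.1 hne))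
      · exact insert_subset_insert _ sdiff_subset
      · exact insert_subset_insert _ sdiff_subset
    · intro x hx y hy
      rw [mem_sdiff] at hy
      rw [Finset.disjoint_left]
      intro v hv hv'
      rw [mem_insert, mem_sdiff, mem_union] at hv'
      rcases hv' with rfl | ⟨hv1, hv2⟩
      · exact hy.2 (priv_subset_privAll hv)
      · exact hv2 (Or.inl (priv_subset_privAll hv))
    · refine sdiff_subset.trans ?_
      exact product_subset_product_right sdiff_subset
    · rintro ⟨x, y⟩ hxy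
      rw [mem_sdiff, mem_product, mem_sdiff, mem_sdiff] at hxy
      obtain ⟨⟨hx, ⟨hy, hy1⟩, hy2⟩, hb⟩ := hxy
      exact two_le_priv (good_of_not_bad hx hy hb)
    · rintro ⟨x, y⟩ hxy
      rw [mem_sdiff, mem_product, mem_sdiff, mem_sdiff] at hxy
      obtain ⟨⟨hx, ⟨hy, hy1⟩, hy2⟩, hb⟩ := hxy
      have hy3 : ¬ (∀ x' ∈ X1, x' ∈ dset G X {y} ∨ y ∈ dset Gᶜ Y {x'} ∨
          ∃ v, v ∈ priv G X x' ∧ v ∈ priv Gᶜ Y y) := fun h => hy2 (mem_filter.mpr ⟨hy, h⟩)
      push Not at hy3
      obtain ⟨x', hx', h1, h2, h3⟩ := hy3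
      obtain ⟨hx'X, hx'1⟩ := mem_filter.mp hx'
      exact caseII_col hx'X hy h1 h2 h3 hx'1

lemma cross_card (G : SimpleGraph V) (X Y : Finset V) :
    (X ∩ privAll Gᶜ Y).card * (Y ∩ privAll G X).card ≤ 3 * Fintype.card V := by
  classical
  let ox : V → V := fun v => if h : ∃ x, v ∈ priv G X x then h.choose else v
  let oy : V → V := fun v => if h : ∃ y, v ∈ priv Gᶜ Y y then h.choose else v
  have hox : ∀ v x, v ∈ priv G X x → ox v = x := by
    intro v x hv
    have h : ∃ x, v ∈ priv G X x := ⟨x, hv⟩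
    have h1 := h.choose_spec
    simp only [ox, dif_pos h]
    rw [mem_priv] at h1 hv
    rw [h1] at hv
    exact singleton_injective hv
  have hoy : ∀ v y, v ∈ priv Gᶜ Y y → oy v = y := by
    intro v y hv
    have h : ∃ y, v ∈ priv Gᶜ Y y := ⟨y, hv⟩
    have h1 := h.choose_spec
    simp only [oy, dif_pos h]
    rw [mem_priv] at h1 hv
    rw [h1] at hv
    exact singleton_injective hv
  rw [← Finset.card_product]
  have hsub : (X ∩ privAll Gᶜ Y) ×ˢ (Y ∩ privAll G X) ⊆
      (univ.image (fun v : V => (v, v)) ∪ univ.image (fun v : V => (ox v, v))) ∪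
        univ.image (fun v : V => (v, oy v)) := by
    rintro ⟨x, y⟩ hxy
    rw [mem_product, mem_inter, mem_inter] at hxy
    obtain ⟨⟨hx, hxQ⟩, hy, hyP⟩ := hxy
    simp only at hx hxQ hy hyP
    simp only [mem_union, mem_image, mem_univ, true_and]
    by_cases hne : x = y
    · exact Or.inl (Or.inl ⟨x, by rw [hne]⟩)
    by_cases hadj : G.Adj x y
    · left
      right
      obtain ⟨x', hx', hy'⟩ := mem_privAll.mp hyP
      refine ⟨y, ?_⟩
      rw [hox y x' hy']
      rw [eq_of_mem_priv hy' hx (Or.inr hadj.symm)]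
    · right
      obtain ⟨y', hy', hx'⟩ := mem_privAll.mp hxQ
      refine ⟨x, ?_⟩
      rw [hoy x y' hx']
      rw [eq_of_mem_priv hx' hy (Or.inr (by rw [SimpleGraph.compl_adj]; exact ⟨hne, hadj⟩))]
  have h1 := Finset.card_le_card hsub
  have h2 : ∀ f : V → V × V, ((univ : Finset V).image f).card ≤ Fintype.card V := by
    intro f
    rw [← Finset.card_univ]
    exact card_image_le
  have h3 := Finset.card_union_le (univ.image (fun v : V => (v, v)) ∪
    univ.image (fun v : V => (ox v, v))) (univ.image (fun v : V => (v, oy v)))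
  have h4 := Finset.card_union_le (univ.image (fun v : V => (v, v)))
    (univ.image (fun v : V => (ox v, v)))
  have h5 := h2 (fun v : V => (v, v))
  have h6 := h2 (fun v : V => (ox v, v))
  have h7 := h2 (fun v : V => (v, oy v))
  omega

/-- The upper bound for `k = 2`. -/
lemma upper_two {G : SimpleGraph V} {X Y : Finset V} (hX : IsKMinimal 2 G X)
    (hY : IsKMinimal 2 Gᶜ Y) :
    (X.card : ℝ) * Y.card ≤ (Fintype.card V : ℝ) ^ 2 / 16 +
      24 * (Fintype.card V * Real.sqrt (Fintype.card V)) := by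
  rcases Nat.eq_zero_or_pos (Fintype.card V) with hV | hV
  · have h1 : X.card = 0 := by
      have := Finset.card_le_univ X
      omega
    rw [h1]
    push_cast
    rw [zero_mul]
    positivity
  have hcross := cross_card G X Y
  by_cases h : ((Y ∩ privAll G X).card : ℝ) ≤ 2 * Real.sqrt (Fintype.card V)
  · exact main_two hX hY hV h
  · push Not at h
    have h2 : ((X ∩ privAll Gᶜ Y).card : ℝ) ≤ 2 * Real.sqrt (Fintype.card V) := by
      by_contra hcon
      push Not at hcon
      have h3 : ((X ∩ privAll Gᶜ Y).card : ℝ) * ((Y ∩ privAll G X).card : ℝ) ≤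
          3 * Fintype.card V := by exact_mod_cast hcross
      have h4 : (2 * Real.sqrt (Fintype.card V)) * (2 * Real.sqrt (Fintype.card V)) ≤
          ((X ∩ privAll Gᶜ Y).card : ℝ) * ((Y ∩ privAll G X).card : ℝ) :=
        mul_le_mul hcon.le h.le (by positivity) (by positivity)
      have h5 : Real.sqrt (Fintype.card V) * Real.sqrt (Fintype.card V) =
          (Fintype.card V : ℝ) := Real.mul_self_sqrt (by positivity)
      have h6 : (0 : ℝ) < Fintype.card V := by exact_mod_cast hV
      nlinarith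
    have hX' : IsKMinimal 2 Gᶜᶜ X := by rw [compl_compl]; exact hX
    have h3 := main_two (G := Gᶜ) (X := Y) (Y := X) hY hX' hV h2
    rw [mul_comm]
    exact h3

end two

end Pool.Agent.KMinDom
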