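import Mathlib
import Pool.Agent.KMinDom.Basic
import Pool.Agent.KMinDom.Upper
import Pool.Agent.KMinDom.Two

namespace Pool.Agent.KMinDom

open Finset

set_option linter.unusedSectionVars false

/-! ### a finite lemma on rectangles -/

section rect

variable {α β : Type} [DecidableEq α] [DecidableEq β]

/-- a set with at most two elements, inside `T` nonempty, is contained in a pair from `T`. -/
lemma exists_pair_of_card_le_two {S T : Finset α} (hS : S ⊆ T) (hT : T.Nonempty)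
    (h : S.card ≤ 2) : ∃ a ∈ T, ∃ b ∈ T, ∀ s ∈ S, s = a ∨ s = b := by
  obtain ⟨t, ht⟩ := hT
  rcases Nat.lt_or_ge S.card 1 with h0 | h0
  · have : S = ∅ := Finset.card_eq_zero.mp (by omega)
    exact ⟨t, ht, t, ht, by simp [this]⟩
  rcases Nat.lt_or_ge S.card 2 with h1 | h1
  · obtain ⟨a, ha⟩ := Finset.card_eq_one.mp (show S.card = 1 by omega)
    have haT : a ∈ T := hS (by rw [ha]; exact mem_singleton_self a)
    exact ⟨a, haT, a, haT, by simp [ha]⟩
  · obtain ⟨a, b, _, hab⟩ := Finset.card_eq_two.mp (show S.card = 2 by omega)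
    have haT : a ∈ T := hS (by rw [hab]; simp)
    have hbT : b ∈ T := hS (by rw [hab]; simp)
    exact ⟨a, haT, b, hbT, by simp [hab]⟩

variable {A : α → β → Prop} {S : Finset α} {T : Finset β}

/-- two columns cannot cover the rows -/
lemma rect_not_cover (hR : ∀ c1 ∈ T, ∀ c2 ∈ T, ∃ p ∈ S, ¬ A p c1 ∧ ¬ A p c2)
    (hC : ∀ r1 ∈ S, ∀ r2 ∈ S, ∃ q ∈ T, A r1 q ∧ A r2 q) (hS : S.Nonempty)
    (S1 : Finset α) (hS1 : S1 ⊆ S) (hc : S1.card ≤ 2) (q : β) (hq : q ∈ T)
    (h : ∀ p ∈ S, p ∉ S1 → A p q) : False := by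
  obtain ⟨a, ha, b, hb, hab⟩ := exists_pair_of_card_le_two hS1 hS hc
  obtain ⟨q2, hq2, h1, h2⟩ := hC a ha b hb
  obtain ⟨p, hp, h3, h4⟩ := hR q hq q2 hq2
  by_cases hp1 : p ∈ S1
  · rcases hab p hp1 with rfl | rfl
    · exact h4 h1
    · exact h4 h2
  · exact h3 (h p hp hp1)

lemma rect_five_le (hR : ∀ c1 ∈ T, ∀ c2 ∈ T, ∃ p ∈ S, ¬ A p c1 ∧ ¬ A p c2)
    (hC : ∀ r1 ∈ S, ∀ r2 ∈ S, ∃ q ∈ T, A r1 q ∧ A r2 q) (hS : S.Nonempty) :
    5 ≤ S.card := by
  by_contra hcon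
  push Not at hcon
  -- split S in two parts with at most two elements
  have : ∃ S1 ⊆ S, S1.card ≤ 2 ∧ (S \ S1).card ≤ 2 := by
    rcases Nat.lt_or_ge S.card 2 with h | h
    · exact ⟨∅, Finset.empty_subset _, by simp, by simp; omega⟩
    · obtain ⟨S1, hS1, hc⟩ := Finset.exists_subset_card_eq h
      refine ⟨S1, hS1, hc.le, ?_⟩
      rw [Finset.card_sdiff_of_subset hS1]
      omega
  obtain ⟨S1, hS1, hc1, hc2⟩ := this
  obtain ⟨a, ha, b, hb, hab⟩ := exists_pair_of_card_le_two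
    (show S \ S1 ⊆ S from sdiff_subset) hS hc2
  obtain ⟨q, hq, h1, h2⟩ := hC a ha b hb
  refine rect_not_cover hR hC hS S1 hS1 hc1 q hq ?_
  intro p hp hp1
  rcases hab p (mem_sdiff.mpr ⟨hp, hp1⟩) with rfl | rfl
  · exact h1
  · exact h2

lemma rect_ten_le (hR : ∀ c1 ∈ T, ∀ c2 ∈ T, ∃ p ∈ S, ¬ A p c1 ∧ ¬ A p c2)
    (hC : ∀ r1 ∈ S, ∀ r2 ∈ S, ∃ q ∈ T, A r1 q ∧ A r2 q) (hS : S.card = 5) :
    10 ≤ T.card := by
  classical
  have hSne : S.Nonempty := Finset.card_pos.mp (by omega)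
  have hsmall : ∀ q ∈ T, (S.filter (fun p => A p q)).card ≤ 2 := by
    intro q hq
    by_contra hcon
    push Not at hcon
    refine rect_not_cover hR hC hSne (S.filter (fun p => ¬ A p q)) (filter_subset _ _) ?_ q hq ?_
    · have := Finset.card_filter_add_card_filter_not (s := S) (fun p => A p q)
      omega
    · intro p hp hp1
      by_contra hA
      exact hp1 (mem_filter.mpr ⟨hp, hA⟩)
  have hex : ∀ e ∈ Finset.powersetCard 2 S, ∃ q ∈ T, e = S.filter (fun p => A p q) := by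
    intro e he
    rw [mem_powersetCard] at he
    obtain ⟨a, b, hab, heq⟩ := Finset.card_eq_two.mp he.2
    have ha : a ∈ S := he.1 (by rw [heq]; simp)
    have hb : b ∈ S := he.1 (by rw [heq]; simp)
    obtain ⟨q, hq, h1, h2⟩ := hC a ha b hb
    refine ⟨q, hq, ?_⟩
    apply Finset.eq_of_subset_of_card_le
    · intro s hs
      rw [heq, mem_insert, mem_singleton] at hs
      rcases hs with rfl | rfl
      · exact mem_filter.mpr ⟨ha, h1⟩
      · exact mem_filter.mpr ⟨hb, h2⟩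
    · rw [he.2]
      exact hsmall q hq
  have hsub : Finset.powersetCard 2 S ⊆ T.image (fun q => S.filter (fun p => A p q)) := by
    intro e he
    obtain ⟨q, hq, h⟩ := hex e he
    exact mem_image.mpr ⟨q, hq, h.symm⟩
  have h1 := card_le_card hsub
  rw [card_powersetCard, hS] at h1
  have h2 : (T.image (fun q => S.filter (fun p => A p q))).card ≤ T.card := card_image_le
  have h3 : Nat.choose 5 2 = 10 := by decide
  omega

end rect

section three

variable {V : Type} [Fintype V] [DecidableEq V]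

/-- good pairs, `k = 3` -/
structure Good3 (G : SimpleGraph V) (X Y : Finset V) (x y : V) : Prop where
  hx : x ∈ X
  hy : y ∈ Y
  gR : ∀ c1 ∈ insert y (priv Gᶜ Y y), ∀ c2 ∈ insert y (priv Gᶜ Y y), x ∉ dset G X {c1, c2}
  gC : ∀ r1 ∈ insert x (priv G X x), ∀ r2 ∈ insert x (priv G X x), y ∉ dset Gᶜ Y {r1, r2}
  g5 : ∀ v, v ∈ priv G X x → v ∉ priv Gᶜ Y y
  g6 : x ∉ priv Gᶜ Y y
  g7 : y ∉ priv G X x

lemma Good3.dual {G : SimpleGraph V} {X Y : Finset V} {x y : V} (h : Good3 G X Y x y) :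
    Good3 Gᶜ Y X y x := by
  have e : Gᶜᶜ = G := compl_compl G
  refine ⟨h.hy, h.hx, ?_, ?_, ?_, ?_, ?_⟩
  · rw [e]; exact h.gC
  · rw [e]; exact h.gR
  · rw [e]; exact fun v hv hv' => h.g5 v hv' hv
  · rw [e]; exact h.g7
  · exact h.g6

/-- `θ = 1` family on the `X` side -/
noncomputable def famF (G : SimpleGraph V) (X Y : Finset V) (x : V) : Finset V :=
  insert x (priv G X x) \ Y

/-- `θ = 1` family on the `Y` side -/
noncomputable def famH (G : SimpleGraph V) (X Y : Finset V) (y : V) : Finset V :=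
  insert y (priv Gᶜ Y y \ (privAll G X ∪ X))

variable {G : SimpleGraph V} {X Y : Finset V} {x y : V}

/-- a private vertex of `x` outside the closed neighbourhoods of `c1`, `c2` -/
lemma Good3.row (h : Good3 G X Y x y) {c1 c2 : V} (h1 : c1 ∈ insert y (priv Gᶜ Y y))
    (h2 : c2 ∈ insert y (priv Gᶜ Y y)) :
    ∃ p ∈ priv G X x, (p ≠ c1 ∧ ¬ G.Adj p c1) ∧ (p ≠ c2 ∧ ¬ G.Adj p c2) := by
  have h3 := h.gR c1 h1 c2 h2
  rw [mem_dset] at h3
  push Not at h3
  obtain ⟨v, hv, hvd⟩ := h3 h.hx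
  refine ⟨v, hv, ⟨?_, ?_⟩, ⟨?_, ?_⟩⟩
  · rintro rfl
    exact hvd ⟨v, by simp, Or.inl rfl⟩
  · intro hadj
    exact hvd ⟨c1, by simp, Or.inr hadj⟩
  · rintro rfl
    exact hvd ⟨v, by simp, Or.inl rfl⟩
  · intro hadj
    exact hvd ⟨c2, by simp, Or.inr hadj⟩

/-- a co-private vertex of `y` adjacent to `r1`, `r2` -/
lemma Good3.col (h : Good3 G X Y x y) {r1 r2 : V} (h1 : r1 ∈ insert x (priv G X x))
    (h2 : r2 ∈ insert x (priv G X x)) :
    ∃ q ∈ priv Gᶜ Y y, G.Adj q r1 ∧ G.Adj q r2 := by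
  have e : Gᶜᶜ = G := compl_compl G
  obtain ⟨q, hq, ⟨hq1, hq2⟩, ⟨hq3, hq4⟩⟩ := h.dual.row (c1 := r1) (c2 := r2)
    (by rw [e]; exact h1) (by rw [e]; exact h2)
  rw [SimpleGraph.compl_adj] at hq2 hq4
  push Not at hq2 hq4
  exact ⟨q, hq, hq2 hq1, hq4 hq3⟩

/-- a column adjacent to a private vertex of `x` and outside... -/
lemma Good3.col_notMem (h : Good3 G X Y x y) {p q : V} (hp : p ∈ priv G X x)
    (hq : q ∈ priv Gᶜ Y y) (hqp : G.Adj q p) : q ∉ X := by
  intro hqX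
  have := eq_of_mem_priv hp hqX (Or.inr hqp.symm)
  rw [this] at hq
  exact h.g6 hq

/-- nonemptiness of the private set -/
lemma Good3.priv_nonempty (h : Good3 G X Y x y) : (priv G X x).Nonempty := by
  obtain ⟨p, hp, _⟩ := h.row (c1 := y) (c2 := y) (mem_insert_self _ _) (mem_insert_self _ _)
  exact ⟨p, hp⟩

/-- the columns adjacent to `x` -/
lemma Good3.exists_O (h : Good3 G X Y x y) {p : V} (hp : p ∈ priv G X x) :
    ∃ q, (q ∈ priv Gᶜ Y y ∧ q ∉ X ∧ G.Adj q x) ∧ G.Adj q p := by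
  obtain ⟨q, hq, hqx, hqp⟩ := h.col (r1 := x) (r2 := p) (mem_insert_self _ _)
    (mem_insert_of_mem hp)
  exact ⟨q, ⟨hq, h.col_notMem hp hq hqp, hqx⟩, hqp⟩

open Classical in
/-- the set `O'` -/
noncomputable def setO (G : SimpleGraph V) (X Y : Finset V) (x y : V) : Finset V :=
  (priv Gᶜ Y y).filter (fun q => q ∉ X ∧ G.Adj q x)

lemma mem_setO {q : V} : q ∈ setO G X Y x y ↔ q ∈ priv Gᶜ Y y ∧ q ∉ X ∧ G.Adj q x := by
  simp [setO]

lemma Good3.three_le_setO (h : Good3 G X Y x y) : 3 ≤ (setO G X Y x y).card := by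
  by_contra hcon
  push Not at hcon
  obtain ⟨a, ha, b, hb, hab⟩ := exists_pair_of_card_le_two (S := setO G X Y x y)
    (T := insert y (priv Gᶜ Y y))
    (fun q hq => mem_insert_of_mem (mem_setO.mp hq).1) ⟨y, mem_insert_self _ _⟩ (by omega)
  obtain ⟨p, hp, ⟨_, hp1⟩, ⟨_, hp2⟩⟩ := h.row ha hb
  obtain ⟨q, hq, hqp⟩ := h.exists_O hp
  rcases hab q (mem_setO.mpr hq) with rfl | rfl
  · exact hp1 hqp.symm
  · exact hp2 hqp.symm

lemma Good3.setO_subset (h : Good3 G X Y x y) : setO G X Y x y ⊆ famH G X Y y := by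
  intro q hq
  rw [mem_setO] at hq
  obtain ⟨hq1, hq2, hq3⟩ := hq
  refine mem_insert_of_mem ?_
  rw [mem_sdiff, mem_union]
  refine ⟨hq1, fun hor => hor.elim ?_ hq2⟩
  intro hP
  obtain ⟨x'', hx'', hq''⟩ := mem_privAll.mp hP
  have : x = x'' := eq_of_mem_priv hq'' h.hx (Or.inr hq3)
  rw [← this] at hq''
  exact h.g5 q hq'' hq1

lemma Good3.three_le_famH (h : Good3 G X Y x y) : 3 ≤ (famH G X Y y).card :=
  h.three_le_setO.trans (card_le_card h.setO_subset)

/-- if `H_y` has only three elements then `y` is adjacent to `x` -/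
lemma Good3.adj_of_famH (h : Good3 G X Y x y) (h3 : (famH G X Y y).card ≤ 3) : G.Adj x y := by
  have heq : setO G X Y x y = famH G X Y y :=
    Finset.eq_of_subset_of_card_le h.setO_subset (h3.trans h.three_le_setO)
  have hy : y ∈ famH G X Y y := mem_insert_self _ _
  rw [← heq, mem_setO] at hy
  exact hy.2.2.symm

/-- rows of the reduced rectangle -/
lemma Good3.row' (h : Good3 G X Y x y) {c1 c2 : V} (h1 : c1 ∈ priv Gᶜ Y y \ X)
    (h2 : c2 ∈ priv Gᶜ Y y \ X) :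
    ∃ p ∈ priv G X x \ Y, ¬ G.Adj p c1 ∧ ¬ G.Adj p c2 := by
  obtain ⟨p, hp, ⟨hp1, hp2⟩, ⟨hp3, hp4⟩⟩ := h.row (mem_insert_of_mem (mem_sdiff.mp h1).1)
    (mem_insert_of_mem (mem_sdiff.mp h2).1)
  refine ⟨p, mem_sdiff.mpr ⟨hp, ?_⟩, hp2, hp4⟩
  intro hpY
  have : p = y := by
    apply eq_of_mem_priv (mem_sdiff.mp h1).1 hpY
    right
    rw [SimpleGraph.compl_adj]
    exact ⟨hp1.symm, fun hadj => hp2 hadj.symm⟩
  rw [this] at hp
  exact h.g7 hp

lemma Good3.col' (h : Good3 G X Y x y) {r1 r2 : V} (h1 : r1 ∈ priv G X x \ Y)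
    (h2 : r2 ∈ priv G X x \ Y) :
    ∃ q ∈ priv Gᶜ Y y \ X, G.Adj r1 q ∧ G.Adj r2 q := by
  obtain ⟨q, hq, hq1, hq2⟩ := h.col (mem_insert_of_mem (mem_sdiff.mp h1).1)
    (mem_insert_of_mem (mem_sdiff.mp h2).1)
  exact ⟨q, mem_sdiff.mpr ⟨hq, h.col_notMem (mem_sdiff.mp h1).1 hq hq1⟩, hq1.symm, hq2.symm⟩

lemma Good3.cols_nonempty (h : Good3 G X Y x y) : (priv Gᶜ Y y \ X).Nonempty := by
  obtain ⟨p, hp⟩ := h.priv_nonempty
  obtain ⟨q, hq, _⟩ := h.exists_O hp
  exact ⟨q, mem_sdiff.mpr ⟨hq.1, hq.2.1⟩⟩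

lemma Good3.rows_nonempty (h : Good3 G X Y x y) : (priv G X x \ Y).Nonempty := by
  obtain ⟨q, hq⟩ := h.cols_nonempty
  obtain ⟨p, hp, _⟩ := h.row' hq hq
  exact ⟨p, hp⟩

lemma rows_subset_famF : priv G X x \ Y ⊆ famF G X Y x :=
  sdiff_subset_sdiff (subset_insert _ _) (le_refl _)

lemma Good3.five_le_famF (h : Good3 G X Y x y) : 5 ≤ (famF G X Y x).card := by
  have h1 := rect_five_le (A := G.Adj) (fun c1 hc1 c2 hc2 => h.row' hc1 hc2)
    (fun r1 hr1 r2 hr2 => h.col' hr1 hr2) h.rows_nonempty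
  exact h1.trans (card_le_card rows_subset_famF)

/-- if `F_x` has only five elements then `Q_y \ X` has at least ten -/
lemma Good3.ten_le_of_famF (h : Good3 G X Y x y) (h5 : (famF G X Y x).card ≤ 5) :
    10 ≤ (famF Gᶜ Y X y).card := by
  have h1 := rect_five_le (A := G.Adj) (fun c1 hc1 c2 hc2 => h.row' hc1 hc2)
    (fun r1 hr1 r2 hr2 => h.col' hr1 hr2) h.rows_nonempty
  have h2 := card_le_card (rows_subset_famF (G := G) (X := X) (Y := Y) (x := x))
  have h3 := rect_ten_le (A := G.Adj) (fun c1 hc1 c2 hc2 => h.row' hc1 hc2)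
    (fun r1 hr1 r2 hr2 => h.col' hr1 hr2) (show (priv G X x \ Y).card = 5 by omega)
  exact h3.trans (card_le_card rows_subset_famF)

/-! #### the families -/

lemma famF_disjoint {x x' : V} (hx : x ∈ X) (hx' : x' ∈ X) (hne : x ≠ x') :
    Disjoint (famF G X Y x) (famF G X Y x') :=
  Finset.disjoint_of_subset_left sdiff_subset (Finset.disjoint_of_subset_right sdiff_subset
    (disj_insert_priv G X hx hx' hne))

lemma famH_disjoint {y y' : V} (hy : y ∈ Y) (hy' : y' ∈ Y) (hne : y ≠ y') :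
    Disjoint (famH G X Y y) (famH G X Y y') := by
  refine Finset.disjoint_of_subset_left ?_ (Finset.disjoint_of_subset_right ?_
    (disj_insert_priv Gᶜ Y hy hy' hne))
  · exact insert_subset_insert _ sdiff_subset
  · exact insert_subset_insert _ sdiff_subset

lemma famF_famH_disjoint {x y : V} (hx : x ∈ X) (hy : y ∈ Y) :
    Disjoint (famF G X Y x) (famH G X Y y) := by
  rw [Finset.disjoint_left]
  intro v hv hv'
  simp only [famF, famH, mem_sdiff, mem_insert, mem_union, not_or] at hv hv'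
  obtain ⟨hv1, hv2⟩ := hv
  rcases hv' with rfl | ⟨_, hv3, hv4⟩
  · exact hv2 hy
  · rcases hv1 with rfl | hv1
    · exact hv4 hx
    · exact hv3 (priv_subset_privAll hv1)

/-- counting with the two families -/
lemma fam_weights (S : Finset (V × V)) (hS : S ⊆ X ×ˢ Y) (w : ℕ)
    (hw : ∀ z ∈ S, w ≤ (famF G X Y z.1).card * (famH G X Y z.2).card) :
    4 * (w * S.card) ≤ Fintype.card V ^ 2 := by
  have h1 : S.card * w ≤ ∑ z ∈ S, (famF G X Y z.1).card * (famH G X Y z.2).card := by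
    have := Finset.card_nsmul_le_sum S
      (fun z => (famF G X Y z.1).card * (famH G X Y z.2).card) w hw
    simpa using this
  have h3 : ∑ z ∈ S, (famF G X Y z.1).card * (famH G X Y z.2).card ≤
      (∑ x ∈ X, (famF G X Y x).card) * (∑ y ∈ Y, (famH G X Y y).card) := by
    rw [Finset.sum_mul_sum, ← Finset.sum_product']
    exact Finset.sum_le_sum_of_subset hS
  have h4 : (∑ x ∈ X, (famF G X Y x).card) + (∑ y ∈ Y, (famH G X Y y).card) ≤
      Fintype.card V := by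
    rw [← Finset.card_biUnion (fun x hx x' hx' hne => famF_disjoint hx hx' hne),
      ← Finset.card_biUnion (fun y hy y' hy' hne => famH_disjoint hy hy' hne),
      ← Finset.card_union_of_disjoint]
    · exact Finset.card_le_univ _
    · rw [Finset.disjoint_biUnion_left]
      intro x hx
      rw [Finset.disjoint_biUnion_right]
      intro y hy
      exact famF_famH_disjoint hx hy
  set s := ∑ x ∈ X, (famF G X Y x).card
  set t := ∑ y ∈ Y, (famH G X Y y).card
  have h5 : 4 * (s * t) ≤ (s + t) ^ 2 := by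
    have := four_mul_le_pow_two_add s t
    linarith
  have h6 : (s + t) ^ 2 ≤ Fintype.card V ^ 2 := Nat.pow_le_pow_left h4 2
  nlinarith

end three

end Pool.Agent.KMinDom
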