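import Mathlib
import Pool.Agent.KMinDom.Basic
import Pool.Agent.KMinDom.Lower
import Pool.Agent.KMinDom.ThreeLocal

namespace Pool.Agent.KMinDom

open Finset

set_option linter.unusedSectionVars false

section blocks

variable {N : ℕ} (A B : Fin N → Fin N → Bool) (hA : ∀ s t, A s t = A t s)
  (hB : ∀ s t, B s t = B t s)

/-- a graph made of `m` blocks; `B` is used inside a block and `A` between blocks -/
def blockGraph (m : ℕ) : SimpleGraph (Fin m × Fin N) where
  Adj u v := u ≠ v ∧ (if u.1 = v.1 then B u.2 v.2 else A u.2 v.2) = true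
  symm := ⟨fun u v h => ⟨h.1.symm, by
    have h2 := h.2
    by_cases he : u.1 = v.1
    · rw [if_pos he] at h2
      rw [if_pos he.symm, hB]
      exact h2
    · rw [if_neg he] at h2
      rw [if_neg (Ne.symm he), hA]
      exact h2⟩⟩
  loopless := ⟨fun _ h => h.1 rfl⟩

lemma blockGraph_compl (m : ℕ) : (blockGraph A B hA hB m)ᶜ =
    blockGraph (fun s t => !(A s t)) (fun s t => !(B s t)) (fun s t => by rw [hA])
      (fun s t => by rw [hB]) m := by
  ext u v
  rw [SimpleGraph.compl_adj]
  simp only [blockGraph]
  by_cases he : u.1 = v.1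
  · simp only [if_pos he]
    constructor
    · rintro ⟨h1, h2⟩
      refine ⟨h1, ?_⟩
      by_contra hcon
      apply h2
      refine ⟨h1, ?_⟩
      simpa using hcon
    · rintro ⟨h1, h2⟩
      refine ⟨h1, fun h => ?_⟩
      rw [h.2] at h2
      simp at h2
  · simp only [if_neg he]
    constructor
    · rintro ⟨h1, h2⟩
      refine ⟨h1, ?_⟩
      by_contra hcon
      apply h2
      refine ⟨h1, ?_⟩
      simpa using hcon
    · rintro ⟨h1, h2⟩
      refine ⟨h1, fun h => ?_⟩
      rw [h.2] at h2
      simp at h2

/-- `p` is hit by `t`, inside a block or from another block -/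
def hit (p t : Fin N) (b : Bool) : Prop := if b = true then (t = p ∨ B p t = true) else A p t = true

instance (p t : Fin N) (b : Bool) : Decidable (hit A B p t b) := by
  unfold hit
  infer_instance

lemma block_kMinimal (m : ℕ) (hm : 2 ≤ m) (S : Finset (Fin N)) (o : Fin N → Fin N)
    (rows : Fin N → List (Fin N))
    (hdom : ∀ t, (∃ s ∈ S, s = t ∨ B t s = true) ∨ (∃ s ∈ S, A t s = true))
    (hpriv : ∀ s ∈ S, ∀ p ∈ rows s, (∀ s' ∈ S, A p s' = false) ∧
      (∀ s' ∈ S, (s' = p ∨ B p s' = true) → s' = s))
    (hfree : ∀ s ∈ S, ∀ (t1 t2 : Fin N) (b1 b2 : Bool), (b1 = true → o t1 ≠ s) →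
      (b2 = true → o t2 ≠ s) → ∃ p ∈ rows s, ¬ hit A B p t1 b1 ∧ ¬ hit A B p t2 b2) :
    IsKMinimal 3 (blockGraph A B hA hB m) ((Finset.univ : Finset (Fin m)) ×ˢ S) := by
  have hother : ∀ j : Fin m, ∃ i : Fin m, i ≠ j := by
    intro j
    have : Nontrivial (Fin m) := Fin.nontrivial_iff_two_le.mpr hm
    exact exists_ne j
  constructor
  · rw [dominating_iff]
    rintro ⟨i, t⟩
    rcases hdom t with ⟨s, hs, h1⟩ | ⟨s, hs, h1⟩
    · refine ⟨(i, s), by simp [hs], ?_⟩
      by_cases hst : s = t
      · left
        rw [hst]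
      · right
        refine ⟨?_, ?_⟩
        · intro h
          exact hst (Prod.mk.inj h).2.symm
        · rw [if_pos rfl]
          exact h1.resolve_left hst
    · obtain ⟨j, hj⟩ := hother i
      refine ⟨(j, s), by simp [hs], Or.inr ⟨?_, ?_⟩⟩
      · intro h
        exact hj (Prod.mk.inj h).1.symm
      · rw [if_neg (Ne.symm hj)]
        exact h1
  · intro l hl1 hl3 U hU hUc R hRc hdomi
    rw [dominating_iff] at hdomi
    -- an element of U not owned by an element of R
    have hex : ∃ u ∈ U, ∀ r ∈ R, (r.1, o r.2) ≠ u := by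
      have h1 : (R.image (fun r => (r.1, o r.2))).card < U.card := by
        have : (R.image (fun r => (r.1, o r.2))).card ≤ R.card := card_image_le
        omega
      obtain ⟨u, hu, hu'⟩ := Finset.exists_mem_notMem_of_card_lt_card h1
      exact ⟨u, hu, fun r hr h => hu' (mem_image.mpr ⟨r, hr, h⟩)⟩
    obtain ⟨⟨i, s⟩, hu, hfreeU⟩ := hex
    have hs : s ∈ S := by
      have := hU hu
      rw [mem_product] at this
      exact this.2
    -- a private vertex not dominated by R
    have hp : ∃ p ∈ rows s, ∀ r ∈ R, ¬ hit A B p r.2 (decide (i = r.1)) := by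
      rcases R.eq_empty_or_nonempty with hR | hR
      · obtain ⟨p, hp, _⟩ := hfree s hs s s false false (by simp) (by simp)
        exact ⟨p, hp, by simp [hR]⟩
      · obtain ⟨r1, hr1, r2, hr2, hr⟩ := exists_pair_of_card_le_two (S := R) (T := R)
          (Finset.Subset.refl _) hR (by omega)
        obtain ⟨p, hp, h1, h2⟩ := hfree s hs r1.2 r2.2 (decide (i = r1.1)) (decide (i = r2.1))
          (by
            intro h he
            apply hfreeU r1 hr1
            rw [he, ← of_decide_eq_true h])
          (by
            intro h he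
            apply hfreeU r2 hr2
            rw [he, ← of_decide_eq_true h])
        refine ⟨p, hp, fun r hrR => ?_⟩
        rcases hr r hrR with rfl | rfl
        · exact h1
        · exact h2
    obtain ⟨p, hp, hpR⟩ := hp
    obtain ⟨hp1, hp2⟩ := hpriv s hs p hp
    obtain ⟨⟨j, t⟩, hz, hzd⟩ := hdomi (i, p)
    have hhit : hit A B p t (decide (i = j)) := by
      unfold hit
      rcases hzd with h | h
      · rw [Prod.mk.injEq] at h
        rw [if_pos (by simp [h.1])]
        exact Or.inl h.2
      · have h2 := h.2
        simp only at h2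
        by_cases hij : i = j
        · rw [if_pos hij] at h2
          rw [if_pos (by simp [hij])]
          exact Or.inr h2
        · rw [if_neg hij] at h2
          rw [if_neg (by simp [hij])]
          exact h2
    rw [mem_union] at hz
    rcases hz with hz | hz
    · rw [mem_sdiff, mem_product] at hz
      obtain ⟨⟨_, htS⟩, hzU⟩ := hz
      simp only at htS
      unfold hit at hhit
      by_cases hij : i = j
      · rw [if_pos (by simp [hij])] at hhit
        have := hp2 t htS hhit
        rw [this, ← hij] at hzU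
        exact hzU hu
      · rw [if_neg (by simp [hij])] at hhit
        rw [hp1 t htS] at hhit
        exact absurd hhit (by simp)
    · exact hpR (j, t) hz hhit

end blocks

/-! ### the type graph for `k = 3` -/

/-- matrices given by rows as bit masks -/
def bitMat (L : List ℕ) (s t : Fin 24) : Bool := (L.getD s.val 0).testBit t.val

/-- adjacency between blocks -/
def matA : Fin 24 → Fin 24 → Bool := bitMat
  [244608, 13537664, 16067072, 244608, 16550144, 8065664, 16777152, 4718571, 9175003, 3407853,
    16777152, 5504989, 4718571, 11272141, 16777152, 8912859, 5505005, 2883563, 7394518, 3827058,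
    9260660, 9332340, 8740086, 7398742]

/-- adjacency inside a block -/
def matB : Fin 24 → Fin 24 → Bool := bitMat
  [2097094, 13537665, 16067073, 14924720, 16550152, 8065672, 14416897, 4718379, 9174683, 3407277,
    12043201, 5501917, 4713451, 11262925, 7094209, 8863707, 5423085, 2736107, 7394455, 3301747,
    9244277, 9332284, 8739070, 7382366]

lemma matA_symm : ∀ s t, matA s t = matA t s := by decide +kernel

lemma matB_symm : ∀ s t, matB s t = matB t s := by decide +kernel

/-- types of the elements of `X` -/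
def typX : Finset (Fin 24) := {0, 3}

/-- types of the elements of `Y` -/
def typY : Finset (Fin 24) := {6, 10, 14}

/-- owners, `X` side (the owner of the types of `Y` is `0`) -/
def ownX (t : Fin 24) : Fin 24 :=
  ([0, 0, 0, 3, 3, 3, 0, 1, 1, 1, 0, 1, 1, 1, 0, 1, 1, 1, 0, 0, 0, 3, 3, 3] : List (Fin 24)).getD
    t.val 1

/-- owners, `Y` side -/
def ownY (t : Fin 24) : Fin 24 :=
  ([1, 1, 1, 1, 1, 1, 6, 6, 6, 6, 10, 10, 10, 10, 14, 14, 14, 14, 6, 10, 14, 6, 10, 14] :
    List (Fin 24)).getD t.val 1

/-- private rows -/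
def rowsX (t : Fin 24) : List (Fin 24) := if t = 0 then [0, 1, 2, 18, 19, 20] else
  [3, 4, 5, 21, 22, 23]

/-- co-private columns -/
def rowsY (t : Fin 24) : List (Fin 24) := if t = 6 then [6, 7, 8, 9, 18, 21] else
  if t = 10 then [10, 11, 12, 13, 19, 22] else [14, 15, 16, 17, 20, 23]

lemma X_three (m : ℕ) (hm : 2 ≤ m) : IsKMinimal 3 (blockGraph matA matB matA_symm matB_symm m)
    ((Finset.univ : Finset (Fin m)) ×ˢ typX) := by
  apply block_kMinimal matA matB matA_symm matB_symm m hm typX ownX rowsX
  · decide +kernel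
  · decide +kernel
  · decide +kernel

lemma Y_three (m : ℕ) (hm : 2 ≤ m) : IsKMinimal 3 (blockGraph matA matB matA_symm matB_symm m)ᶜ
    ((Finset.univ : Finset (Fin m)) ×ˢ typY) := by
  rw [blockGraph_compl]
  apply block_kMinimal _ _ _ _ m hm typY ownY rowsY
  · decide +kernel
  · decide +kernel
  · decide +kernel

/-- Lower bound, `k = 3`. -/
lemma lower_three (n : ℕ) (hn : 48 ≤ n) : 6 * (n / 24) ^ 2 ≤ g n 3 := by
  have hm : 2 ≤ n / 24 := by omega
  set m := n / 24 with hmdef
  let i0 : Fin m := ⟨0, by omega⟩
  have h3 := transfer_pair 3 n (blockGraph matA matB matA_symm matB_symm m)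
    ((Finset.univ : Finset (Fin m)) ×ˢ typX) ((Finset.univ : Finset (Fin m)) ×ˢ typY)
    (i0, 1) (by simp [typX]) (by simp [typY]) (X_three m hm) (Y_three m hm) (by
      rw [Fintype.card_prod, Fintype.card_fin, Fintype.card_fin]
      omega)
  rw [card_product, card_product, Finset.card_univ, Fintype.card_fin] at h3
  have h4 : typX.card = 2 := by decide
  have h5 : typY.card = 3 := by decide
  rw [h4, h5] at h3
  calc 6 * m ^ 2 = m * 2 * (m * 3) := by ring
    _ ≤ g n 3 := h3

end Pool.Agent.KMinDom
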