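import Mathlib
import Pool.Agent.KMinDom.Basic
import Pool.Agent.KMinDom.Upper
import Pool.Agent.KMinDom.Two
import Pool.Agent.KMinDom.ThreeLocal

namespace Pool.Agent.KMinDom

open Finset

set_option linter.unusedSectionVars false

section three

variable {V : Type} [Fintype V] [DecidableEq V]

open Classical in
/-- pairs `(x, y)` such that `P_x` is dominated by two vertices of `Q_y ∪ {y}` -/
noncomputable def spoil (G : SimpleGraph V) (X Y : Finset V) (Q : V → Finset V) :
    Finset (V × V) :=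
  (X ×ˢ Y).filter (fun z => ∃ c1 ∈ insert z.2 (Q z.2), ∃ c2 ∈ insert z.2 (Q z.2),
    z.1 ∈ dset G X {c1, c2})

/-- number of spoilt pairs; `|V| = t ^ 4`. -/
lemma spoil_card {G : SimpleGraph V} {X Y : Finset V} (h : IsKMinimal 3 G X)
    (Q : V → Finset V) (hQ : ∑ y ∈ Y, (Q y).card ≤ Fintype.card V) (t : ℝ) (ht : 1 ≤ t)
    (hn : (Fintype.card V : ℝ) = t ^ 4) :
    ((spoil G X Y Q).card : ℝ) ≤ 17 * t ^ 7 := by
  classical
  have hV : 1 ≤ Fintype.card V := by
    have : (1 : ℝ) ≤ Fintype.card V := by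
      rw [hn]
      exact one_le_pow₀ ht
    exact_mod_cast this
  have hsqrt : Real.sqrt (Fintype.card V) = t ^ 2 := by
    rw [hn, show t ^ 4 = (t ^ 2) ^ 2 by ring]
    exact Real.sqrt_sq (by positivity)
  have hD : ∀ c1 c2 : V, ((dset G X {c1, c2}).card : ℝ) ≤ 4 * t ^ 2 := by
    intro c1 c2
    have h1 := dset_card_le (R := {c1, c2}) h (by
      have := Finset.card_le_two (a := c1) (b := c2)
      omega) hV
    rw [hsqrt] at h1
    push_cast at h1
    have : 1 ≤ t ^ 2 := one_le_pow₀ ht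
    linarith
  -- fibre over y
  let D : V → Finset V := fun y => (insert y (Q y)).biUnion (fun c1 =>
    (insert y (Q y)).biUnion (fun c2 => dset G X {c1, c2}))
  let D' : V → Finset V := fun y => D y ∩ X
  have hsub : spoil G X Y Q ⊆ Y.biUnion (fun y => (D' y).image (fun x => (x, y))) := by
    rintro ⟨x, y⟩ hz
    simp only [spoil, mem_filter, mem_product] at hz
    obtain ⟨⟨hx, hy⟩, c1, hc1, c2, hc2, hd⟩ := hz
    simp only [mem_biUnion, mem_image]
    refine ⟨y, hy, x, ?_, rfl⟩
    simp only [D', D, mem_inter, mem_biUnion]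
    exact ⟨⟨c1, hc1, c2, hc2, hd⟩, hx⟩
  have hfib : ∀ y ∈ Y, ((D' y).card : ℝ) ≤ 8 * t ^ 3 * ((Q y).card + 1) + t ^ 3 * (Q y).card := by
    intro y _
    by_cases hq : ((Q y).card : ℝ) ≤ t
    · have h1 : (D' y).card ≤ ∑ c1 ∈ insert y (Q y), ∑ c2 ∈ insert y (Q y),
          (dset G X {c1, c2}).card := by
        refine (card_le_card inter_subset_left).trans ?_
        refine card_biUnion_le.trans (sum_le_sum fun c1 _ => ?_)
        exact card_biUnion_le
      have h2 : ((D' y).card : ℝ) ≤ ∑ c1 ∈ insert y (Q y), ∑ c2 ∈ insert y (Q y),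
          ((dset G X {c1, c2}).card : ℝ) := by exact_mod_cast h1
      have h3 : ∑ c1 ∈ insert y (Q y), ∑ c2 ∈ insert y (Q y),
          ((dset G X {c1, c2}).card : ℝ) ≤ (insert y (Q y)).card *
            ((insert y (Q y)).card * (4 * t ^ 2)) := by
        rw [← nsmul_eq_mul]
        refine Finset.sum_le_card_nsmul _ _ _ (fun c1 _ => ?_)
        rw [← nsmul_eq_mul]
        exact Finset.sum_le_card_nsmul _ _ _ (fun c2 _ => hD c1 c2)
      have h4 : ((insert y (Q y)).card : ℝ) ≤ (Q y).card + 1 := by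
        exact_mod_cast card_insert_le y (Q y)
      have h5 : (0 : ℝ) ≤ (insert y (Q y)).card := by positivity
      have h6 : (0 : ℝ) ≤ (Q y).card := by positivity
      have h7 : ((insert y (Q y)).card : ℝ) * ((insert y (Q y)).card * (4 * t ^ 2)) ≤
          ((Q y).card + 1) * ((t + 1) * (4 * t ^ 2)) := by
        apply mul_le_mul h4 _ (by positivity) (by positivity)
        apply mul_le_mul_of_nonneg_right _ (by positivity)
        linarith
      have h8 : ((Q y).card + 1 : ℝ) * ((t + 1) * (4 * t ^ 2)) ≤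
          ((Q y).card + 1) * ((t + t) * (4 * t ^ 2)) := by
        apply mul_le_mul_of_nonneg_left _ (by positivity)
        apply mul_le_mul_of_nonneg_right _ (by positivity)
        linarith
      have h9 : (0 : ℝ) ≤ t ^ 3 * (Q y).card := by positivity
      calc ((D' y).card : ℝ) ≤ ((Q y).card + 1) * ((t + t) * (4 * t ^ 2)) := by linarith
        _ = 8 * t ^ 3 * ((Q y).card + 1) := by ring
        _ ≤ _ := by linarith
    · push Not at hq
      have h1 : ((D' y).card : ℝ) ≤ Fintype.card V := by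
        exact_mod_cast Finset.card_le_univ (D' y)
      rw [hn] at h1
      have h2 : t ^ 4 ≤ t ^ 3 * (Q y).card := by
        calc t ^ 4 = t ^ 3 * t := by ring
          _ ≤ _ := mul_le_mul_of_nonneg_left hq.le (by positivity)
      have h3 : (0 : ℝ) ≤ 8 * t ^ 3 * ((Q y).card + 1) := by positivity
      linarith
  have h1 : ((spoil G X Y Q).card : ℝ) ≤ ∑ y ∈ Y, ((D' y).card : ℝ) := by
    have := (card_le_card hsub).trans (card_biUnion_le.trans
      (sum_le_sum fun y _ => card_image_le (s := D' y) (f := fun x => (x, y))))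
    exact_mod_cast this
  have h2 : ∑ y ∈ Y, ((D' y).card : ℝ) ≤
      ∑ y ∈ Y, (8 * t ^ 3 * ((Q y).card + 1) + t ^ 3 * (Q y).card : ℝ) :=
    sum_le_sum hfib
  have h3 : ∑ y ∈ Y, (8 * t ^ 3 * ((Q y).card + 1) + t ^ 3 * (Q y).card : ℝ) =
      9 * t ^ 3 * (∑ y ∈ Y, ((Q y).card : ℝ)) + 8 * t ^ 3 * Y.card := by
    rw [Finset.sum_add_distrib, ← Finset.mul_sum, ← Finset.mul_sum, Finset.sum_add_distrib]
    simp only [sum_const, nsmul_eq_mul, mul_one]
    ring
  have h4 : (∑ y ∈ Y, ((Q y).card : ℝ)) ≤ t ^ 4 := by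
    rw [← hn]
    exact_mod_cast hQ
  have h5 : (Y.card : ℝ) ≤ t ^ 4 := by
    rw [← hn]
    exact_mod_cast Finset.card_le_univ Y
  have h6 : 9 * t ^ 3 * (∑ y ∈ Y, ((Q y).card : ℝ)) ≤ 9 * t ^ 3 * t ^ 4 :=
    mul_le_mul_of_nonneg_left h4 (by positivity)
  have h7 : 8 * t ^ 3 * (Y.card : ℝ) ≤ 8 * t ^ 3 * t ^ 4 :=
    mul_le_mul_of_nonneg_left h5 (by positivity)
  calc ((spoil G X Y Q).card : ℝ) ≤ 9 * t ^ 3 * t ^ 4 + 8 * t ^ 3 * t ^ 4 := by linarith
    _ = 17 * t ^ 7 := by ring

open Classical in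
/-- the exceptional pairs, `k = 3` -/
noncomputable def badThree (G : SimpleGraph V) (X Y : Finset V) : Finset (V × V) :=
  (X ×ˢ Y).filter (fun z => ¬ Good3 G X Y z.1 z.2)

lemma badThree_card {G : SimpleGraph V} {X Y : Finset V} (hX : IsKMinimal 3 G X)
    (hY : IsKMinimal 3 Gᶜ Y) (t : ℝ) (ht : 1 ≤ t) (hn : (Fintype.card V : ℝ) = t ^ 4) :
    ((badThree G X Y).card : ℝ) ≤ 37 * t ^ 7 := by
  classical
  -- choose the owner of a private vertex
  let ox : V → V := fun v => if h : ∃ x, v ∈ priv G X x then h.choose else v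
  let oy : V → V := fun v => if h : ∃ y, v ∈ priv Gᶜ Y y then h.choose else v
  have hox : ∀ v x, v ∈ priv G X x → ox v = x := by
    intro v x hv
    have h : ∃ x, v ∈ priv G X x := ⟨x, hv⟩
    have h1 := h.choose_spec
    simp only [ox, dif_pos h]
    rw [mem_priv] at h1 hv
    rw [h1] at hv
    exact singleton_injective hv
  have hoy : ∀ v y, v ∈ priv Gᶜ Y y → oy v = y := by
    intro v y hv
    have h : ∃ y, v ∈ priv Gᶜ Y y := ⟨y, hv⟩
    have h1 := h.choose_spec
    simp only [oy, dif_pos h]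
    rw [mem_priv] at h1 hv
    rw [h1] at hv
    exact singleton_injective hv
  let S1 : Finset (V × V) := spoil G X Y (priv Gᶜ Y)
  let S2 : Finset (V × V) := (spoil Gᶜ Y X (priv G X)).image Prod.swap
  let S3 : Finset (V × V) := univ.image (fun v : V => (ox v, oy v))
  let S4 : Finset (V × V) := univ.image (fun v : V => (v, oy v))
  let S5 : Finset (V × V) := univ.image (fun v : V => (ox v, v))
  have hsub : badThree G X Y ⊆ S1 ∪ (S2 ∪ (S3 ∪ (S4 ∪ S5))) := by
    rintro ⟨x, y⟩ hz
    simp only [badThree, mem_filter, mem_product] at hz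
    obtain ⟨⟨hx, hy⟩, hg⟩ := hz
    by_contra hcon
    simp only [mem_union, not_or] at hcon
    obtain ⟨h1, h2, h3, h4, h5⟩ := hcon
    apply hg
    refine ⟨hx, hy, ?_, ?_, ?_, ?_, ?_⟩
    · intro c1 hc1 c2 hc2 hd
      apply h1
      simp only [S1, spoil, mem_filter, mem_product]
      exact ⟨⟨hx, hy⟩, c1, hc1, c2, hc2, hd⟩
    · intro c1 hc1 c2 hc2 hd
      apply h2
      simp only [S2, mem_image]
      refine ⟨(y, x), ?_, rfl⟩
      simp only [spoil, mem_filter, mem_product]
      exact ⟨⟨hy, hx⟩, c1, hc1, c2, hc2, hd⟩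
    · intro v hv hv'
      apply h3
      simp only [S3, mem_image, mem_univ, true_and]
      exact ⟨v, by rw [hox v x hv, hoy v y hv']⟩
    · intro hv
      apply h4
      simp only [S4, mem_image, mem_univ, true_and]
      exact ⟨x, by rw [hoy x y hv]⟩
    · intro hv
      apply h5
      simp only [S5, mem_image, mem_univ, true_and]
      exact ⟨y, by rw [hox y x hv]⟩
  have hsmall : ∀ f : V → V × V, (((univ : Finset V).image f).card : ℝ) ≤ t ^ 7 := by
    intro f
    have h1 : ((univ : Finset V).image f).card ≤ Fintype.card V := by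
      rw [← Finset.card_univ]
      exact card_image_le
    have h2 : (((univ : Finset V).image f).card : ℝ) ≤ Fintype.card V := by exact_mod_cast h1
    rw [hn] at h2
    refine h2.trans ?_
    exact pow_le_pow_right₀ ht (by norm_num)
  have c1 : (S1.card : ℝ) ≤ 17 * t ^ 7 := spoil_card hX (priv Gᶜ Y) (sum_priv_le Gᶜ Y) t ht hn
  have c2' : ((spoil Gᶜ Y X (priv G X)).card : ℝ) ≤ 17 * t ^ 7 :=
    spoil_card hY (priv G X) (sum_priv_le G X) t ht hn
  have c2 : (S2.card : ℝ) ≤ 17 * t ^ 7 := by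
    have : S2.card ≤ (spoil Gᶜ Y X (priv G X)).card := card_image_le
    have h' : (S2.card : ℝ) ≤ ((spoil Gᶜ Y X (priv G X)).card : ℝ) := by exact_mod_cast this
    linarith
  have c3 : (S3.card : ℝ) ≤ t ^ 7 := hsmall _
  have c4 : (S4.card : ℝ) ≤ t ^ 7 := hsmall _
  have c5 : (S5.card : ℝ) ≤ t ^ 7 := hsmall _
  have htot : (badThree G X Y).card ≤ S1.card + (S2.card + (S3.card + (S4.card + S5.card))) := by
    refine (card_le_card hsub).trans ((card_union_le _ _).trans (Nat.add_le_add_left ?_ _))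
    refine (card_union_le _ _).trans (Nat.add_le_add_left ?_ _)
    refine (card_union_le _ _).trans (Nat.add_le_add_left ?_ _)
    exact card_union_le _ _
  have htot' : ((badThree G X Y).card : ℝ) ≤ S1.card + (S2.card + (S3.card + ((S4.card : ℝ) +
      S5.card))) := by exact_mod_cast htot
  linarith

lemma good_of_not_badThree {G : SimpleGraph V} {X Y : Finset V} {x y : V} (hx : x ∈ X)
    (hy : y ∈ Y) (h : (x, y) ∉ badThree G X Y) : Good3 G X Y x y := by
  by_contra hg
  apply h
  simp only [badThree, mem_filter, mem_product]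
  exact ⟨⟨hx, hy⟩, hg⟩

/-- a product set consisting of bad pairs has a small side -/
lemma small_side {G : SimpleGraph V} {X Y : Finset V} {A B : Finset V} (hA : A ⊆ X) (hB : B ⊆ Y)
    (h : ∀ x ∈ A, ∀ y ∈ B, ¬ Good3 G X Y x y) :
    (A.card : ℝ) ≤ Real.sqrt ((badThree G X Y).card) ∨
      (B.card : ℝ) ≤ Real.sqrt ((badThree G X Y).card) := by
  have hsub : A ×ˢ B ⊆ badThree G X Y := by
    rintro ⟨x, y⟩ hz
    rw [mem_product] at hz
    simp only [badThree, mem_filter, mem_product]
    exact ⟨⟨hA hz.1, hB hz.2⟩, h x hz.1 y hz.2⟩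
  have h1 := card_le_card hsub
  rw [card_product] at h1
  have h2 : (A.card : ℝ) * B.card ≤ ((badThree G X Y).card : ℝ) := by exact_mod_cast h1
  by_contra hcon
  push Not at hcon
  obtain ⟨h3, h4⟩ := hcon
  set r := Real.sqrt ((badThree G X Y).card : ℝ) with hr
  have hr0 : 0 ≤ r := Real.sqrt_nonneg _
  have hrr : r * r = ((badThree G X Y).card : ℝ) := Real.mul_self_sqrt (by positivity)
  nlinarith

open Classical in
/-- elements with a small set `F` -/
noncomputable def smallF (G : SimpleGraph V) (X Y : Finset V) (c : ℕ) : Finset V :=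
  X.filter (fun x => (famF G X Y x).card ≤ c)

open Classical in
/-- elements with a small set `H` -/
noncomputable def smallH (G : SimpleGraph V) (X Y : Finset V) (c : ℕ) : Finset V :=
  Y.filter (fun y => (famH G X Y y).card ≤ c)

/-- One half of the argument: the set of light good pairs is covered by `A ×ˢ Y ∪ X ×ˢ B`. -/
lemma half {G : SimpleGraph V} {X Y : Finset V} (A B : Finset V) (hA : A ⊆ X) (hB : B ⊆ Y)
    (hcov : ∀ x y, Good3 G X Y x y → (famF G X Y x).card * (famH G X Y y).card < 24 →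
      x ∈ A ∨ y ∈ B) :
    96 * (X.card * Y.card) ≤ Fintype.card V ^ 2 +
      96 * (A.card * Fintype.card V + Fintype.card V * B.card + (badThree G X Y).card) := by
  classical
  let S : Finset (V × V) := (X ×ˢ Y) \ ((A ×ˢ Y ∪ X ×ˢ B) ∪ badThree G X Y)
  have hS : S ⊆ X ×ˢ Y := sdiff_subset
  have hw := fam_weights (G := G) S hS 24 (by
    rintro ⟨x, y⟩ hz
    simp only [S, mem_sdiff, mem_union, mem_product, not_or] at hz
    obtain ⟨⟨hx, hy⟩, ⟨h1, h2⟩, h3⟩ := hz
    have hg := good_of_not_badThree hx hy h3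
    by_contra hcon
    push Not at hcon
    rcases hcov x y hg hcon with h | h
    · exact h1 ⟨h, hy⟩
    · exact h2 ⟨hx, h⟩)
  have h1 : X.card * Y.card ≤ S.card + ((A.card * Y.card + X.card * B.card) +
      (badThree G X Y).card) := by
    have h2 := Finset.le_card_sdiff ((A ×ˢ Y ∪ X ×ˢ B) ∪ badThree G X Y) (X ×ˢ Y)
    rw [card_product] at h2
    have h3 := card_union_le (A ×ˢ Y ∪ X ×ˢ B) (badThree G X Y)
    have h4 := card_union_le (A ×ˢ Y) (X ×ˢ B)
    rw [card_product, card_product] at h4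
    have h5 : (X.card * Y.card) - ((A ×ˢ Y ∪ X ×ˢ B) ∪ badThree G X Y).card ≤ S.card := h2
    omega
  have h2 : A.card * Y.card ≤ A.card * Fintype.card V :=
    Nat.mul_le_mul_left _ (Finset.card_le_univ _)
  have h3 : X.card * B.card ≤ Fintype.card V * B.card :=
    Nat.mul_le_mul_right _ (Finset.card_le_univ _)
  omega

lemma badThree_dual (G : SimpleGraph V) (X Y : Finset V) :
    (badThree Gᶜ Y X).card = (badThree G X Y).card := by
  classical
  have : badThree Gᶜ Y X = (badThree G X Y).image Prod.swap := by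
    ext ⟨y, x⟩
    simp only [badThree, mem_filter, mem_product, mem_image, Prod.exists, Prod.swap_prod_mk,
      Prod.mk.injEq]
    constructor
    · rintro ⟨⟨hy, hx⟩, hg⟩
      exact ⟨x, y, ⟨⟨hx, hy⟩, fun h => hg h.dual⟩, rfl, rfl⟩
    · rintro ⟨x', y', ⟨⟨hx, hy⟩, hg⟩, rfl, rfl⟩
      refine ⟨⟨hy, hx⟩, fun h => hg ?_⟩
      have := h.dual
      rw [compl_compl] at this
      exact this
  rw [this, card_image_of_injective _ Prod.swap_injective]

/-- The upper bound for `k = 3` with `r = √|Bad|`. -/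
lemma upper_three_aux {G : SimpleGraph V} {X Y : Finset V} (r : ℝ)
    (hr : r = Real.sqrt ((badThree G X Y).card)) :
    96 * ((X.card : ℝ) * Y.card) ≤ (Fintype.card V : ℝ) ^ 2 +
      96 * (2 * (r * Fintype.card V) + r ^ 2) := by
  classical
  have hr0 : 0 ≤ r := by rw [hr]; exact Real.sqrt_nonneg _
  have hr2 : r ^ 2 = ((badThree G X Y).card : ℝ) := by
    rw [hr]
    exact Real.sq_sqrt (by positivity)
  have hn0 : (0 : ℝ) ≤ Fintype.card V := by positivity
  have e : Gᶜᶜ = G := compl_compl G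
  -- reduction: it suffices to cover the light pairs on one of the two sides
  have key1 : ∀ A B : Finset V, A ⊆ X → B ⊆ Y → (A.card : ℝ) ≤ r → (B.card : ℝ) ≤ r →
      (∀ x y, Good3 G X Y x y → (famF G X Y x).card * (famH G X Y y).card < 24 →
        x ∈ A ∨ y ∈ B) →
      96 * ((X.card : ℝ) * Y.card) ≤ (Fintype.card V : ℝ) ^ 2 +
      96 * (2 * (r * Fintype.card V) + r ^ 2) := by
    intro A B hA hB hAr hBr hcov
    have h1 := half A B hA hB hcov
    have h2 : 96 * ((X.card : ℝ) * Y.card) ≤ (Fintype.card V : ℝ) ^ 2 +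
      96 * ((A.card : ℝ) * Fintype.card V + Fintype.card V * B.card +
        (badThree G X Y).card) := by exact_mod_cast h1
    rw [hr2]
    nlinarith [mul_le_mul_of_nonneg_right hAr hn0, mul_le_mul_of_nonneg_left hBr hn0]
  have key2 : ∀ A B : Finset V, A ⊆ Y → B ⊆ X → (A.card : ℝ) ≤ r → (B.card : ℝ) ≤ r →
      (∀ x y, Good3 G X Y x y → (famF Gᶜ Y X y).card * (famH Gᶜ Y X x).card < 24 →
        y ∈ A ∨ x ∈ B) →
      96 * ((X.card : ℝ) * Y.card) ≤ (Fintype.card V : ℝ) ^ 2 +
      96 * (2 * (r * Fintype.card V) + r ^ 2) := by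
    intro A B hA hB hAr hBr hcov
    have h1 := half (G := Gᶜ) (X := Y) (Y := X) A B hA hB (by
      intro y x hg hlt
      have hg' := hg.dual
      rw [e] at hg'
      exact hcov x y hg' hlt)
    rw [badThree_dual] at h1
    have h2 : 96 * ((Y.card : ℝ) * X.card) ≤ (Fintype.card V : ℝ) ^ 2 +
      96 * ((A.card : ℝ) * Fintype.card V + Fintype.card V * B.card +
        (badThree G X Y).card) := by exact_mod_cast h1
    rw [hr2]
    nlinarith [mul_le_mul_of_nonneg_right hAr hn0, mul_le_mul_of_nonneg_left hBr hn0]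
  have hsm : ∀ A B : Finset V, A ⊆ X → B ⊆ Y → (∀ x ∈ A, ∀ y ∈ B, ¬ Good3 G X Y x y) →
      (A.card : ℝ) ≤ r ∨ (B.card : ℝ) ≤ r := by
    intro A B hA hB h
    rw [hr]
    exact small_side hA hB h
  -- the four small sets
  let X5 := smallF G X Y 5
  let Y3 := smallH G X Y 3
  let Y5 := smallF Gᶜ Y X 5
  let X3 := smallH Gᶜ Y X 3
  let X9 := smallF G X Y 9
  let Y9 := smallF Gᶜ Y X 9
  have hX5 : X5 ⊆ X := filter_subset _ _
  have hX3 : X3 ⊆ X := filter_subset _ _
  have hX9 : X9 ⊆ X := filter_subset _ _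
  have hY5 : Y5 ⊆ Y := filter_subset _ _
  have hY3 : Y3 ⊆ Y := filter_subset _ _
  have hY9 : Y9 ⊆ Y := filter_subset _ _
  have c59 := hsm X5 Y9 hX5 hY9 (by
    intro x hx y hy hg
    have h1 := hg.ten_le_of_famF (mem_filter.mp hx).2
    have h2 := (mem_filter.mp hy).2
    omega)
  have c95 := hsm X9 Y5 hX9 hY5 (by
    intro x hx y hy hg
    have h1 := hg.dual.ten_le_of_famF (mem_filter.mp hy).2
    rw [e] at h1
    have h2 := (mem_filter.mp hx).2
    omega)
  have c33 := hsm X3 Y3 hX3 hY3 (by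
    intro x hx y hy hg
    have h1 := hg.adj_of_famH (mem_filter.mp hy).2
    have h2 := hg.dual.adj_of_famH (mem_filter.mp hx).2
    rw [SimpleGraph.compl_adj] at h2
    exact h2.2 h1.symm)
  have hempty : ((∅ : Finset V).card : ℝ) ≤ r := by simpa using hr0
  rcases c59 with h5 | h9
  · rcases c95 with h9 | h5'
    · -- X9 small : D1 ⊆ X9 × Y
      refine key1 X9 ∅ hX9 (empty_subset _) h9 hempty ?_
      intro x y hg hlt
      left
      refine mem_filter.mpr ⟨hg.hx, ?_⟩
      have h3 := hg.three_le_famH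
      by_contra hcon
      push Not at hcon
      have := Nat.mul_le_mul (show 10 ≤ (famF G X Y x).card by omega) h3
      omega
    · rcases c33 with h3 | h3
      · -- D0 ⊆ X × Y5 ∪ X3 × Y
        refine key2 Y5 X3 hY5 hX3 h5' h3 ?_
        intro x y hg hlt
        by_contra hcon
        simp only [not_or] at hcon
        obtain ⟨hc1, hc2⟩ := hcon
        have h1 : 6 ≤ (famF Gᶜ Y X y).card := by
          by_contra hcon
          exact hc1 (mem_filter.mpr ⟨hg.hy, by omega⟩)
        have h2 : 4 ≤ (famH Gᶜ Y X x).card := by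
          by_contra hcon
          exact hc2 (mem_filter.mpr ⟨hg.hx, by omega⟩)
        have := Nat.mul_le_mul h1 h2
        omega
      · refine key1 X5 Y3 hX5 hY3 h5 h3 ?_
        intro x y hg hlt
        by_contra hcon
        simp only [not_or] at hcon
        obtain ⟨hc1, hc2⟩ := hcon
        have h1 : 6 ≤ (famF G X Y x).card := by
          by_contra hcon
          exact hc1 (mem_filter.mpr ⟨hg.hx, by omega⟩)
        have h2 : 4 ≤ (famH G X Y y).card := by
          by_contra hcon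
          exact hc2 (mem_filter.mpr ⟨hg.hy, by omega⟩)
        have := Nat.mul_le_mul h1 h2
        omega
  · -- Y9 small : D0 ⊆ X × Y9
    refine key2 Y9 ∅ hY9 (empty_subset _) h9 hempty ?_
    intro x y hg hlt
    left
    refine mem_filter.mpr ⟨hg.hy, ?_⟩
    have h3 := hg.dual.three_le_famH
    by_contra hcon
    push Not at hcon
    have := Nat.mul_le_mul (show 10 ≤ (famF Gᶜ Y X y).card by omega) h3
    omega

/-- The upper bound for `k = 3`: with `|V| = u ^ 8`. -/
lemma upper_three {G : SimpleGraph V} {X Y : Finset V} (hX : IsKMinimal 3 G X)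
    (hY : IsKMinimal 3 Gᶜ Y) (u : ℝ) (hu : 1 ≤ u) (hn : (Fintype.card V : ℝ) = u ^ 8) :
    (X.card : ℝ) * Y.card ≤ (Fintype.card V : ℝ) ^ 2 / 96 + 51 * u ^ 15 := by
  have hb := badThree_card hX hY (u ^ 2) (one_le_pow₀ hu) (by rw [hn]; ring)
  have h1 := upper_three_aux (G := G) (X := X) (Y := Y) _ rfl
  set r := Real.sqrt ((badThree G X Y).card : ℝ) with hr
  have hr0 : 0 ≤ r := Real.sqrt_nonneg _
  have hr2 : r ^ 2 = ((badThree G X Y).card : ℝ) := Real.sq_sqrt (by positivity)
  have h2 : r ^ 2 ≤ 37 * u ^ 14 := by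
    rw [hr2]
    calc ((badThree G X Y).card : ℝ) ≤ 37 * (u ^ 2) ^ 7 := hb
      _ = 37 * u ^ 14 := by ring
  have hu0 : 0 < u := by linarith
  have h3 : r ≤ 7 * u ^ 7 := by
    apply abs_le_of_sq_le_sq' _ (by positivity) |>.2
    calc r ^ 2 ≤ 37 * u ^ 14 := h2
      _ ≤ 49 * u ^ 14 := by nlinarith [pow_pos hu0 14]
      _ = (7 * u ^ 7) ^ 2 := by ring
  have h4 : r * Fintype.card V ≤ 7 * u ^ 15 := by
    rw [hn]
    calc r * u ^ 8 ≤ 7 * u ^ 7 * u ^ 8 := mul_le_mul_of_nonneg_right h3 (by positivity)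
      _ = 7 * u ^ 15 := by ring
  have h5 : r ^ 2 ≤ 37 * u ^ 15 := by
    refine h2.trans ?_
    have : u ^ 14 ≤ u ^ 15 := pow_le_pow_right₀ hu (by norm_num)
    linarith
  linarith

end three

end Pool.Agent.KMinDom
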