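import Mathlib
import Pool.Agent.KMinDom.Basic
import Pool.Agent.KMinDom.Lower
import Pool.Agent.KMinDom.Matrix

namespace Pool.Agent.KMinDom

open Finset

set_option linter.unusedSectionVars false

section uniform

variable {V : Type} [Fintype V] [DecidableEq V]

open Classical in
/-- the vertices which are not dominated by `R` -/
noncomputable def undom (G : SimpleGraph V) (R : Finset V) : Finset V :=
  Finset.univ.filter (fun v => ¬ Dom G R v)

/-- For fewer than `k` vertices `R`, at least `|X| - |R|` vertices are not dominated by `R`. -/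
lemma card_le_undom {k : ℕ} {G : SimpleGraph V} {X R : Finset V} (h : IsKMinimal k G X)
    (hR : R.card + 1 ≤ k) : X.card ≤ R.card + (undom G R).card := by
  classical
  by_contra hcon
  push Not at hcon
  have hd := dominating_iff.mp h.1
  choose t ht using hd
  have hT : ((undom G R).image t).card ≤ (undom G R).card := card_image_le
  have hTX : (undom G R).image t ⊆ X := by
    intro x hx
    obtain ⟨v, _, rfl⟩ := mem_image.mp hx
    exact (ht v).1
  have h1 : R.card + 1 ≤ (X \ (undom G R).image t).card := by
    rw [card_sdiff_of_subset hTX]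
    omega
  obtain ⟨U, hU, hUc⟩ := Finset.exists_subset_card_eq h1
  refine h.2 (R.card + 1) (by omega) hR U (hU.trans sdiff_subset) hUc R (by omega) ?_
  rw [dominating_iff]
  intro v
  by_cases hv : Dom G R v
  · obtain ⟨r, hr, hr'⟩ := hv
    exact ⟨r, mem_union_right _ hr, hr'⟩
  · refine ⟨t v, mem_union_left _ ?_, (ht v).2⟩
    rw [mem_sdiff]
    refine ⟨(ht v).1, fun hU' => ?_⟩
    have h2 := hU hU'
    rw [mem_sdiff] at h2
    exact h2.2 (mem_image_of_mem t (by simp [undom, hv]))

lemma card_le_of_dominating {k : ℕ} {G : SimpleGraph V} {X D : Finset V} (h : IsKMinimal k G X)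
    (hD : IsDominating G D) (hDk : D.card + 1 ≤ k) : X.card ≤ D.card := by
  have h1 := card_le_undom h hDk
  have h2 : undom G D = ∅ := by
    apply Finset.eq_empty_of_forall_notMem
    intro v hv
    simp only [undom, mem_filter, mem_univ, true_and] at hv
    exact hv (dominating_iff.mp hD v)
  rw [h2, card_empty] at h1
  exact h1

open Classical in
/-- admissible assignments of vertices to dominating vertices -/
noncomputable def assigns (G : SimpleGraph V) (X : Finset V) : Finset (V → V) :=
  Finset.univ.filter (fun f => ∀ v, f v ∈ X ∧ (f v = v ∨ G.Adj v (f v)) ∧ (v ∈ X → f v = v))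

open Classical in
/-- the nonadjacent pairs inside the parts of an assignment -/
noncomputable def badPairs (G : SimpleGraph V) (f : V → V) : Finset (V × V) :=
  Finset.univ.filter (fun p => p.1 ≠ p.2 ∧ f p.1 = f p.2 ∧ ¬ G.Adj p.1 p.2)

/-- Bollobas, Cockayne, Mynhardt: a `2`-minimal dominating set `X` of `G` satisfies
`|X| γ(Gᶜ) ≤ |V|`. -/
lemma exists_dominating_compl {k : ℕ} (hk : 2 ≤ k) {G : SimpleGraph V} {X : Finset V}
    (h : IsKMinimal k G X) (hX : X.Nonempty) :
    ∃ D : Finset V, IsDominating Gᶜ D ∧ D.card * X.card ≤ Fintype.card V := by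
  classical
  have hne : (assigns G X).Nonempty := by
    have hd := dominating_iff.mp h.1
    choose t ht using hd
    refine ⟨fun v => if v ∈ X then v else t v, ?_⟩
    simp only [assigns, mem_filter, mem_univ, true_and]
    intro v
    by_cases hv : v ∈ X
    · simp [hv]
    · simp [hv, (ht v).1, (ht v).2]
  obtain ⟨f, hf, hmin⟩ := Finset.exists_min_image (assigns G X)
    (fun f => (badPairs G f).card) hne
  simp only [assigns, mem_filter, mem_univ, true_and] at hf
  have hdom : ∀ u ∈ X, IsDominating Gᶜ (univ.filter (fun v => f v = u)) := by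
    intro u hu r hr
    by_contra hcon
    push Not at hcon
    have hru : f r ≠ u := by simpa using hr
    have hadj : ∀ w, f w = u → G.Adj r w := by
      intro w hw
      have h1 := hcon w (by simp [hw])
      rw [SimpleGraph.compl_adj] at h1
      push Not at h1
      refine h1 ?_
      rintro rfl
      exact hru hw
    -- r is not in X
    have hrX : r ∉ X := by
      intro hrX
      have hnd := h.2 1 le_rfl (by omega) {u} (by simpa using hu) (by simp) ∅ (by simp)
      rw [dominating_iff] at hnd
      push Not at hnd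
      obtain ⟨w, hw⟩ := hnd
      have hfw : f w = u := by
        by_contra hne'
        exact hw ⟨f w, by simp [(hf w).1, hne'], (hf w).2.1⟩
      have h2 := hadj w hfw
      have h3 : r ≠ u := by
        rintro rfl
        exact hru ((hf r).2.2 hrX)
      exact hw ⟨r, by simp [hrX, h3], Or.inr h2.symm⟩
    have hu' : f r ∈ X := (hf r).1
    have hnd := h.2 2 (by norm_num) hk {u, f r} (by
      intro x hx
      rw [mem_insert, mem_singleton] at hx
      rcases hx with rfl | rfl
      · exact hu
      · exact hu') (Finset.card_pair (fun h => hru h.symm)) {r} (by simp)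
    rw [dominating_iff] at hnd
    push Not at hnd
    obtain ⟨v, hv⟩ := hnd
    have hvr : ¬ (r = v ∨ G.Adj v r) := fun hh => hv ⟨r, by simp, hh⟩
    push Not at hvr
    have hfv : f v = f r := by
      by_contra hne'
      have h4 : f v ≠ u := by
        intro hh
        exact hvr.2 (hadj v hh).symm
      exact hv ⟨f v, by simp [(hf v).1, hne', h4], (hf v).2.1⟩
    -- the improved assignment
    have hadju : G.Adj r u := hadj u ((hf u).2.2 hu)
    have hf' : Function.update f r u ∈ assigns G X := by
      simp only [assigns, mem_filter, mem_univ, true_and]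
      intro w
      by_cases hw : w = r
      · subst hw
        simp only [Function.update_self]
        exact ⟨hu, Or.inr hadju, fun h => absurd h hrX⟩
      · simp only [Function.update_of_ne hw]
        exact hf w
    have hlt : (badPairs G (Function.update f r u)).card < (badPairs G f).card := by
      apply Finset.card_lt_card
      rw [Finset.ssubset_iff_of_subset]
      · refine ⟨(r, v), ?_, ?_⟩
        · simp only [badPairs, mem_filter, mem_univ, true_and]
          exact ⟨hvr.1, hfv.symm, fun hh => hvr.2 hh.symm⟩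
        · simp only [badPairs, mem_filter, mem_univ, true_and]
          rintro ⟨_, h5, _⟩
          rw [Function.update_self, Function.update_of_ne (fun hh => hvr.1 hh.symm)] at h5
          rw [hfv] at h5
          exact hru h5.symm
      · rintro ⟨x, y⟩ hxy
        simp only [badPairs, mem_filter, mem_univ, true_and] at hxy ⊢
        obtain ⟨h5, h6, h7⟩ := hxy
        by_cases hx : x = r
        · subst hx
          rw [Function.update_self, Function.update_of_ne (fun hh => h5 hh.symm)] at h6
          exact absurd (hadj y h6.symm) h7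
        · by_cases hy : y = r
          · subst hy
            rw [Function.update_self, Function.update_of_ne hx] at h6
            exact absurd (hadj x h6).symm h7
          · rw [Function.update_of_ne hx, Function.update_of_ne hy] at h6
            exact ⟨h5, h6, h7⟩
    exact absurd (hmin _ hf') (by omega)
  obtain ⟨u, hu, humin⟩ := Finset.exists_min_image X
    (fun u => (univ.filter (fun v => f v = u)).card) hX
  refine ⟨univ.filter (fun v => f v = u), hdom u hu, ?_⟩
  have h1 : ∑ u ∈ X, (univ.filter (fun v => f v = u)).card = Fintype.card V := by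
    rw [← Finset.card_univ]
    exact (Finset.card_eq_sum_card_fiberwise (fun v _ => (hf v).1)).symm
  rw [← h1, mul_comm, ← smul_eq_mul]
  exact Finset.card_nsmul_le_sum _ _ _ humin

/-- von Neumann minimax for 0/1 matrices. -/
lemma exists_strategies [Nonempty V] (A : V → V → ℝ) :
    ∃ (ρ : ℝ) (q p : V → ℝ), q ∈ stdSimplex ℝ V ∧ p ∈ stdSimplex ℝ V ∧
      (∀ v, ρ ≤ ∑ r, q r * A r v) ∧ (∀ r, ∑ v, p v * A r v ≤ ρ) := by
  classical
  let f : (V → ℝ) → (V → ℝ) → ℝ := fun p q => ∑ v, ∑ r, p v * q r * A r v
  have hlin1 : ∀ q : V → ℝ, ∀ p, f p q = ∑ v, p v * ∑ r, q r * A r v := by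
    intro q p
    refine Finset.sum_congr rfl fun v _ => ?_
    rw [Finset.mul_sum]
    exact Finset.sum_congr rfl fun r _ => by ring
  have hlin2 : ∀ p : V → ℝ, ∀ q, f p q = ∑ r, q r * ∑ v, p v * A r v := by
    intro p q
    simp only [f]
    rw [Finset.sum_comm]
    refine Finset.sum_congr rfl fun v _ => ?_
    rw [Finset.mul_sum]
    exact Finset.sum_congr rfl fun r _ => by ring
  have hne : (stdSimplex ℝ V).Nonempty :=
    ⟨_, single_mem_stdSimplex ℝ (Classical.arbitrary V)⟩
  have hconvL : ∀ c : V → ℝ, QuasiconvexOn ℝ (stdSimplex ℝ V) (fun p => ∑ v, p v * c v) := by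
    intro c
    refine ConvexOn.quasiconvexOn ⟨convex_stdSimplex ℝ V, ?_⟩
    intro x _ y _ a b _ _ _
    refine le_of_eq ?_
    simp only [Pi.add_apply, Pi.smul_apply, smul_eq_mul, Finset.mul_sum, ← Finset.sum_add_distrib]
    exact Finset.sum_congr rfl fun v _ => by ring
  have hconcL : ∀ c : V → ℝ, QuasiconcaveOn ℝ (stdSimplex ℝ V) (fun p => ∑ v, p v * c v) := by
    intro c
    refine ConcaveOn.quasiconcaveOn ⟨convex_stdSimplex ℝ V, ?_⟩
    intro x _ y _ a b _ _ _
    refine le_of_eq ?_
    simp only [Pi.add_apply, Pi.smul_apply, smul_eq_mul, Finset.mul_sum, ← Finset.sum_add_distrib]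
    exact Finset.sum_congr rfl fun v _ => by ring
  have hcont : ∀ c : V → ℝ, Continuous (fun p : V → ℝ => ∑ v, p v * c v) := by
    intro c
    fun_prop
  obtain ⟨p, hp, q, hq, hs⟩ := Sion.exists_isSaddlePointOn (X := stdSimplex ℝ V)
    (Y := stdSimplex ℝ V) (f := f) hne (convex_stdSimplex ℝ V) (isCompact_stdSimplex ℝ V)
    (fun q _ => by
      simp only [hlin1 q]
      exact (hcont _).lowerSemicontinuous.lowerSemicontinuousOn _)
    (fun q _ => by
      simp only [hlin1 q]
      exact hconvL _)
    (convex_stdSimplex ℝ V) hne (isCompact_stdSimplex ℝ V)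
    (fun p _ => by
      simp only [hlin2 p]
      exact (hcont _).upperSemicontinuous.upperSemicontinuousOn _)
    (fun p _ => by
      simp only [hlin2 p]
      exact hconcL _)
  refine ⟨f p q, q, p, hq, hp, fun v => ?_, fun r => ?_⟩
  · have h1 := hs (Pi.single v 1) (single_mem_stdSimplex ℝ v) q hq
    rw [hlin1 q (Pi.single v 1)] at h1
    simpa [Pi.single_apply] using h1
  · have h1 := hs p hp (Pi.single r 1) (single_mem_stdSimplex ℝ r)
    rw [hlin2 p (Pi.single r 1)] at h1
    simpa [Pi.single_apply] using h1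

/-- averaging over random `m`-tuples -/
lemma expectation {m : ℕ} (q : V → ℝ) (hq : q ∈ stdSimplex ℝ V) (b : V → V → Prop)
    [∀ r v, Decidable (b r v)] (c : ℝ)
    (h : ∀ R : Fin m → V, c ≤ ((univ.filter (fun v => ∀ i, ¬ b (R i) v)).card : ℝ)) :
    c ≤ ∑ v, (∑ r, q r * (if b r v then 0 else 1)) ^ m := by
  have h1 : ∑ v, (∑ r, q r * (if b r v then 0 else 1)) ^ m =
      ∑ R : Fin m → V, (∏ i, q (R i)) * ((univ.filter (fun v => ∀ i, ¬ b (R i) v)).card : ℝ) := by
    simp_rw [Fintype.sum_pow]
    rw [Finset.sum_comm]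
    refine Finset.sum_congr rfl fun R _ => ?_
    simp_rw [Finset.prod_mul_distrib]
    rw [← Finset.mul_sum]
    congr 1
    rw [Finset.card_filter]
    push_cast
    refine Finset.sum_congr rfl fun v _ => ?_
    by_cases hv : ∀ i, ¬ b (R i) v
    · rw [if_pos hv]
      exact Finset.prod_eq_one fun i _ => by rw [if_neg (hv i)]
    · rw [if_neg hv]
      push Not at hv
      obtain ⟨i, hi⟩ := hv
      exact Finset.prod_eq_zero (mem_univ i) (by rw [if_pos hi])
  have h2 : ∑ R : Fin m → V, ∏ i, q (R i) = 1 := by
    rw [← Fintype.sum_pow, hq.2, one_pow]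
  rw [h1]
  calc c = (∑ R : Fin m → V, ∏ i, q (R i)) * c := by rw [h2, one_mul]
    _ = ∑ R : Fin m → V, (∏ i, q (R i)) * c := by rw [Finset.sum_mul]
    _ ≤ _ := by
      refine Finset.sum_le_sum fun R _ => mul_le_mul_of_nonneg_left (h R) ?_
      exact Finset.prod_nonneg fun i _ => hq.1 _

/-- the main inequality in terms of a mixed strategy -/
lemma card_le_sum_pow {k : ℕ} (hk : 1 ≤ k) {G : SimpleGraph V} [DecidableRel G.Adj]
    {X : Finset V} (h : IsKMinimal k G X) (q : V → ℝ) (hq : q ∈ stdSimplex ℝ V) :
    (X.card : ℝ) - (k - 1) ≤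
      ∑ v, (∑ r, q r * (if (r = v ∨ G.Adj v r) then 0 else 1)) ^ (k - 1) := by
  refine expectation q hq (fun r v => r = v ∨ G.Adj v r) _ fun R => ?_
  have h1 : (univ.image R).card ≤ k - 1 := by
    refine card_image_le.trans ?_
    simp
  have h2 := card_le_undom h (R := univ.image R) (by omega)
  have h3 : undom G (univ.image R) = univ.filter (fun v => ∀ i, ¬ (R i = v ∨ G.Adj v (R i))) := by
    ext v
    simp only [undom, Dom, mem_filter, mem_univ, true_and, mem_image, exists_exists_eq_and,
      not_exists]
  rw [h3] at h2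
  have h4 : ((k - 1 : ℕ) : ℝ) = (k : ℝ) - 1 := by
    rw [Nat.cast_sub hk, Nat.cast_one]
  have h5 : X.card ≤ (k - 1) +
      (univ.filter (fun v => ∀ i, ¬ (R i = v ∨ G.Adj v (R i)))).card :=
    h2.trans (Nat.add_le_add_right h1 _)
  have h6 : (X.card : ℝ) ≤ ((k - 1 : ℕ) : ℝ) +
      ((univ.filter (fun v => ∀ i, ¬ (R i = v ∨ G.Adj v (R i)))).card : ℝ) := by
    exact_mod_cast h5
  rw [h4] at h6
  linarith

/-- The error-free product inequality. -/
lemma product_bound {k : ℕ} (hk : 1 ≤ k) {G : SimpleGraph V} {X Y : Finset V}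
    (hX : IsKMinimal k G X) (hY : IsKMinimal k Gᶜ Y) (hXk : k - 1 ≤ X.card) :
    ((X.card : ℝ) - (k - 1)) * ((Y.card : ℝ) - (k - 1)) ≤
      (Fintype.card V : ℝ) ^ 2 / 4 ^ (k - 1) := by
  classical
  rcases isEmpty_or_nonempty V with hV | hV
  · have h1 : X = ∅ := Finset.eq_empty_of_isEmpty X
    have h2 : Y = ∅ := Finset.eq_empty_of_isEmpty Y
    subst h1
    subst h2
    have h3 : k = 1 := by
      rw [card_empty] at hXk
      omega
    subst h3
    simp
  obtain ⟨ρ, q, p, hq, hp, h1, h2⟩ :=
    exists_strategies (V := V) (fun r v => if (r = v ∨ G.Adj v r) then 1 else 0)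
  have hX1 := card_le_sum_pow hk hX q hq
  have hY1 := card_le_sum_pow hk hY p hp
  -- bounds for the value
  have hρ1 : ρ ≤ 1 := by
    refine (h1 (Classical.arbitrary V)).trans ?_
    refine le_trans (Finset.sum_le_sum fun r _ => ?_) hq.2.le
    have := hq.1 r
    split_ifs <;> simp [this]
  have hρ0 : 0 ≤ ρ := by
    refine le_trans ?_ (h2 (Classical.arbitrary V))
    refine Finset.sum_nonneg fun v _ => mul_nonneg (hp.1 v) ?_
    split_ifs <;> norm_num
  have hX2 : (X.card : ℝ) - (k - 1) ≤ Fintype.card V * (1 - ρ) ^ (k - 1) := by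
    refine hX1.trans ?_
    have h3 : ∀ v ∈ (univ : Finset V),
        (∑ r, q r * (if (r = v ∨ G.Adj v r) then (0 : ℝ) else 1)) ^ (k - 1) ≤
          (1 - ρ) ^ (k - 1) := by
      intro v _
      refine pow_le_pow_left₀ ?_ ?_ _
      · refine Finset.sum_nonneg fun r _ => mul_nonneg (hq.1 r) ?_
        split_ifs <;> norm_num
      · have h4 := h1 v
        have h5 : ∑ r, q r * (if (r = v ∨ G.Adj v r) then (0 : ℝ) else 1) =
            1 - ∑ r, q r * (if (r = v ∨ G.Adj v r) then (1 : ℝ) else 0) := by
          have h8 : ∑ r, q r * (if (r = v ∨ G.Adj v r) then (0 : ℝ) else 1) =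
              ∑ r, q r - ∑ r, q r * (if (r = v ∨ G.Adj v r) then (1 : ℝ) else 0) := by
            rw [← Finset.sum_sub_distrib]
            refine Finset.sum_congr rfl fun r _ => ?_
            split_ifs <;> ring
          rw [h8, hq.2]
        rw [h5]
        linarith
    refine (Finset.sum_le_card_nsmul _ _ _ h3).trans ?_
    rw [Finset.card_univ, nsmul_eq_mul]
  have hY2 : (Y.card : ℝ) - (k - 1) ≤ Fintype.card V * ρ ^ (k - 1) := by
    refine hY1.trans ?_
    have h3 : ∀ v ∈ (univ : Finset V),
        (∑ r, p r * (if (r = v ∨ Gᶜ.Adj v r) then (0 : ℝ) else 1)) ^ (k - 1) ≤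
          ρ ^ (k - 1) := by
      intro v _
      refine pow_le_pow_left₀ ?_ ?_ _
      · refine Finset.sum_nonneg fun r _ => mul_nonneg (hp.1 r) ?_
        split_ifs <;> norm_num
      · refine le_trans (Finset.sum_le_sum fun r _ => mul_le_mul_of_nonneg_left ?_ (hp.1 r)) (h2 v)
        by_cases hrv : r = v
        · simp [hrv]
        · by_cases hadj : G.Adj v r
          · have h6 : (v = r ∨ G.Adj r v) := Or.inr hadj.symm
            rw [if_pos h6]
            split_ifs <;> norm_num
          · have h6 : (r = v ∨ Gᶜ.Adj v r) := by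
              right
              rw [SimpleGraph.compl_adj]
              exact ⟨fun hh => hrv hh.symm, hadj⟩
            rw [if_pos h6]
            split_ifs <;> norm_num
    refine (Finset.sum_le_card_nsmul _ _ _ h3).trans ?_
    rw [Finset.card_univ, nsmul_eq_mul]
  have hX0 : 0 ≤ (X.card : ℝ) - (k - 1) := by
    have : ((k - 1 : ℕ) : ℝ) ≤ X.card := by exact_mod_cast hXk
    rw [Nat.cast_sub hk, Nat.cast_one] at this
    linarith
  have hn : (0 : ℝ) ≤ Fintype.card V := by positivity
  have h7 : (0 : ℝ) ≤ Fintype.card V * ρ ^ (k - 1) := by positivity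
  calc ((X.card : ℝ) - (k - 1)) * ((Y.card : ℝ) - (k - 1))
      ≤ ((X.card : ℝ) - (k - 1)) * (Fintype.card V * ρ ^ (k - 1)) :=
        mul_le_mul_of_nonneg_left hY2 hX0
    _ ≤ (Fintype.card V * (1 - ρ) ^ (k - 1)) * (Fintype.card V * ρ ^ (k - 1)) :=
        mul_le_mul_of_nonneg_right hX2 h7
    _ = (Fintype.card V : ℝ) ^ 2 * ((1 - ρ) * ρ) ^ (k - 1) := by
        rw [mul_pow]
        ring
    _ ≤ (Fintype.card V : ℝ) ^ 2 * (1 / 4) ^ (k - 1) := by
        refine mul_le_mul_of_nonneg_left (pow_le_pow_left₀ ?_ ?_ _) (by positivity)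
        · exact mul_nonneg (by linarith) hρ0
        · nlinarith [sq_nonneg (ρ - 1 / 2)]
    _ = _ := by
        rw [one_div, inv_pow]
        rfl

/-- if the product exceeds `n` then both sets have more than `k` elements and at most `n / k`. -/
lemma large_of_product {k : ℕ} (hk : 2 ≤ k) {G : SimpleGraph V} {X Y : Finset V}
    (hX : IsKMinimal k G X) (hY : IsKMinimal k Gᶜ Y)
    (hprod : Fintype.card V < X.card * Y.card) :
    k + 1 ≤ X.card ∧ k * X.card ≤ Fintype.card V := by
  have hXne : X.Nonempty := by
    rw [← Finset.card_pos]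
    by_contra hh
    have : X.card = 0 := by omega
    rw [this] at hprod
    omega
  have hYne : Y.Nonempty := by
    rw [← Finset.card_pos]
    by_contra hh
    have : Y.card = 0 := by omega
    rw [this] at hprod
    omega
  obtain ⟨D, hD, hDc⟩ := exists_dominating_compl hk hX hXne
  obtain ⟨D', hD', hDc'⟩ := exists_dominating_compl hk hY hYne
  rw [compl_compl] at hD'
  have h1 : k ≤ D.card := by
    by_contra hh
    have h2 := card_le_of_dominating hY hD (by omega)
    have h3 : X.card * Y.card ≤ D.card * X.card := by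
      rw [mul_comm D.card]
      exact Nat.mul_le_mul_left _ h2
    omega
  have h1' : k ≤ D'.card := by
    by_contra hh
    have h2 := card_le_of_dominating hX hD' (by omega)
    have h3 : X.card * Y.card ≤ D'.card * Y.card := Nat.mul_le_mul_right _ h2
    omega
  constructor
  · by_contra hh
    have h2 : X.card ≤ D'.card := by omega
    have h3 : X.card * Y.card ≤ D'.card * Y.card := Nat.mul_le_mul_right _ h2
    omega
  · exact (Nat.mul_le_mul_right _ h1).trans hDc

end uniform

/-- `n ≤ g(n,k)` (empty graph). -/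
lemma le_g_empty (n k : ℕ) (hn : 1 ≤ n) : n ≤ g n k := by
  have : Nonempty (Fin n) := ⟨⟨0, hn⟩⟩
  refine le_trans ?_ (le_g (k := k) (⊥ : SimpleGraph (Fin n)))
  have h1 := one_le_bigGamma k (⊥ : SimpleGraph (Fin n))ᶜ
  have h2 : n ≤ bigGamma k (⊥ : SimpleGraph (Fin n)) := by
    have h3 : IsKMinimal k (⊥ : SimpleGraph (Fin n)) Finset.univ := by
      apply isKMinimal_of_min
      · intro v hv
        exact absurd (mem_univ v) hv
      · intro Y hY
        have h4 : Y = Finset.univ := by
          rw [Finset.eq_univ_iff_forall]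
          intro v
          by_contra hv
          obtain ⟨x, _, hx⟩ := hY v hv
          exact hx
        rw [h4]
    have h5 := le_bigGamma h3
    rwa [Finset.card_univ, Fintype.card_fin] at h5
  calc n = n * 1 := by ring
    _ ≤ _ := Nat.mul_le_mul h2 h1

end Pool.Agent.KMinDom
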